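import Mathlib
import Pool.Agent.Helper20.Dense.Chi

/-! Definitions for project QPB (quasi-polynomial chi-boundedness of graphs without an induced
path on six vertices). -/

open Finset
open scoped Classical
open Pool.Agent.Helper20.Dense

namespace Pool.Agent.QPB

variable {V : Type*} [Fintype V] [DecidableEq V] (G : SimpleGraph V)

/-- the boundary of `Q` in `R`: the vertices of `R \ Q` with a neighbour in `Q` -/
noncomputable def bd (R Q : Finset V) : Finset V := (R \ Q).filter (fun x => ∃ y ∈ Q, G.Adj x y)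

/-- the vertices which can be reached from `u` in `R` (the component of `u` in `R` if `u ∈ R`) -/
noncomputable def cmp (R : Finset V) (u : V) : Finset V := R.filter (fun z => Reach G R u z)

/-- no edges between `X` and `Y` -/
def Anti (X Y : Finset V) : Prop := ∀ x ∈ X, ∀ y ∈ Y, ¬ G.Adj x y

/-- `X` has almost the same chromatic number as `D` -/
def Full (W : ℕ) (D X : Finset V) : Prop :=
  (1 - 1 / (2 * (W : ℝ))) * (chi G D : ℝ) ≤ (chi G X : ℝ)

/-- nonempty extremal sets for the exponent `g` -/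
def Xt (g : ℕ) (D : Finset V) : Prop :=
  D.Nonempty ∧ Extr G (fun X => (chi G X : ℝ)) g D

/-- the parameters: `t` (length of the path), `W` (clique number), `s` (exponent), `al` -/
structure Par (t W s : ℕ) (al : ℝ) : Prop where
  ht : 4 ≤ t
  hW : 2 ≤ W
  hs : 1 ≤ s
  al_pos : 0 < al
  al_le : 12 * (t : ℝ) * al ≤ 1
  eps : (1 - al) ^ s * (32 * (t : ℝ) * (W : ℝ) ^ 2) ≤ 1

/-- abstract tails: what is used of the vertices outside a region -/
structure Hook (W : ℕ) (D : Finset V) (P : V → Finset V → Prop) : Prop where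
  mono : ∀ s R R', R' ⊆ R → P s R → P s R'
  full : ∀ s A R, s ∈ D → s ∉ A → s ∉ R → A ⊆ D → Conn G A → Full G W D A →
    (∃ a ∈ A, G.Adj s a) → Disjoint A R → Anti G A R → P s R
  nopath : ∀ s R a b c, P s R → s ∉ R → a ∈ R → b ∈ R → c ∈ R → G.Adj s a → ¬ G.Adj s b →
    ¬ G.Adj s c → G.Adj a b → ¬ G.Adj a c → G.Adj b c → False

/-- nodes of the recursion -/
structure Node (W : ℕ) (D : Finset V) (P : V → Finset V → Prop) (R : Finset V) : Prop where
  sub : R ⊆ D
  conn : Conn G R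
  full : Full G W D R
  out : ∀ s ∈ D, s ∉ R → (∃ r ∈ R, G.Adj s r) → P s R

/-- no two disjoint anticomplete connected full subsets -/
def NB (W : ℕ) (D R : Finset V) : Prop :=
  ∀ A B, A ⊆ R → B ⊆ R → Conn G A → Conn G B → Full G W D A → Full G W D B →
    Disjoint A B → ¬ Anti G A B

/-- `v` is nearly complete to `T` (relative to `D`) -/
def NC (W : ℕ) (D T : Finset V) (v : V) : Prop :=
  8 * (W : ℝ) ^ 2 * (chi G (T.filter (fun x => ¬ G.Adj v x)) : ℝ) ≤ (chi G D : ℝ)

/-- frames -/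
structure Frame (W : ℕ) (D Q T : Finset V) (k : ℝ) : Prop where
  QD : Q ⊆ D
  TD : T ⊆ D
  conn : Conn G Q
  meet : (Q ∩ T).Nonempty
  big : (chi G D : ℝ) ≤ 4 * (W : ℝ) * (chi G T : ℝ)
  out : (om G (T \ Q) : ℝ) ≤ k * (om G D : ℝ)
  uns : ∀ Q' ⊆ Q, Conn G Q' → (Q' ∩ T).Nonempty →
    (om G (bd G Q Q') : ℝ) ≤ (3 / 4 - k) * (om G D : ℝ) → Q ∩ T ⊆ Q' ∪ bd G Q Q'

/-- clean regions -/
def Clean (W : ℕ) (D Q T : Finset V) : Prop :=
  ∀ Q' ⊆ Q, Q' ≠ Q → Conn G Q' → (Q' ∩ T).Nonempty → ¬ ∀ x ∈ bd G Q Q', NC G W D T x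

/-- every connected extremal set has a frame -/
def HReg (W s : ℕ) : Prop :=
  ∀ (g : ℕ) (D : Finset V), s ≤ g → Xt G g D → Conn G D → ∃ Q T, Frame G W D Q T 0

end Pool.Agent.QPB
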