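import Mathlib
import Pool.Agent.QPB.Defs

/-! QPB-CompA: components and boundaries. Elementary facts (all short).

Recall `Reach G X a b` (Helper20.Dense.Chi) = `ReflTransGen (fun x y => G.Adj x y ∧ y ∈ X) a b`
(all vertices after `a` lie in `X`), `Conn G X = ∀ a ∈ X, ∀ b ∈ X, Reach G X a b`,
`Reach.mono`, `exists_minimal`, `conn_of_minimal`, `chi_mono`, `chi_union`, `nonempty_of_chi_pos`,
`card_le_om`, `exists_clique`, `om_mono`, `om_pos` are available in
`Pool/Agent/Helper20/Dense/{Basic,Chi}.lean`. -/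

open Finset
open scoped Classical
open Pool.Agent.Helper20.Dense

namespace Pool.Agent.QPB

variable {V : Type*} [Fintype V] [DecidableEq V] (G : SimpleGraph V)

lemma mem_bd {R Q : Finset V} {x : V} :
    x ∈ bd G R Q ↔ (x ∈ R ∧ x ∉ Q) ∧ ∃ y ∈ Q, G.Adj x y := by
  unfold bd
  rw [Finset.mem_filter, Finset.mem_sdiff]

lemma bd_subset (R Q : Finset V) : bd G R Q ⊆ R := fun x hx => ((mem_bd G).mp hx).1.1

lemma bd_disjoint (R Q : Finset V) : Disjoint (bd G R Q) Q := by
  rw [Finset.disjoint_left]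
  exact fun x hx => ((mem_bd G).mp hx).1.2

lemma cmp_subset (R : Finset V) (u : V) : cmp G R u ⊆ R := Finset.filter_subset _ _

lemma mem_cmp_self {R : Finset V} {u : V} (hu : u ∈ R) : u ∈ cmp G R u :=
  Finset.mem_filter.mpr ⟨hu, Relation.ReflTransGen.refl⟩

lemma reach_mem {X : Finset V} {a b : V} (ha : a ∈ X) (h : Reach G X a b) : b ∈ X := by
  cases h with
  | refl => exact ha
  | tail _ h => exact h.2

lemma reach_symm {X : Finset V} {a b : V} (ha : a ∈ X) (h : Reach G X a b) : Reach G X b a := by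
  induction h with
  | refl => exact Relation.ReflTransGen.refl
  | @tail c d hac hcd ih =>
    have hc : c ∈ X := reach_mem G ha hac
    exact Relation.ReflTransGen.head ⟨hcd.1.symm, hc⟩ ih

/-- plan: both endpoints are joined to `u` inside the set of vertices reachable from `u`
(induction on `ReflTransGen`, keeping the invariant that all visited vertices are in `cmp`). -/
lemma conn_cmp {R : Finset V} {u : V} (hu : u ∈ R) : Conn G (cmp G R u) := by
  have key : ∀ a, Reach G R u a → Reach G (cmp G R u) u a := by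
    intro a ha
    induction ha with
    | refl => exact Relation.ReflTransGen.refl
    | @tail c d hc hcd ih =>
      exact ih.tail ⟨hcd.1, Finset.mem_filter.mpr ⟨hcd.2, hc.tail hcd⟩⟩
  intro a ha b hb
  have ha' := (Finset.mem_filter.mp ha).2
  have hb' := (Finset.mem_filter.mp hb).2
  exact (reach_symm G (mem_cmp_self G hu) (key a ha')).trans (key b hb')

/-- a connected set `Y ⊆ R` containing `v` or a neighbour of `v` is contained in `cmp G R v` -/
lemma subset_cmp {R Y : Finset V} {v y : V} (hY : Conn G Y) (hYR : Y ⊆ R) (hy : y ∈ Y)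
    (hv : v = y ∨ G.Adj v y) : Y ⊆ cmp G R v := by
  intro z hz
  refine Finset.mem_filter.mpr ⟨hYR hz, ?_⟩
  have h1 : Reach G R y z := (hY y hy z hz).mono G hYR
  rcases hv with rfl | h
  · exact h1
  · exact Relation.ReflTransGen.head ⟨h, hYR hy⟩ h1

/-- the boundary of a component of `R \ S` is contained in `S` -/
lemma bd_cmp (R S : Finset V) (u : V) : bd G R (cmp G (R \ S) u) ⊆ S := by
  intro x hx
  rw [mem_bd] at hx
  obtain ⟨⟨hxR, hxC⟩, y, hy, hxy⟩ := hx
  by_contra hxS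
  apply hxC
  have hxRS : x ∈ R \ S := Finset.mem_sdiff.mpr ⟨hxR, hxS⟩
  exact Finset.mem_filter.mpr ⟨hxRS, ((Finset.mem_filter.mp hy).2).tail ⟨hxy.symm, hxRS⟩⟩

/-- a connected set is the component of `R` minus its boundary -/
lemma cmp_eq {R Q : Finset V} {u : V} (hQ : Conn G Q) (hQR : Q ⊆ R) (hu : u ∈ Q) :
    cmp G (R \ bd G R Q) u = Q := by
  apply Finset.Subset.antisymm
  · intro z hz
    have hz' := (Finset.mem_filter.mp hz).2
    clear hz
    induction hz' with
    | refl => exact hu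
    | @tail c d _ hcd ih =>
      by_contra hd
      have h1 := Finset.mem_sdiff.mp hcd.2
      exact h1.2 ((mem_bd G).mpr ⟨⟨h1.1, hd⟩, c, ih, hcd.1.symm⟩)
  · refine subset_cmp G hQ ?_ hu (Or.inl rfl)
    intro z hz
    rw [Finset.mem_sdiff]
    exact ⟨hQR hz, fun h => ((mem_bd G).mp h).1.2 hz⟩

lemma bd_nonempty {R Q : Finset V} (hR : Conn G R) (hQR : Q ⊆ R) (hQ : Q.Nonempty)
    (hne : Q ≠ R) : (bd G R Q).Nonempty := by
  by_contra hcon
  rw [Finset.not_nonempty_iff_eq_empty] at hcon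
  apply hne
  apply Finset.Subset.antisymm hQR
  intro z hz
  obtain ⟨q, hq⟩ := hQ
  have h1 := hR q (hQR hq) z hz
  clear hz
  induction h1 with
  | refl => exact hq
  | @tail c d _ hcd ih =>
    by_contra hd
    have h2 : d ∈ bd G R Q := (mem_bd G).mpr ⟨⟨hcd.2, hd⟩, c, ih, hcd.1.symm⟩
    rw [hcon] at h2
    exact absurd h2 (Finset.notMem_empty _)

/-- boundary of a smaller set in a smaller region -/
lemma bd_subset_union {Q Q₂ Q' : Finset V} (h : Q' ⊆ Q₂) :
    bd G Q Q' ⊆ bd G Q₂ Q' ∪ bd G Q Q₂ := by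
  intro x hx
  rw [mem_bd] at hx
  rw [Finset.mem_union, mem_bd, mem_bd]
  obtain ⟨⟨hxQ, hxQ'⟩, y, hy, hxy⟩ := hx
  by_cases h2 : x ∈ Q₂
  · exact Or.inl ⟨⟨h2, hxQ'⟩, y, hy, hxy⟩
  · exact Or.inr ⟨⟨hxQ, h2⟩, y, h hy, hxy⟩

lemma bd_mono {Q₁ Q₂ Q' : Finset V} (h : Q₁ ⊆ Q₂) : bd G Q₁ Q' ⊆ bd G Q₂ Q' := by
  intro x hx
  rw [mem_bd] at hx ⊢
  exact ⟨⟨h hx.1.1, hx.1.2⟩, hx.2⟩

end Pool.Agent.QPB
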