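import Mathlib
import Pool.Agent.QPB.Defs

/-! QPB-CompB: existence of connected sets, clique numbers, tails. Elementary facts (all short).
See `Pool/Agent/Helper20/Dense/{Basic,Chi}.lean` for `om`, `chi`, `Conn`, `Reach`, `Tail`,
`exists_minimal`, `conn_of_minimal`, `chi_le_iff`, `IsCol`. -/

open Finset
open scoped Classical
open Pool.Agent.Helper20.Dense

namespace Pool.Agent.QPB

variable {V : Type*} [Fintype V] [DecidableEq V] (G : SimpleGraph V)

lemma om_le_chi (X : Finset V) : om G X ≤ chi G X := by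
  obtain ⟨S, hSX, hSc, hS⟩ := exists_clique G X
  obtain ⟨c, h1, h2⟩ := isCol_chi G X
  rw [← hS, ← Finset.card_range (chi G X)]
  apply Finset.card_le_card_of_injOn c
  · intro x hx
    exact Finset.mem_coe.mpr (Finset.mem_range.mpr (h1 x (hSX hx)))
  · intro x hx y hy hxy
    by_contra hne
    exact h2 x (hSX hx) y (hSX hy) (hSc hx hy hne) hxy

lemma chi_pos {X : Finset V} (hX : X.Nonempty) : 1 ≤ chi G X :=
  (om_pos G hX).trans (om_le_chi G X)

lemma exists_conn {X : Finset V} (hX : X.Nonempty) :
    ∃ Y ⊆ X, Y.Nonempty ∧ Conn G Y ∧ chi G Y = chi G X := by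
  obtain ⟨Y, hYX, hK, hmin⟩ := exists_minimal G (le_refl (chi G X))
  have h1 := chi_pos G hX
  exact ⟨Y, hYX, nonempty_of_chi_pos G (by omega), conn_of_minimal G hK hmin,
    le_antisymm (chi_mono G hYX) hK⟩

/-- a vertex with a neighbour and a non-neighbour in a connected set -/
lemma exists_edge {C : Finset V} {c a b : V} (hC : Conn G C) (ha : a ∈ C) (hb : b ∈ C)
    (hca : G.Adj c a) (hcb : ¬ G.Adj c b) :
    ∃ x ∈ C, ∃ y ∈ C, G.Adj c x ∧ ¬ G.Adj c y ∧ G.Adj x y := by
  by_contra hcon
  push Not at hcon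
  have h1 : ∀ z, Reach G C a z → z ∈ C ∧ G.Adj c z := by
    intro z hz
    induction hz with
    | refl => exact ⟨ha, hca⟩
    | @tail x y _ hxy ih =>
      refine ⟨hxy.2, ?_⟩
      by_contra hcy
      exact hcon x ih.1 y hxy.2 ih.2 hcy hxy.1
  exact hcb (h1 b (hC a ha b hb)).2

lemma om_union_le (A B : Finset V) : om G (A ∪ B) ≤ om G A + om G B := by
  obtain ⟨S, hS, hSc, hSo⟩ := exists_clique G (A ∪ B)
  have h1 : (S ∩ A).card ≤ om G A := card_le_om G Finset.inter_subset_right
    (hSc.subset (by exact_mod_cast Finset.inter_subset_left))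
  have h2 : (S \ A).card ≤ om G B := by
    apply card_le_om G
    · intro x hx
      rw [Finset.mem_sdiff] at hx
      exact (Finset.mem_union.mp (hS hx.1)).resolve_left hx.2
    · exact hSc.subset (by exact_mod_cast Finset.sdiff_subset)
  have h3 := Finset.card_inter_add_card_sdiff S A
  omega

lemma om_add_le {A B D : Finset V} (hA : A ⊆ D) (hB : B ⊆ D)
    (hAB : ∀ a ∈ A, ∀ b ∈ B, G.Adj a b) : om G A + om G B ≤ om G D := by
  obtain ⟨K, hK, hKc, hKo⟩ := exists_clique G A
  obtain ⟨L, hL, hLc, hLo⟩ := exists_clique G B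
  have hadj : ∀ b ∈ K, ∀ x ∈ L, G.Adj b x := fun b hb x hx => hAB b (hK hb) x (hL hx)
  have hdisj : Disjoint K L := by
    rw [Finset.disjoint_left]
    intro x hx hx'
    exact (hadj x hx x hx').ne rfl
  have h7 : G.IsClique ((K ∪ L : Finset V) : Set V) := by
    rw [Finset.coe_union]
    intro x hx y hy hxy
    rcases hx with hx | hx
    · rcases hy with hy | hy
      · exact hKc hx hy hxy
      · exact hadj x hx y hy
    · rcases hy with hy | hy
      · exact (hadj y hy x hx).symm
      · exact hLc hx hy hxy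
  have h9 := card_le_om G (Finset.union_subset (hK.trans hA) (hL.trans hB)) h7
  rw [Finset.card_union_of_disjoint hdisj, hKo, hLo] at h9
  exact h9

lemma chi_le_one_of_om {X : Finset V} (h : om G X ≤ 1) : chi G X ≤ 1 := by
  rw [chi_le_iff]
  refine ⟨fun _ => 0, by simp, ?_⟩
  intro x hx y hy hxy
  exfalso
  have h1 : G.IsClique (({x, y} : Finset V) : Set V) := by
    rw [Finset.coe_insert, Finset.coe_singleton]
    intro a ha b hb hab
    rcases ha with rfl | ha
    · rcases hb with rfl | hb
      · exact absurd rfl hab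
      · rw [Set.mem_singleton_iff] at hb
        rw [hb]
        exact hxy
    · rw [Set.mem_singleton_iff] at ha
      rcases hb with rfl | hb
      · rw [ha]
        exact hxy.symm
      · rw [Set.mem_singleton_iff] at hb
        rw [ha, hb] at hab
        exact absurd rfl hab
  have h2 := card_le_om G (X := X) (S := {x, y}) (by
    intro z hz
    rw [Finset.mem_insert, Finset.mem_singleton] at hz
    rcases hz with rfl | rfl
    · exact hx
    · exact hy) h1
  rw [Finset.card_pair hxy.ne] at h2
  omega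

lemma om_singleton (v : V) : om G {v} = 1 := by
  apply le_antisymm
  · obtain ⟨S, hS, _, hSo⟩ := exists_clique G {v}
    rw [← hSo]
    have := Finset.card_le_card hS
    simpa using this
  · exact om_pos G ⟨v, Finset.mem_singleton_self v⟩

lemma tail_mono {i : ℕ} {b : V} {D D' : Finset V} (h : Tail G i b D) (hD : D' ⊆ D) :
    Tail G i b D' := by
  obtain ⟨v, h1, h2, h3⟩ := h
  exact ⟨v, h1, h2, fun j hj d hd => h3 j hj d (hD hd)⟩

/-- shorten a tail: keep the last `i + 1` vertices -/
lemma tail_shorten {i j : ℕ} (hij : i ≤ j) {b : V} {D : Finset V} (h : Tail G j b D) :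
    Tail G i b D := by
  obtain ⟨v, h1, h2, h3⟩ := h
  refine ⟨fun k => v (k + (j - i)), ?_, ?_, ?_⟩
  · show v (i + (j - i)) = b
    rw [show i + (j - i) = j by omega]
    exact h1
  · intro k l hkl hl
    have h4 := h2 (k + (j - i)) (l + (j - i)) (by omega) (by omega)
    refine ⟨h4.1, h4.2.trans ?_⟩
    omega
  · intro k hk d hd
    exact h3 (k + (j - i)) (by omega) d hd

end Pool.Agent.QPB
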