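import Mathlib
import Pool.Agent.QPB.Comp

/-! QPB-NumA: numerics of extremal sets. All independent of graph structure except for the
definitions; `Xt G g D` means `D` nonempty and
`chi X * om D ^ g ≤ chi D * om X ^ g` (reals) for all `X ⊆ D`. -/

open Finset
open scoped Classical
open Pool.Agent.Helper20.Dense

namespace Pool.Agent.QPB

variable {V : Type*} [Fintype V] [DecidableEq V] (G : SimpleGraph V)

private lemma om_pos_real {D : Finset V} (h : D.Nonempty) : (0 : ℝ) < (om G D : ℝ) := by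
  exact_mod_cast om_pos G h

/-- `om X ≤ β om D` implies `chi X ≤ β ^ g chi D` -/
lemma chi_le_pow {g : ℕ} {D X : Finset V} (hD : Xt G g D) (hX : X ⊆ D) {β : ℝ} (hβ : 0 ≤ β)
    (h : (om G X : ℝ) ≤ β * (om G D : ℝ)) : (chi G X : ℝ) ≤ β ^ g * (chi G D : ℝ) := by

  have h1 := hD.2 X hX
  simp only at h1
  have h0 : (0 : ℝ) < (om G D : ℝ) ^ g := pow_pos (om_pos_real G hD.1) g
  have h2 : (om G X : ℝ) ^ g ≤ (β * (om G D : ℝ)) ^ g := pow_le_pow_left₀ (by positivity) h g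
  rw [mul_pow] at h2
  have h3 : (chi G D : ℝ) * (om G X : ℝ) ^ g ≤ (chi G D : ℝ) * (β ^ g * (om G D : ℝ) ^ g) :=
    mul_le_mul_of_nonneg_left h2 (by positivity)
  have h4 : (chi G X : ℝ) * (om G D : ℝ) ^ g ≤ (β ^ g * (chi G D : ℝ)) * (om G D : ℝ) ^ g := by
    calc (chi G X : ℝ) * (om G D : ℝ) ^ g ≤ (chi G D : ℝ) * (om G X : ℝ) ^ g := h1
      _ ≤ (chi G D : ℝ) * (β ^ g * (om G D : ℝ) ^ g) := h3
      _ = (β ^ g * (chi G D : ℝ)) * (om G D : ℝ) ^ g := by ring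
  exact le_of_mul_le_mul_right h4 h0


/-- `(1 - al) ^ s * 32 t W^2 ≤ 1` and `g ≥ s` -/
lemma chi_small {t W s : ℕ} {al : ℝ} (hP : Par t W s al) {g : ℕ} (hg : s ≤ g) {D X : Finset V}
    (hD : Xt G g D) (hX : X ⊆ D) (h : (om G X : ℝ) ≤ (1 - al) * (om G D : ℝ)) :
    (chi G X : ℝ) * (32 * (t : ℝ) * (W : ℝ) ^ 2) ≤ (chi G D : ℝ) := by

  have ht : (4 : ℝ) ≤ t := by exact_mod_cast hP.ht
  have hal := hP.al_pos
  have hal1 : al ≤ 1 := by
    have := hP.al_le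
    nlinarith
  have hb : (0 : ℝ) ≤ 1 - al := by linarith
  have h1 := chi_le_pow G hD hX hb h
  have h2 : (1 - al) ^ g ≤ (1 - al) ^ s := pow_le_pow_of_le_one hb (by linarith) hg
  have h3 := hP.eps
  have hd : (0 : ℝ) ≤ (chi G D : ℝ) := by positivity
  have h4 : (chi G X : ℝ) ≤ (1 - al) ^ s * (chi G D : ℝ) :=
    h1.trans (mul_le_mul_of_nonneg_right h2 hd)
  calc (chi G X : ℝ) * (32 * (t : ℝ) * (W : ℝ) ^ 2)
      ≤ ((1 - al) ^ s * (chi G D : ℝ)) * (32 * (t : ℝ) * (W : ℝ) ^ 2) :=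
        mul_le_mul_of_nonneg_right h4 (by positivity)
    _ = ((1 - al) ^ s * (32 * (t : ℝ) * (W : ℝ) ^ 2)) * (chi G D : ℝ) := by ring
    _ ≤ 1 * (chi G D : ℝ) := mul_le_mul_of_nonneg_right h3 hd
    _ = (chi G D : ℝ) := one_mul _


/-- contrapositive of `chi_small` -/
lemma om_large {t W s : ℕ} {al : ℝ} (hP : Par t W s al) {g : ℕ} (hg : s ≤ g) {D X : Finset V}
    (hD : Xt G g D) (hX : X ⊆ D)
    (h : (chi G D : ℝ) < (chi G X : ℝ) * (32 * (t : ℝ) * (W : ℝ) ^ 2)) :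
    (1 - al) * (om G D : ℝ) < (om G X : ℝ) := by
  by_contra hcon
  push Not at hcon
  exact absurd (chi_small G hP hg hD hX hcon) (not_le.mpr h)

/-- `om X < om D ≤ W` implies `chi X ≤ (1 - 1/W) chi D` -/
lemma chi_drop {g W : ℕ} (hg : 1 ≤ g) {D X : Finset V} (hD : Xt G g D) (hX : X ⊆ D)
    (hW : om G D ≤ W) (h : om G X < om G D) :
    (chi G X : ℝ) ≤ (1 - 1 / (W : ℝ)) * (chi G D : ℝ) := by

  have h0 := om_pos_real G hD.1
  have hWr : (om G D : ℝ) ≤ W := by exact_mod_cast hW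
  have hWpos : (0 : ℝ) < W := lt_of_lt_of_le h0 hWr
  have h1 : (om G X : ℝ) + 1 ≤ (om G D : ℝ) := by exact_mod_cast h
  have hm1 : (1 : ℝ) ≤ (om G D : ℝ) := by exact_mod_cast om_pos G hD.1
  have hW1 : (1 : ℝ) ≤ W := hm1.trans hWr
  have hdiv : 1 / (W : ℝ) ≤ 1 := by
    rw [div_le_one hWpos]
    exact hW1
  have hdivpos : 0 < 1 / (W : ℝ) := by positivity
  have hb : (0 : ℝ) ≤ 1 - 1 / (W : ℝ) := by linarith
  have h2 : (om G X : ℝ) ≤ (1 - 1 / (W : ℝ)) * (om G D : ℝ) := by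
    have h3 : 1 / (W : ℝ) * (om G D : ℝ) ≤ 1 := by
      rw [div_mul_eq_mul_div, one_mul, div_le_one hWpos]
      exact hWr
    nlinarith
  have h3 := chi_le_pow G hD hX hb h2
  have h4 : (1 - 1 / (W : ℝ)) ^ g ≤ (1 - 1 / (W : ℝ)) ^ 1 :=
    pow_le_pow_of_le_one hb (by linarith) hg
  rw [pow_one] at h4
  exact h3.trans (mul_le_mul_of_nonneg_right h4 (by positivity))


/-- a full subset has the same clique number -/
lemma om_full {g W : ℕ} (hg : 1 ≤ g) {D X : Finset V} (hD : Xt G g D) (hX : X ⊆ D)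
    (hW : om G D ≤ W) (hW1 : 1 ≤ W) (h : Full G W D X) : om G X = om G D := by

  apply le_antisymm (om_mono G hX)
  by_contra hcon
  push Not at hcon
  have h1 := chi_drop G hg hD hX hW hcon
  have h2 : (1 - 1 / (2 * (W : ℝ))) * (chi G D : ℝ) ≤ (chi G X : ℝ) := h
  have hWr : (1 : ℝ) ≤ W := by exact_mod_cast hW1
  have h3 : (0 : ℝ) < (chi G D : ℝ) := by
    have h4 := hD.2
    obtain ⟨x, hx⟩ := hD.1
    have h5 : 1 ≤ chi G D := by
      by_contra hc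
      push Not at hc
      have h6 : IsCol G D 0 := (isCol_chi G D).mono G (by omega)
      obtain ⟨c, hc1, _⟩ := h6
      have := hc1 x hx
      omega
    exact_mod_cast h5
  have h4 : (1 : ℝ) / W = 2 * (1 / (2 * (W : ℝ))) := by
    field_simp
  have h5 : (0 : ℝ) < 1 / (2 * (W : ℝ)) := by positivity
  have h6 : 0 < 1 / (2 * (W : ℝ)) * (chi G D : ℝ) := mul_pos h5 h3
  rw [h4] at h1
  nlinarith


lemma xt_mono {g g' : ℕ} (hg : g' ≤ g) {D : Finset V} (hD : Xt G g D) : Xt G g' D := by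

  refine ⟨hD.1, fun X hX => ?_⟩
  have h1 := hD.2 X hX
  simp only at h1 ⊢
  obtain ⟨k, rfl⟩ : ∃ k, g = g' + k := ⟨g - g', by omega⟩
  have h0 : (0 : ℝ) < (om G D : ℝ) ^ k := pow_pos (om_pos_real G hD.1) k
  have h2 : (om G X : ℝ) ≤ (om G D : ℝ) := by exact_mod_cast om_mono G hX
  have h3 : (om G X : ℝ) ^ k ≤ (om G D : ℝ) ^ k := pow_le_pow_left₀ (by positivity) h2 k
  rw [pow_add, pow_add] at h1
  have h4 : ((chi G X : ℝ) * (om G D : ℝ) ^ g') * (om G D : ℝ) ^ k ≤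
      ((chi G D : ℝ) * (om G X : ℝ) ^ g') * (om G D : ℝ) ^ k := by
    calc ((chi G X : ℝ) * (om G D : ℝ) ^ g') * (om G D : ℝ) ^ k
        = (chi G X : ℝ) * ((om G D : ℝ) ^ g' * (om G D : ℝ) ^ k) := by ring
      _ ≤ (chi G D : ℝ) * ((om G X : ℝ) ^ g' * (om G X : ℝ) ^ k) := h1
      _ = ((chi G D : ℝ) * (om G X : ℝ) ^ g') * (om G X : ℝ) ^ k := by ring
      _ ≤ ((chi G D : ℝ) * (om G X : ℝ) ^ g') * (om G D : ℝ) ^ k :=
        mul_le_mul_of_nonneg_left h3 (by positivity)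
  exact le_of_mul_le_mul_right h4 h0


/-- apply extremality to a singleton -/
lemma pow_le_chi {g : ℕ} {D : Finset V} (hD : Xt G g D) : (om G D : ℝ) ^ g ≤ (chi G D : ℝ) := by

  obtain ⟨x, hx⟩ := hD.1
  have h1 := hD.2 {x} (by simpa using hx)
  simp only at h1
  have h2 : 1 ≤ chi G ({x} : Finset V) := by
    by_contra hc
    push Not at hc
    have h6 : IsCol G ({x} : Finset V) 0 := (isCol_chi G _).mono G (by omega)
    obtain ⟨c, hc1, _⟩ := h6
    have := hc1 x (by simp)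
    omega
  have h3 : om G ({x} : Finset V) ≤ 1 := by
    obtain ⟨S, hS, _, hSc⟩ := exists_clique G ({x} : Finset V)
    rw [← hSc]
    simpa using Finset.card_le_card hS
  have h2r : (1 : ℝ) ≤ (chi G ({x} : Finset V) : ℝ) := by exact_mod_cast h2
  have h3r : (om G ({x} : Finset V) : ℝ) ≤ 1 := by exact_mod_cast h3
  have h4 : (om G ({x} : Finset V) : ℝ) ^ g ≤ 1 := pow_le_one₀ (by positivity) h3r
  calc (om G D : ℝ) ^ g = 1 * (om G D : ℝ) ^ g := (one_mul _).symm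
    _ ≤ (chi G ({x} : Finset V) : ℝ) * (om G D : ℝ) ^ g :=
      mul_le_mul_of_nonneg_right h2r (by positivity)
    _ ≤ (chi G D : ℝ) * (om G ({x} : Finset V) : ℝ) ^ g := h1
    _ ≤ (chi G D : ℝ) * 1 := mul_le_mul_of_nonneg_left h4 (by positivity)
    _ = (chi G D : ℝ) := mul_one _


end Pool.Agent.QPB
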