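import Mathlib
import Pool.Agent.QPB.NumA

/-! QPB-NumB: nearly complete sets have small clique number. -/

open Finset
open scoped Classical
open Pool.Agent.Helper20.Dense

namespace Pool.Agent.QPB

variable {V : Type*} [Fintype V] [DecidableEq V] (G : SimpleGraph V)

/-- `NCTHIN`. PLAN: let `K ⊆ B` be a clique with `|K| = om B` (`exists_clique`), `|K| ≤ om D' ≤ W`.
`Y' = {y ∈ Y : all b ∈ K adjacent to y}` has `chi Y' ≥ chi Y - Σ_{b∈K} chi (Y \ N(b))`
`≥ chi D / (4W) - W chi D/(8W^2) = chi D / (8W)`, hence `om Y' ≥ (1-al) om D` by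
`om_large` (32 t W^2 > 8 W), and `om K + om Y' ≤ om D'` by `om_add_le`. See `near_complete` in
Helper20/Dense/Basic.lean for the covering argument. -/
lemma nc_thin {t W s : ℕ} {al : ℝ} (hP : Par t W s al) {g : ℕ} (hg : s ≤ g)
    {D D' Y B : Finset V} (hD : Xt G g D) (hDD : D ⊆ D') (hW : om G D' ≤ W) (hY : Y ⊆ D)
    (hB : B ⊆ D') (hbig : (chi G D : ℝ) ≤ 4 * (W : ℝ) * (chi G Y : ℝ))
    (hnc : ∀ b ∈ B, 8 * (W : ℝ) ^ 2 * (chi G (Y.filter (fun x => ¬ G.Adj b x)) : ℝ) ≤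
      (chi G D : ℝ)) :
    (om G B : ℝ) + (1 - al) * (om G D : ℝ) ≤ (om G D' : ℝ) := by
  obtain ⟨K, hKB, hKc, hK⟩ := exists_clique G B
  have hmu : IsMu (fun X : Finset V => (chi G X : ℝ)) := chi_isMu G
  have hW2 : (2 : ℝ) ≤ W := by exact_mod_cast hP.hW
  have ht4 : (4 : ℝ) ≤ t := by exact_mod_cast hP.ht
  have hKW : (K.card : ℝ) ≤ W := by
    have h1 := card_le_om G (hKB.trans hB) hKc
    exact_mod_cast h1.trans hW
  set Y' := Y.filter (fun x => ∀ b ∈ K, G.Adj b x) with hY'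
  have h1 : Y ⊆ Y' ∪ K.biUnion (fun b => Y.filter (fun x => ¬ G.Adj b x)) := by
    intro x hx
    rw [Finset.mem_union]
    by_cases h2 : ∀ b ∈ K, G.Adj b x
    · left
      exact Finset.mem_filter.mpr ⟨hx, h2⟩
    · right
      push Not at h2
      obtain ⟨b, hb, hbx⟩ := h2
      exact Finset.mem_biUnion.mpr ⟨b, hb, Finset.mem_filter.mpr ⟨hx, hbx⟩⟩
  have h2 : (chi G Y : ℝ) ≤ chi G Y' + ∑ b ∈ K, (chi G (Y.filter (fun x => ¬ G.Adj b x)) : ℝ) := by
    have h3 := hmu.le_add h1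
    have h4 := hmu.biUnion_le K (fun b => Y.filter (fun x => ¬ G.Adj b x))
    linarith
  set Z : ℝ := ∑ b ∈ K, (chi G (Y.filter (fun x => ¬ G.Adj b x)) : ℝ) with hZ
  have hcD0 : (1 : ℝ) ≤ chi G D := by exact_mod_cast chi_pos G hD.1
  have h5 : 8 * (W : ℝ) ^ 2 * Z ≤ W * chi G D := by
    rw [hZ, Finset.mul_sum]
    calc ∑ b ∈ K, 8 * (W : ℝ) ^ 2 * (chi G (Y.filter (fun x => ¬ G.Adj b x)) : ℝ)
        ≤ ∑ _b ∈ K, (chi G D : ℝ) := Finset.sum_le_sum (fun b hb => hnc b (hKB hb))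
      _ = K.card * chi G D := by rw [Finset.sum_const, nsmul_eq_mul]
      _ ≤ W * chi G D := mul_le_mul_of_nonneg_right hKW (by positivity)
  have h6 : 8 * (W : ℝ) * Z ≤ chi G D := by
    have h7 : (W : ℝ) * (8 * (W : ℝ) * Z) ≤ W * chi G D := by
      calc (W : ℝ) * (8 * (W : ℝ) * Z) = 8 * (W : ℝ) ^ 2 * Z := by ring
        _ ≤ _ := h5
    exact le_of_mul_le_mul_left h7 (by linarith)
  have h8 : (chi G D : ℝ) ≤ 8 * W * chi G Y' := by
    have h9 : 8 * (W : ℝ) * chi G Y ≤ 8 * W * (chi G Y' + Z) :=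
      mul_le_mul_of_nonneg_left h2 (by positivity)
    linarith
  have h10 : (0 : ℝ) < chi G Y' := by
    by_contra hcon
    push Not at hcon
    have : 8 * (W : ℝ) * chi G Y' ≤ 0 := mul_nonpos_of_nonneg_of_nonpos (by positivity) hcon
    linarith
  have h11 : (chi G D : ℝ) < chi G Y' * (32 * (t : ℝ) * (W : ℝ) ^ 2) := by
    have h12 : 8 * (W : ℝ) < 32 * (t : ℝ) * (W : ℝ) ^ 2 := by
      have h13 : (4 : ℝ) * (W : ℝ) ^ 2 ≤ t * (W : ℝ) ^ 2 :=
        mul_le_mul_of_nonneg_right ht4 (by positivity)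
      have h14 : 2 * (W : ℝ) ≤ (W : ℝ) ^ 2 := by nlinarith
      nlinarith
    calc (chi G D : ℝ) ≤ 8 * W * chi G Y' := h8
      _ < 32 * (t : ℝ) * (W : ℝ) ^ 2 * chi G Y' := mul_lt_mul_of_pos_right h12 h10
      _ = _ := by ring
  have hY'Y : Y' ⊆ Y := Finset.filter_subset _ _
  have h12 := om_large G hP hg hD (hY'Y.trans hY) h11
  have h13 := om_add_le G (D := D') (hKB.trans hB) ((hY'Y.trans hY).trans hDD)
    (fun a ha b hb => (Finset.mem_filter.mp hb).2 a ha)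
  have h14 := card_le_om G (Finset.Subset.refl K) hKc
  have h15 : (om G B : ℝ) + om G Y' ≤ om G D' := by
    have : om G B + om G Y' ≤ om G D' := by omega
    exact_mod_cast this
  linarith

end Pool.Agent.QPB
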