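import Mathlib
import Pool.Agent.QPB.NumA

/-! QPB-NumC: rescaling. -/

open Finset
open scoped Classical
open Pool.Agent.Helper20.Dense

namespace Pool.Agent.QPB

variable {V : Type*} [Fintype V] [DecidableEq V] (G : SimpleGraph V)

private lemma conn_extr {g : ℕ} (hg : 1 ≤ g) {N : Finset V} (hN : N.Nonempty) :
    ∃ D₁ ⊆ N, Conn G D₁ ∧ Xt G g D₁ ∧
      (chi G N : ℝ) * (om G D₁ : ℝ) ^ g ≤ (chi G D₁ : ℝ) * (om G N : ℝ) ^ g := by
  obtain ⟨D', hD'N, hD'ne, hext, hcmp⟩ := exists_extr G (chi_isMu G) g hN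
  obtain ⟨D₁, hD₁, hne, hconn, hchi⟩ := exists_conn G hD'ne
  have hchipos : (0 : ℝ) < (chi G D' : ℝ) := by
    have := chi_pos G hD'ne
    exact_mod_cast this
  have h1 : (chi G D₁ : ℝ) * (om G D' : ℝ) ^ g ≤ (chi G D' : ℝ) * (om G D₁ : ℝ) ^ g := hext D₁ hD₁
  rw [hchi] at h1
  have h2 : (om G D' : ℝ) ^ g ≤ (om G D₁ : ℝ) ^ g := le_of_mul_le_mul_left h1 hchipos
  have h3 : (om G D' : ℝ) ≤ (om G D₁ : ℝ) :=
    le_of_pow_le_pow_left₀ (by omega) (Nat.cast_nonneg _) h2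
  have h4 : om G D' = om G D₁ := by
    apply le_antisymm
    · exact_mod_cast h3
    · exact om_mono G hD₁
  refine ⟨D₁, hD₁.trans hD'N, hconn, ⟨hne, ?_⟩, ?_⟩
  · intro X hX
    have h5 : (chi G X : ℝ) * (om G D' : ℝ) ^ g ≤ (chi G D' : ℝ) * (om G X : ℝ) ^ g :=
      hext X (hX.trans hD₁)
    show (chi G X : ℝ) * (om G D₁ : ℝ) ^ g ≤ (chi G D₁ : ℝ) * (om G X : ℝ) ^ g
    rw [← h4, hchi]
    exact h5
  · have h6 : (chi G N : ℝ) * (om G D' : ℝ) ^ g ≤ (chi G D' : ℝ) * (om G N : ℝ) ^ g := hcmp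
    rw [← h4, hchi]
    exact h6

/-- `SCALE`. PLAN: `exists_extr` (Helper20 Basic) for the exponent `g` in `N` gives `D' ⊆ N` with
`Extr g D'` and `chi N om(D')^g ≤ chi D' om(N)^g`; let `D1 ⊆ D'` be connected with the same chi
(`exists_conn`), then `om D1 = om D'` by extremality (`g ≥ 1`), so `D1` is extremal too.
With `Xt (g+s) D`: `chi N * om(D)^s ≤ chi D * om(D1)^s` (see `hT1` in the proof of `step` in
Helper20/Dense/Basic.lean), so `om(D)^s ≤ 16 W^2 om(D1)^s`, and `(1-al)^s * 16 W^2 < 1` gives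
`(1-al) om D ≤ om D1`. -/
lemma scale {t W s : ℕ} {al : ℝ} (hP : Par t W s al) {g : ℕ} (hg : 1 ≤ g) {D N : Finset V}
    (hD : Xt G (g + s) D) (hN : N ⊆ D)
    (hbig : (chi G D : ℝ) ≤ 16 * (W : ℝ) ^ 2 * (chi G N : ℝ)) :
    ∃ D₁ ⊆ N, Conn G D₁ ∧ Xt G g D₁ ∧ (1 - al) * (om G D : ℝ) ≤ (om G D₁ : ℝ) := by
  have hWr : (2 : ℝ) ≤ W := by exact_mod_cast hP.hW
  have htr : (4 : ℝ) ≤ t := by exact_mod_cast hP.ht
  have hal1 : al < 1 := by
    have h1 := hP.al_le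
    have h2 := hP.al_pos
    nlinarith
  have hDpos : (0 : ℝ) < (chi G D : ℝ) := by
    have := chi_pos G hD.1
    exact_mod_cast this
  have hNpos : (0 : ℝ) < (chi G N : ℝ) := by
    by_contra hcon
    push Not at hcon
    have h0 : (0 : ℝ) ≤ 16 * (W : ℝ) ^ 2 := by positivity
    have h1 : 16 * (W : ℝ) ^ 2 * (chi G N : ℝ) ≤ 0 := mul_nonpos_of_nonneg_of_nonpos h0 hcon
    linarith
  have hNne : N.Nonempty := nonempty_of_chi_pos G (by exact_mod_cast hNpos)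
  obtain ⟨D₁, hD₁N, hconn, hxt, hcmp⟩ := conn_extr G hg hNne
  refine ⟨D₁, hD₁N, hconn, hxt, ?_⟩
  have hD₁ne : D₁.Nonempty := hxt.1
  have hm1 : (1 : ℝ) ≤ (om G D₁ : ℝ) := by exact_mod_cast om_pos G hD₁ne
  have hw1 : (1 : ℝ) ≤ (om G D : ℝ) := by exact_mod_cast om_pos G hD.1
  set w : ℝ := (om G D : ℝ) with hw
  set m : ℝ := (om G D₁ : ℝ) with hm
  have hNw : (om G N : ℝ) ≤ w := by
    rw [hw]
    exact_mod_cast om_mono G hN
  have hcmp' : (chi G N : ℝ) * m ^ g ≤ (chi G D₁ : ℝ) * w ^ g := by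
    refine hcmp.trans (mul_le_mul_of_nonneg_left ?_ (Nat.cast_nonneg _))
    exact pow_le_pow_left₀ (Nat.cast_nonneg _) hNw _
  have hext : (chi G D₁ : ℝ) * w ^ (g + s) ≤ (chi G D : ℝ) * m ^ (g + s) := hD.2 D₁ (hD₁N.trans hN)
  rw [pow_add, pow_add] at hext
  have hT1 : (chi G N : ℝ) * w ^ s ≤ (chi G D : ℝ) * m ^ s := by
    have h3 : ((chi G N : ℝ) * w ^ s) * m ^ g ≤ ((chi G D : ℝ) * m ^ s) * m ^ g := by
      calc ((chi G N : ℝ) * w ^ s) * m ^ g = ((chi G N : ℝ) * m ^ g) * w ^ s := by ring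
        _ ≤ ((chi G D₁ : ℝ) * w ^ g) * w ^ s :=
            mul_le_mul_of_nonneg_right hcmp' (by positivity)
        _ = (chi G D₁ : ℝ) * (w ^ g * w ^ s) := by ring
        _ ≤ (chi G D : ℝ) * (m ^ g * m ^ s) := hext
        _ = ((chi G D : ℝ) * m ^ s) * m ^ g := by ring
    exact le_of_mul_le_mul_right h3 (by positivity)
  have hT2 : w ^ s ≤ 16 * (W : ℝ) ^ 2 * m ^ s := by
    have h1 : (chi G N : ℝ) * w ^ s ≤ (chi G N : ℝ) * (16 * (W : ℝ) ^ 2 * m ^ s) := by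
      calc (chi G N : ℝ) * w ^ s ≤ (chi G D : ℝ) * m ^ s := hT1
        _ ≤ (16 * (W : ℝ) ^ 2 * (chi G N : ℝ)) * m ^ s :=
            mul_le_mul_of_nonneg_right hbig (by positivity)
        _ = (chi G N : ℝ) * (16 * (W : ℝ) ^ 2 * m ^ s) := by ring
    exact le_of_mul_le_mul_left h1 hNpos
  by_contra hcon
  push Not at hcon
  have h1 : m ^ s ≤ ((1 - al) * w) ^ s := pow_le_pow_left₀ (by linarith) hcon.le _
  rw [mul_pow] at h1
  have hws : (0 : ℝ) < w ^ s := by positivity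
  have h2 : 16 * (W : ℝ) ^ 2 * m ^ s ≤ 16 * (W : ℝ) ^ 2 * ((1 - al) ^ s * w ^ s) :=
    mul_le_mul_of_nonneg_left h1 (by positivity)
  have heps := hP.eps
  have hq : (0 : ℝ) ≤ (1 - al) ^ s * (W : ℝ) ^ 2 := by
    have : (0 : ℝ) ≤ 1 - al := by linarith
    positivity
  have h3 : 16 * (W : ℝ) ^ 2 * (1 - al) ^ s * 8 ≤ 1 := by
    have h4 : 4 * ((1 - al) ^ s * (W : ℝ) ^ 2) ≤ (t : ℝ) * ((1 - al) ^ s * (W : ℝ) ^ 2) :=
      mul_le_mul_of_nonneg_right htr hq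
    nlinarith
  have h5 : 16 * (W : ℝ) ^ 2 * ((1 - al) ^ s * w ^ s) * 8 ≤ w ^ s := by
    calc 16 * (W : ℝ) ^ 2 * ((1 - al) ^ s * w ^ s) * 8
        = (16 * (W : ℝ) ^ 2 * (1 - al) ^ s * 8) * w ^ s := by ring
      _ ≤ 1 * w ^ s := mul_le_mul_of_nonneg_right h3 hws.le
      _ = w ^ s := one_mul _
  linarith

/-- the start: a connected extremal set in the whole graph (same construction as in `scale`) -/
lemma start {g : ℕ} (hg : 1 ≤ g) (hne : (Finset.univ : Finset V).Nonempty) :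
    ∃ D : Finset V, Conn G D ∧ Xt G g D ∧
      (chi G Finset.univ : ℝ) * (om G D : ℝ) ^ g ≤
        (chi G D : ℝ) * (om G Finset.univ : ℝ) ^ g := by
  obtain ⟨D, _, hconn, hxt, h⟩ := conn_extr G hg hne
  exact ⟨D, hconn, hxt, h⟩

end Pool.Agent.QPB
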