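import Mathlib
import Pool.Agent.QPB.Defs

/-! QPB-NumD: existence of the parameters. PLAN: `W < 2 ^ L` with `L = Nat.log 2 W + 1` (`Nat.lt_pow_succ_log_self`); choose `K ≥ 1` with `(1 - 1/(12 t)) ^ K ≤ 1 / (128 t)` (`exists_pow_lt_of_lt_one`); then `(1-al)^(K L) * 32 t W^2 ≤ (1/(128 t))^L * 32 t * 4^L ≤ 1` (as `L ≥ 1`). `Par` is also monotone in `s`. -/

open Finset
open scoped Classical
open Pool.Agent.Helper20.Dense

namespace Pool.Agent.QPB

/-- existence of parameters: `s = K (log W + 1)` with `K` depending only on `t` -/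
lemma exists_par (t : ℕ) (ht : 4 ≤ t) :
    ∃ K : ℕ, 1 ≤ K ∧ ∀ W : ℕ, 2 ≤ W → Par t W (K * (Nat.log 2 W + 1)) (1 / (12 * (t : ℝ))) := by
  have htR : (4 : ℝ) ≤ t := by exact_mod_cast ht
  have ht0 : (0 : ℝ) < t := by linarith
  set al : ℝ := 1 / (12 * (t : ℝ)) with hal
  have hal0 : 0 < al := by positivity
  have hal1 : al ≤ 1 := by
    rw [hal, div_le_one (by positivity)]
    linarith
  have hb0 : 0 ≤ 1 - al := by linarith
  have hb1 : 1 - al < 1 := by linarith
  have hc0 : (0 : ℝ) < 1 / (128 * t) := by positivity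
  obtain ⟨K0, hK0⟩ := exists_pow_lt_of_lt_one hc0 hb1
  have hK1 : (1 - al) ^ (K0 + 1) ≤ 1 / (128 * t) := by
    calc (1 - al) ^ (K0 + 1) ≤ (1 - al) ^ K0 := pow_le_pow_of_le_one hb0 hb1.le (Nat.le_succ _)
      _ ≤ _ := hK0.le
  refine ⟨K0 + 1, by omega, ?_⟩
  intro W hW
  refine ⟨ht, hW, ?_, hal0, ?_, ?_⟩
  · exact Nat.succ_le_of_lt (Nat.mul_pos (by omega) (by omega))
  · rw [hal, mul_one_div, div_self (by positivity)]
  · have h1 : W < 2 ^ (Nat.log 2 W + 1) := Nat.lt_pow_succ_log_self (by norm_num) W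
    set L := Nat.log 2 W + 1 with hL
    have h2 : (W : ℝ) ≤ 2 ^ L := by exact_mod_cast h1.le
    have h3 : (W : ℝ) ^ 2 ≤ 4 ^ L := by
      calc (W : ℝ) ^ 2 ≤ ((2 : ℝ) ^ L) ^ 2 := pow_le_pow_left₀ (by positivity) h2 2
        _ = 4 ^ L := by rw [← pow_mul, mul_comm, pow_mul]; norm_num
    have h4 : (1 - al) ^ ((K0 + 1) * L) ≤ (1 / (128 * (t : ℝ))) ^ L := by
      rw [pow_mul]
      exact pow_le_pow_left₀ (by positivity) hK1 L
    have h5 : (1 / (128 * (t : ℝ))) ^ L * (32 * t * 4 ^ L) = (1 / (32 * (t : ℝ))) ^ L * (32 * t) := by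
      have : (1 / (128 * (t : ℝ))) * 4 = 1 / (32 * (t : ℝ)) := by
        field_simp
        norm_num
      rw [← this, mul_pow]
      ring
    have h6 : (1 / (32 * (t : ℝ))) ^ L ≤ 1 / (32 * (t : ℝ)) := by
      apply pow_le_of_le_one (by positivity)
      · rw [div_le_one (by positivity)]
        linarith
      · omega
    calc (1 - al) ^ ((K0 + 1) * L) * (32 * (t : ℝ) * (W : ℝ) ^ 2)
        ≤ (1 / (128 * (t : ℝ))) ^ L * (32 * t * 4 ^ L) := by
          apply mul_le_mul h4 _ (by positivity) (by positivity)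
          exact mul_le_mul_of_nonneg_left h3 (by positivity)
      _ = (1 / (32 * (t : ℝ))) ^ L * (32 * t) := h5
      _ ≤ 1 / (32 * (t : ℝ)) * (32 * t) := mul_le_mul_of_nonneg_right h6 (by positivity)
      _ = 1 := by field_simp

lemma Par.mono {t W s s' : ℕ} {al : ℝ} (hP : Par t W s al) (h : s ≤ s') : Par t W s' al := by
  obtain ⟨h1, h2, h3, h4, h5, h6⟩ := hP
  refine ⟨h1, h2, le_trans h3 h, h4, h5, ?_⟩
  have ht : (4 : ℝ) ≤ t := by exact_mod_cast h1
  have ha : al ≤ 1 := by nlinarith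
  refine le_trans ?_ h6
  apply mul_le_mul_of_nonneg_right _ (by positivity)
  exact pow_le_pow_of_le_one (by linarith) (by linarith) h

end Pool.Agent.QPB
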