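import Mathlib
import Pool.Agent.QPB.NumA
import Pool.Agent.QPB.NumB
import Pool.Agent.QPB.NumC
import Pool.Agent.QPB.NumD
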