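import Mathlib
import Pool.Agent.QPB.Num

/-! QPB-FrA: frames, sub-frames, clean sub-frames. -/

open Finset
open scoped Classical
open Pool.Agent.Helper20.Dense

namespace Pool.Agent.QPB

variable {V : Type*} [Fintype V] [DecidableEq V] (G : SimpleGraph V)

/-- sub-frames. PLAN: `out`: `T \ Q₂ ⊆ (T \ Q) ∪ bd Q Q₂` by `uns` of `Q` applied to `Q₂`
(`l ≤ 3/4 - k`), `om_union_le`, `om_mono`. `uns`: for `Q' ⊆ Q₂` with
`om (bd Q₂ Q') ≤ (3/4 - (k+l)) w`: `bd Q Q' ⊆ bd Q₂ Q' ∪ bd Q Q₂` (`bd_subset_union`), so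
`om (bd Q Q') ≤ (3/4 - k) w`, and `Q ∩ T ⊆ Q' ∪ bd Q Q'` gives the claim for `Q₂ ∩ T`
(an element of `bd Q Q'` lying in `Q₂` is in `bd Q₂ Q'`). -/
lemma Frame.sub {W : ℕ} {D Q T Q₂ : Finset V} {k l : ℝ} (hF : Frame G W D Q T k)
    (hQ₂ : Q₂ ⊆ Q) (hc : Conn G Q₂) (hm : (Q₂ ∩ T).Nonempty)
    (hbd : (om G (bd G Q Q₂) : ℝ) ≤ l * (om G D : ℝ)) (hl : k + l ≤ 3 / 4) :
    Frame G W D Q₂ T (k + l) := by
  have hw : (0 : ℝ) ≤ (om G D : ℝ) := Nat.cast_nonneg _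
  have hl' : l * (om G D : ℝ) ≤ (3 / 4 - k) * (om G D : ℝ) :=
    mul_le_mul_of_nonneg_right (by linarith) hw
  refine ⟨hQ₂.trans hF.QD, hF.TD, hc, hm, hF.big, ?_, ?_⟩
  · have h1 := hF.uns Q₂ hQ₂ hc hm (hbd.trans hl')
    have h2 : T \ Q₂ ⊆ (T \ Q) ∪ bd G Q Q₂ := by
      intro x hx
      rw [Finset.mem_sdiff] at hx
      by_cases hxQ : x ∈ Q
      · rcases Finset.mem_union.1 (h1 (Finset.mem_inter.2 ⟨hxQ, hx.1⟩)) with h | h
        · exact absurd h hx.2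
        · exact Finset.mem_union_right _ h
      · exact Finset.mem_union_left _ (Finset.mem_sdiff.2 ⟨hx.1, hxQ⟩)
    have h3 : (om G (T \ Q₂) : ℝ) ≤ (om G (T \ Q) : ℝ) + (om G (bd G Q Q₂) : ℝ) := by
      exact_mod_cast (om_mono G h2).trans (om_union_le G _ _)
    have h4 := hF.out
    linarith [add_mul k l (om G D : ℝ)]
  · intro Q' hQ' hc' hm' hb'
    have h2 : (om G (bd G Q Q') : ℝ) ≤ (om G (bd G Q₂ Q') : ℝ) + (om G (bd G Q Q₂) : ℝ) := by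
      exact_mod_cast (om_mono G (bd_subset_union G hQ')).trans (om_union_le G _ _)
    have h3 : (om G (bd G Q Q') : ℝ) ≤ (3 / 4 - k) * (om G D : ℝ) := by
      have e1 : (3 / 4 - (k + l)) * (om G D : ℝ) = (3 / 4 - k) * (om G D : ℝ) - l * (om G D : ℝ) := by
        ring
      rw [e1] at hb'
      linarith
    have h1 := hF.uns Q' (hQ'.trans hQ₂) hc' hm' h3
    intro x hx
    rw [Finset.mem_inter] at hx
    rcases Finset.mem_union.1 (h1 (Finset.mem_inter.2 ⟨hQ₂ hx.1, hx.2⟩)) with h | h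
    · exact Finset.mem_union_left _ h
    · rw [mem_bd] at h
      refine Finset.mem_union_right _ ?_
      rw [mem_bd]
      exact ⟨⟨hx.1, h.1.2⟩, h.2⟩

/-- the nearly complete vertices in `D` have small clique number: `nc_thin` with `D' = D` -/
lemma nc_om {t W s : ℕ} {al : ℝ} (hP : Par t W s al) (hom : om G Finset.univ ≤ W)
    {g : ℕ} (hg : s ≤ g) {D Q T : Finset V} {k : ℝ} (hD : Xt G g D) (hF : Frame G W D Q T k)
    {B : Finset V} (hB : B ⊆ D) (hnc : ∀ b ∈ B, NC G W D T b) :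
    (om G B : ℝ) ≤ al * (om G D : ℝ) := by
  have h := nc_thin G hP hg hD (Finset.Subset.refl D)
    ((om_mono G (Finset.subset_univ D)).trans hom) hF.TD hB hF.big hnc
  linarith [sub_mul 1 al (om G D : ℝ)]

/-- the nearly complete vertices of a smaller extremal set `D₁`, inside `D`: `nc_thin`,
`om B ≤ w - (1-al) om D₁ ≤ w - (1-al)^2 w ≤ 2 al w` -/
lemma nc_om' {t W s : ℕ} {al : ℝ} (hP : Par t W s al) (hom : om G Finset.univ ≤ W)
    {g : ℕ} (hg : s ≤ g) {D D₁ Q₁ T₁ : Finset V} {k : ℝ} (hD₁ : Xt G g D₁) (hDD : D₁ ⊆ D)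
    (hsc : (1 - al) * (om G D : ℝ) ≤ (om G D₁ : ℝ)) (hF : Frame G W D₁ Q₁ T₁ k)
    {B : Finset V} (hB : B ⊆ D) (hnc : ∀ b ∈ B, NC G W D₁ T₁ b) :
    (om G B : ℝ) ≤ 2 * al * (om G D : ℝ) := by
  have h := nc_thin G hP hg hD₁ hDD
    ((om_mono G (Finset.subset_univ D)).trans hom) hF.TD hB hF.big hnc
  have hw : (0 : ℝ) ≤ (om G D : ℝ) := Nat.cast_nonneg _
  have ht : (4 : ℝ) ≤ (t : ℝ) := by exact_mod_cast hP.ht
  have ha := hP.al_pos
  have ha1 : al ≤ 1 := by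
    have := hP.al_le
    nlinarith
  have h2 : (1 - al) * ((1 - al) * (om G D : ℝ)) ≤ (1 - al) * (om G D₁ : ℝ) :=
    mul_le_mul_of_nonneg_left hsc (by linarith)
  have h3 : 0 ≤ al * al * (om G D : ℝ) := mul_nonneg (mul_nonneg ha.le ha.le) hw
  nlinarith

/-- clean sub-frames. PLAN: among the `Q₂ ⊆ Q` connected, meeting `T`, with all of `bd Q Q₂`
in `NC` (`Q` itself: `bd Q Q = ∅`) take one of minimal cardinality. `nc_om` (`bd Q Q₂ ⊆ D`) and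
`Frame.sub` with `l = al` give the frame; `Clean`: a proper `Q' ⊂ Q₂` with `bd Q₂ Q'` in `NC` has
`bd Q Q'` in `NC` by `bd_subset_union`, contradicting minimality. -/
lemma Frame.clean {t W s : ℕ} {al : ℝ} (hP : Par t W s al) (hom : om G Finset.univ ≤ W)
    {g : ℕ} (hg : s ≤ g) {D Q T : Finset V} {k : ℝ} (hD : Xt G g D) (hF : Frame G W D Q T k)
    (hk : k + al ≤ 3 / 4) :
    ∃ Q₂ ⊆ Q, Frame G W D Q₂ T (k + al) ∧ Clean G W D Q₂ T ∧ ∀ x ∈ bd G Q Q₂, NC G W D T x := by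
  have hne : (Q.powerset.filter (fun Q₂ : Finset V => Conn G Q₂ ∧ (Q₂ ∩ T).Nonempty ∧
      ∀ x ∈ bd G Q Q₂, NC G W D T x)).Nonempty := by
    refine ⟨Q, Finset.mem_filter.2 ⟨Finset.mem_powerset.2 (Finset.Subset.refl Q), hF.conn,
      hF.meet, fun x hx => ?_⟩⟩
    rw [mem_bd] at hx
    exact absurd hx.1.1 hx.1.2
  obtain ⟨Q₂, hQ₂, hmin⟩ := Finset.exists_min_image _ (fun X : Finset V => X.card) hne
  rw [Finset.mem_filter, Finset.mem_powerset] at hQ₂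
  obtain ⟨hsub, hconn, hmeet, hncs⟩ := hQ₂
  have hbd : (om G (bd G Q Q₂) : ℝ) ≤ al * (om G D : ℝ) :=
    nc_om G hP hom hg hD hF ((bd_subset G Q Q₂).trans hF.QD) hncs
  refine ⟨Q₂, hsub, hF.sub G hsub hconn hmeet hbd hk, ?_, hncs⟩
  intro Q' hQ' hne' hc' hm' hall
  have hmem : Q' ∈ Q.powerset.filter (fun Q₂ : Finset V => Conn G Q₂ ∧ (Q₂ ∩ T).Nonempty ∧
      ∀ x ∈ bd G Q Q₂, NC G W D T x) := by
    refine Finset.mem_filter.2 ⟨Finset.mem_powerset.2 (hQ'.trans hsub), hc', hm', fun x hx => ?_⟩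
    rcases Finset.mem_union.1 (bd_subset_union G hQ' hx) with h | h
    · exact hall x h
    · exact hncs x h
  have h1 := hmin Q' hmem
  have h2 : Q'.card < Q₂.card := Finset.card_lt_card (hQ'.ssubset_of_ne hne')
  omega

end Pool.Agent.QPB
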