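import Mathlib
import Pool.Agent.QPB.Num

/-! QPB-FrB: most of `T` is inside the frame; the base case of the claim. -/

open Finset
open scoped Classical
open Pool.Agent.Helper20.Dense

namespace Pool.Agent.QPB

variable {V : Type*} [Fintype V] [DecidableEq V] (G : SimpleGraph V)

/-- most of `T` is in `Q`: `chi (T \ Q) ≤ chi D / (32 t W^2)` (`chi_small`, `k ≤ 3/4 ≤ 1 - al`) -/
lemma Frame.chi_out {t W s : ℕ} {al : ℝ} (hP : Par t W s al)
    {g : ℕ} (hg : s ≤ g) {D Q T : Finset V} {k : ℝ} (hD : Xt G g D) (hF : Frame G W D Q T k)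
    (hk : k ≤ 3 / 4) :
    (chi G (T \ Q) : ℝ) * (32 * (t : ℝ) * (W : ℝ) ^ 2) ≤ (chi G D : ℝ) := by
  refine chi_small G hP hg hD (Finset.sdiff_subset.trans hF.TD) ?_
  have h1 := hF.out
  have h2 : (4 : ℝ) ≤ (t : ℝ) := by exact_mod_cast hP.ht
  have h3 := hP.al_le
  have h4 := hP.al_pos
  have h5 : (0 : ℝ) ≤ (om G D : ℝ) := Nat.cast_nonneg _
  have h6 : al ≤ 1 / 4 := by nlinarith
  have h7 : k * (om G D : ℝ) ≤ (1 - al) * (om G D : ℝ) :=
    mul_le_mul_of_nonneg_right (by linarith) h5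
  linarith

/-- a vertex which is not nearly complete misses a large part of `Q ∩ T`:
`chi D < 8 W^2 chi (T \ N(b))`, `T \ N(b) ⊆ ((Q ∩ T) \ N(b)) ∪ (T \ Q)` -/
lemma Frame.chi_non {t W s : ℕ} {al : ℝ} (hP : Par t W s al)
    {g : ℕ} (hg : s ≤ g) {D Q T : Finset V} {k : ℝ} (hD : Xt G g D) (hF : Frame G W D Q T k)
    (hk : k ≤ 3 / 4) {b : V} (hb : ¬ NC G W D T b) :
    (chi G D : ℝ) ≤ 16 * (W : ℝ) ^ 2 * (chi G ((Q ∩ T).filter (fun x => ¬ G.Adj b x)) : ℝ) := by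
  have h0 := Frame.chi_out G hP hg hD hF hk
  unfold NC at hb
  push Not at hb
  have h1 : T.filter (fun x => ¬ G.Adj b x) ⊆
      (Q ∩ T).filter (fun x => ¬ G.Adj b x) ∪ (T \ Q) := by
    intro x hx
    rw [Finset.mem_filter] at hx
    rw [Finset.mem_union, Finset.mem_filter, Finset.mem_inter, Finset.mem_sdiff]
    by_cases hxQ : x ∈ Q
    · exact Or.inl ⟨⟨hxQ, hx.1⟩, hx.2⟩
    · exact Or.inr ⟨hx.1, hxQ⟩
  have h2 := (chi_mono G h1).trans (chi_union G _ _)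
  have h3 : (chi G (T.filter (fun x => ¬ G.Adj b x)) : ℝ) ≤
      (chi G ((Q ∩ T).filter (fun x => ¬ G.Adj b x)) : ℝ) + (chi G (T \ Q) : ℝ) := by
    exact_mod_cast h2
  have ht : (4 : ℝ) ≤ (t : ℝ) := by exact_mod_cast hP.ht
  have hW : (0 : ℝ) ≤ (W : ℝ) ^ 2 := by positivity
  have hc : (0 : ℝ) ≤ (chi G (T \ Q) : ℝ) := Nat.cast_nonneg _
  have hcW : (0 : ℝ) ≤ (chi G (T \ Q) : ℝ) * (W : ℝ) ^ 2 := mul_nonneg hc hW
  have hA : (0 : ℝ) ≤ (W : ℝ) ^ 2 * (chi G ((Q ∩ T).filter (fun x => ¬ G.Adj b x)) : ℝ) :=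
    mul_nonneg hW (Nat.cast_nonneg _)
  have h4 : (chi G (T \ Q) : ℝ) * (W : ℝ) ^ 2 * 128 ≤ (chi G D : ℝ) := by
    nlinarith
  have h5 : 8 * (W : ℝ) ^ 2 * (chi G (T.filter (fun x => ¬ G.Adj b x)) : ℝ) ≤
      8 * ((W : ℝ) ^ 2 * (chi G ((Q ∩ T).filter (fun x => ¬ G.Adj b x)) : ℝ)) +
        8 * ((chi G (T \ Q) : ℝ) * (W : ℝ) ^ 2) := by
    have := mul_le_mul_of_nonneg_left h3 (mul_nonneg (by norm_num : (0 : ℝ) ≤ 8) hW)
    linarith
  have h6 : (0 : ℝ) ≤ (chi G D : ℝ) := Nat.cast_nonneg _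
  linarith

/-- the base case of the claim: a tail on `t - 2` vertices forces completeness to `Q`.
PLAN: `b` is adjacent to all of `Q`: otherwise `exists_edge` gives `x, y ∈ Q`, `b ~ x`, `b ≁ y`,
`x ~ y`, and `v 0, ..., v (t-3) = b, x, y` is an induced path on `t` vertices (two `Tail.step`s as
in Helper20, or directly), contradiction (`Tail.embedding`). So `T \ N(b) ⊆ T \ Q` and
`Frame.chi_out`. -/
lemma claim_base {t W s : ℕ} {al : ℝ} (hP : Par t W s al)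
    (hfree : IsEmpty (SimpleGraph.pathGraph t ↪g G))
    {g : ℕ} (hg : s ≤ g) {D Q T : Finset V} {k : ℝ} (hD : Xt G g D) (hF : Frame G W D Q T k)
    (hk : k ≤ 3 / 4) {b : V} (hbQ : b ∉ Q) (hba : ∃ q ∈ Q, G.Adj b q)
    (hT : Tail G (t - 3) b Q) : NC G W D T b := by
  obtain ⟨q, hq, hbq⟩ := hba
  have ht4 := hP.ht
  have hall : ∀ z ∈ Q, G.Adj b z := by
    intro z hz
    by_contra hcon
    obtain ⟨x, hx, y, hy, hbx, hby, hxy⟩ := exists_edge G hF.conn hq hz hbq hcon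
    have h1 : Tail G (t - 3 + 1) x {y} := by
      refine hT.step G hx hbx (Finset.singleton_subset_iff.mpr hy) (fun d hd => ?_)
      rw [Finset.mem_singleton] at hd
      rw [hd]
      exact ⟨fun h => hbQ (h ▸ hy), hby⟩
    have h2 : Tail G (t - 3 + 1 + 1) y ∅ :=
      h1.step G (Finset.mem_singleton_self y) hxy (Finset.empty_subset _)
        (fun d hd => absurd hd (Finset.notMem_empty d))
    obtain ⟨φ⟩ := h2.embedding G
    rw [show t - 3 + 1 + 1 + 1 = t by omega] at φ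
    exact hfree.false φ
  have h0 := Frame.chi_out G hP hg hD hF hk
  have h1 : T.filter (fun x => ¬ G.Adj b x) ⊆ T \ Q := by
    intro x hx
    rw [Finset.mem_filter] at hx
    rw [Finset.mem_sdiff]
    exact ⟨hx.1, fun h => hx.2 (hall x h)⟩
  have h3 : (chi G (T.filter (fun x => ¬ G.Adj b x)) : ℝ) ≤ (chi G (T \ Q) : ℝ) := by
    exact_mod_cast chi_mono G h1
  have ht : (4 : ℝ) ≤ (t : ℝ) := by exact_mod_cast hP.ht
  have hW : (0 : ℝ) ≤ (W : ℝ) ^ 2 := by positivity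
  have hc : (0 : ℝ) ≤ (chi G (T \ Q) : ℝ) := Nat.cast_nonneg _
  have hcW : (0 : ℝ) ≤ (chi G (T \ Q) : ℝ) * (W : ℝ) ^ 2 := mul_nonneg hc hW
  have h4 : (chi G (T \ Q) : ℝ) * (W : ℝ) ^ 2 * 128 ≤ (chi G D : ℝ) := by
    nlinarith
  unfold NC
  have h5 := mul_le_mul_of_nonneg_left h3 (mul_nonneg (by norm_num : (0 : ℝ) ≤ 8) hW)
  linarith

end Pool.Agent.QPB
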