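import Mathlib
import Pool.Agent.QPB.Comp

/-! QPB-ReachA (only `tail_walk`, part (4) of the plan: induction on `F.card` with `reach_step`): the part of the boundary of `Q₁` reachable from `b`.

PLAN. `F := Q \ (Q₁ ∪ bd G Q Q₁)` (the vertices of `Q` far from `Q₁`),
`N := (bd G Q Q₁).filter (fun x => ∃ y, Reach G F b y ∧ G.Adj y x)` (note `y = b` is allowed),
`Qp := cmp G (Q \ N) u` for a fixed `u ∈ Q₁`.
(1) `Q₁ ⊆ Qp` (`subset_cmp`, `N` is disjoint from `Q₁`), `Qp` connected, `bd Q Qp ⊆ N` (`bd_cmp`).
(2) No vertex of `Qp` is reachable from `b` in `F` (except that `b ∉ Qp`) and no vertex of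
`Qp` is adjacent to a vertex `y` with `Reach G F b y`:
first, the set `Qp ∩ (bd Q Q₁ ∪ Q₁)` has no element adjacent to such a `y`: an element of
`bd Q Q₁` adjacent to such a `y` is in `N`, an element of `Q₁` is not adjacent to `F` (elements of
`F` are not in `bd Q Q₁`) nor to `b`. Second, if `z ∈ Qp` is adjacent to such a `y` and `z ∈ F`
then `z` itself is reachable in `F`; walk inside `Qp` from `z` to `u ∈ Q₁` (`conn_cmp`): by
induction along the walk all vertices are in `F` and reachable (the next vertex is adjacent to a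
reachable one, it is in `Qp`, so by the first part it is in neither `bd Q Q₁` nor `Q₁`, so in
`F`), contradiction at `u`. If `y ∈ F ∩ Qp` is reachable then its successor on a walk in `Qp`
to `u` is adjacent to `y`: contradiction as well (or the same induction).
(3) In particular `b` has no neighbour in `Qp`.
(4) Tails: for `x ∈ N` there is `m ≥ 1` with `Tail G (i + m) x Qp`, so `Tail G (i+1) x Qp` by
`tail_shorten`. Prove by the induction principle for shortest walks, e.g. with
`reach_step` (Helper20 Chi): define the statement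
`∀ n, ∀ (F' ⊆ F) (i) (b), F'.card = n → Tail G i b (F' ∪ {x} ∪ Qp) → b ∉ F' ∪ {x} ∪ Qp →
 b anticomplete to Qp → (∃ y, Reach G F' b y ∧ G.Adj y x) → Tail G (i+1) x Qp`,
where the induction step is: if `b ~ x`, `Tail.step`-like construction (append `x` after `b`);
otherwise (`b ≁ x`) the walk from `b` to `y` is not trivial, `reach_step` gives `u ∈ F'`,
`b ~ u`, `Reach G (non G b F') u y`, and `Tail G (i+1) u (non G b F' ∪ {x} ∪ Qp)` by `Tail.step`;
apply the induction hypothesis to `non G b F' \ {u}` or keep `F'` decreasing in another way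
(`u ∉ non G b F'` because `b ~ u`, so the cardinality drops), getting `Tail G (i+2) x Qp`, shorten.
The vertices of `F'` reachable from `b` are anticomplete to `Qp` by (2) (restrict `F` to the
reachable vertices `F₀ := F.filter (fun y => Reach G F b y)` at the start: a walk in `F` from `b`
stays in `F₀`). -/

open Finset
open scoped Classical
open Pool.Agent.Helper20.Dense

namespace Pool.Agent.QPB

variable {V : Type*} [Fintype V] [DecidableEq V] (G : SimpleGraph V)

private lemma tail_walk_aux {x y : V} {Qp : Finset V} (hxQ : x ∉ Qp) (hyx : G.Adj y x) :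
    ∀ (n : ℕ) (F : Finset V) (i : ℕ) (b : V), F.card ≤ n → Tail G i b (F ∪ {x} ∪ Qp) →
      b ∉ F ∪ {x} ∪ Qp → x ∉ F → (∀ q ∈ Qp, ¬ G.Adj b q) →
      (∀ f ∈ F, f ∉ Qp ∧ ∀ q ∈ Qp, ¬ G.Adj f q) → Reach G F b y → Tail G (i + 1) x Qp := by
  intro n
  induction n with
  | zero =>
    intro F i b hn hT hb hxF hbQ hF hy
    have hFe : F = ∅ := Finset.card_eq_zero.mp (Nat.le_zero.mp hn)
    have hxm : x ∈ F ∪ {x} ∪ Qp := by simp
    have hQm : Qp ⊆ F ∪ {x} ∪ Qp := Finset.subset_union_right
    rcases reach_step G hy with h | ⟨u, _, hu, _⟩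
    · subst h
      exact hT.step G hxm hyx hQm (fun d hd => ⟨fun h => hb (h ▸ hQm hd), hbQ d hd⟩)
    · rw [hFe] at hu
      exact absurd hu (Finset.notMem_empty u)
  | succ n ih =>
    intro F i b hn hT hb hxF hbQ hF hy
    have hxm : x ∈ F ∪ {x} ∪ Qp := by simp
    have hQm : Qp ⊆ F ∪ {x} ∪ Qp := Finset.subset_union_right
    by_cases hbx : G.Adj b x
    · exact hT.step G hxm hbx hQm (fun d hd => ⟨fun h => hb (h ▸ hQm hd), hbQ d hd⟩)
    rcases reach_step G hy with h | ⟨u, hbu, hu, hr⟩
    · rw [h] at hyx
      exact absurd hyx hbx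
    · have hum : u ∈ F ∪ {x} ∪ Qp := by simp [hu]
      have hunon : u ∉ non G b F := by
        rw [mem_non]
        exact fun h => h.2.2 hbu
      have hsub : non G b F ∪ {x} ∪ Qp ⊆ F ∪ {x} ∪ Qp :=
        Finset.union_subset_union
          (Finset.union_subset_union (non_subset G b F) (Finset.Subset.refl _))
          (Finset.Subset.refl _)
      have hstep : Tail G (i + 1) u (non G b F ∪ {x} ∪ Qp) := by
        refine hT.step G hum hbu hsub (fun d hd => ?_)
        rw [Finset.mem_union, Finset.mem_union, Finset.mem_singleton, mem_non] at hd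
        rcases hd with (hd | hd) | hd
        · exact ⟨hd.2.1.symm, hd.2.2⟩
        · rw [hd]
          exact ⟨fun h => hb (h ▸ hxm), hbx⟩
        · exact ⟨fun h => hb (h ▸ hQm hd), hbQ d hd⟩
      have hcard : (non G b F).card ≤ n := by
        have h1 : non G b F ⊂ F := by
          refine (non_subset G b F).ssubset_of_ne (fun h => ?_)
          exact hunon (h.symm ▸ hu)
        have h2 := Finset.card_lt_card h1
        omega
      have h3 := ih (non G b F) (i + 1) u hcard hstep
        (by
          rw [Finset.mem_union, Finset.mem_union, Finset.mem_singleton]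
          rintro ((h | h) | h)
          · exact hunon h
          · exact hxF (h ▸ hu)
          · exact (hF u hu).1 h)
        (fun h => hxF (non_subset G b F h)) (hF u hu).2
        (fun f hf => hF f (non_subset G b F hf)) hr
      exact tail_shorten G (by omega) h3

/-- extend a tail along a walk in `F` (all of whose vertices are outside `Qp` and anticomplete to
`Qp`) to a vertex `x` -/
lemma tail_walk {i : ℕ} {b x y : V} {F Qp U : Finset V} (hT : Tail G i b U) (hbU : b ∉ U)
    (hFU : F ⊆ U) (hxU : x ∈ U) (hQU : Qp ⊆ U) (hxF : x ∉ F) (hxQ : x ∉ Qp)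
    (hbQ : ∀ q ∈ Qp, ¬ G.Adj b q) (hF : ∀ f ∈ F, f ∉ Qp ∧ ∀ q ∈ Qp, ¬ G.Adj f q)
    (hy : Reach G F b y) (hyx : G.Adj y x) : Tail G (i + 1) x Qp := by
  have hsub : F ∪ {x} ∪ Qp ⊆ U :=
    Finset.union_subset (Finset.union_subset hFU (Finset.singleton_subset_iff.mpr hxU)) hQU
  exact tail_walk_aux G hxQ hyx F.card F i b le_rfl (tail_mono G hT hsub)
    (fun h => hbU (hsub h)) hxF hbQ hF hy

end Pool.Agent.QPB
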