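import Mathlib
import Pool.Agent.QPB.ReachA

/-! QPB-ReachB (`reach_bd`, parts (1)-(3) of the plan, using `tail_walk` for (4) with `U = Q`, `F = F₀` the reachable part): the part of the boundary of `Q₁` reachable from `b`.

PLAN. `F := Q \ (Q₁ ∪ bd G Q Q₁)` (the vertices of `Q` far from `Q₁`),
`N := (bd G Q Q₁).filter (fun x => ∃ y, Reach G F b y ∧ G.Adj y x)` (note `y = b` is allowed),
`Qp := cmp G (Q \ N) u` for a fixed `u ∈ Q₁`.
(1) `Q₁ ⊆ Qp` (`subset_cmp`, `N` is disjoint from `Q₁`), `Qp` connected, `bd Q Qp ⊆ N` (`bd_cmp`).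
(2) No vertex of `Qp` is reachable from `b` in `F` (except that `b ∉ Qp`) and no vertex of
`Qp` is adjacent to a vertex `y` with `Reach G F b y`:
first, the set `Qp ∩ (bd Q Q₁ ∪ Q₁)` has no element adjacent to such a `y`: an element of
`bd Q Q₁` adjacent to such a `y` is in `N`, an element of `Q₁` is not adjacent to `F` (elements of
`F` are not in `bd Q Q₁`) nor to `b`. Second, if `z ∈ Qp` is adjacent to such a `y` and `z ∈ F`
then `z` itself is reachable in `F`; walk inside `Qp` from `z` to `u ∈ Q₁` (`conn_cmp`): by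
induction along the walk all vertices are in `F` and reachable (the next vertex is adjacent to a
reachable one, it is in `Qp`, so by the first part it is in neither `bd Q Q₁` nor `Q₁`, so in
`F`), contradiction at `u`. If `y ∈ F ∩ Qp` is reachable then its successor on a walk in `Qp`
to `u` is adjacent to `y`: contradiction as well (or the same induction).
(3) In particular `b` has no neighbour in `Qp`.
(4) Tails: for `x ∈ N` there is `m ≥ 1` with `Tail G (i + m) x Qp`, so `Tail G (i+1) x Qp` by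
`tail_shorten`. Prove by the induction principle for shortest walks, e.g. with
`reach_step` (Helper20 Chi): define the statement
`∀ n, ∀ (F' ⊆ F) (i) (b), F'.card = n → Tail G i b (F' ∪ {x} ∪ Qp) → b ∉ F' ∪ {x} ∪ Qp →
 b anticomplete to Qp → (∃ y, Reach G F' b y ∧ G.Adj y x) → Tail G (i+1) x Qp`,
where the induction step is: if `b ~ x`, `Tail.step`-like construction (append `x` after `b`);
otherwise (`b ≁ x`) the walk from `b` to `y` is not trivial, `reach_step` gives `u ∈ F'`,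
`b ~ u`, `Reach G (non G b F') u y`, and `Tail G (i+1) u (non G b F' ∪ {x} ∪ Qp)` by `Tail.step`;
apply the induction hypothesis to `non G b F' \ {u}` or keep `F'` decreasing in another way
(`u ∉ non G b F'` because `b ~ u`, so the cardinality drops), getting `Tail G (i+2) x Qp`, shorten.
The vertices of `F'` reachable from `b` are anticomplete to `Qp` by (2) (restrict `F` to the
reachable vertices `F₀ := F.filter (fun y => Reach G F b y)` at the start: a walk in `F` from `b`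
stays in `F₀`). -/

open Finset
open scoped Classical
open Pool.Agent.Helper20.Dense

namespace Pool.Agent.QPB

variable {V : Type*} [Fintype V] [DecidableEq V] (G : SimpleGraph V)

theorem reach_bd {i : ℕ} {b : V} {Q Q₁ : Finset V} (hQ₁ : Q₁ ⊆ Q) (hc : Conn G Q₁)
    (hne : Q₁.Nonempty) (hbQ : b ∉ Q) (hb : ∀ q ∈ Q₁, ¬ G.Adj b q) (hT : Tail G i b Q) :
    ∃ N Qp : Finset V, N ⊆ bd G Q Q₁ ∧ Q₁ ⊆ Qp ∧ Qp ⊆ Q ∧ Conn G Qp ∧ bd G Q Qp ⊆ N ∧
      (∀ q ∈ Qp, ¬ G.Adj b q) ∧ ∀ x ∈ N, Tail G (i + 1) x Qp := by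
  obtain ⟨u, hu⟩ := hne
  set F : Finset V := Q \ (Q₁ ∪ bd G Q Q₁) with hFdef
  set N : Finset V := (bd G Q Q₁).filter (fun x => ∃ y, Reach G F b y ∧ G.Adj y x) with hNdef
  set Qp : Finset V := cmp G (Q \ N) u with hQpdef
  have hNbd : N ⊆ bd G Q Q₁ := Finset.filter_subset _ _
  have hNQ₁ : ∀ x ∈ Q₁, x ∉ N := fun x hx hxN =>
    ((mem_bd G).mp (hNbd hxN)).1.2 hx
  have hQ₁N : Q₁ ⊆ Q \ N := fun x hx => Finset.mem_sdiff.mpr ⟨hQ₁ hx, hNQ₁ x hx⟩
  have huN : u ∈ Q \ N := hQ₁N hu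
  have hQ₁Qp : Q₁ ⊆ Qp := subset_cmp G hc hQ₁N hu (Or.inl rfl)
  have hQpQN : Qp ⊆ Q \ N := cmp_subset G _ _
  have hQpQ : Qp ⊆ Q := fun x hx => (Finset.mem_sdiff.mp (hQpQN hx)).1
  have hQpconn : Conn G Qp := conn_cmp G huN
  have hbdQp : bd G Q Qp ⊆ N := bd_cmp G Q N u
  have hF : ∀ f ∈ F, f ∈ Q ∧ f ∉ Q₁ ∧ f ∉ bd G Q Q₁ := by
    intro f hf
    rw [hFdef, Finset.mem_sdiff, Finset.mem_union, not_or] at hf
    exact ⟨hf.1, hf.2.1, hf.2.2⟩
  have hFmem : ∀ f ∈ Q, f ∉ Q₁ → f ∉ bd G Q Q₁ → f ∈ F := by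
    intro f h1 h2 h3
    rw [hFdef, Finset.mem_sdiff, Finset.mem_union, not_or]
    exact ⟨h1, h2, h3⟩
  have hreachF : ∀ y, Reach G F b y → y = b ∨ y ∈ F := by
    intro y hy
    rcases hy with _ | ⟨_, h⟩
    · exact Or.inl rfl
    · exact Or.inr h.2
  -- vertices of `Qp` next to the reachable part are in `F`
  have key : ∀ z ∈ Qp, ∀ y, Reach G F b y → G.Adj y z → z ∈ F := by
    intro z hz y hy hyz
    have hzQN := Finset.mem_sdiff.mp (hQpQN hz)
    refine hFmem z hzQN.1 ?_ ?_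
    · intro hz1
      rcases hreachF y hy with rfl | hyF
      · exact hb z hz1 hyz
      · obtain ⟨h1, h2, h3⟩ := hF y hyF
        exact h3 ((mem_bd G).mpr ⟨⟨h1, h2⟩, z, hz1, hyz⟩)
    · intro hz1
      exact hzQN.2 (Finset.mem_filter.mpr ⟨hz1, y, hy, hyz⟩)
  have huF : u ∉ F := fun h => (hF u h).2.1 hu
  have anti : ∀ z ∈ Qp, ∀ y, Reach G F b y → ¬ G.Adj y z := by
    intro z hz y hy hyz
    have hzF := key z hz y hy hyz
    have hzr : Reach G F b z := hy.tail ⟨hyz, hzF⟩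
    have hwalk : Reach G Qp z u := hQpconn z hz u (hQ₁Qp hu)
    have hall : ∀ w, Reach G Qp z w → w ∈ F ∧ Reach G F b w := by
      intro w hw
      induction hw with
      | refl => exact ⟨hzF, hzr⟩
      | tail _ h ih =>
        have h1 := key _ h.2 _ ih.2 h.1
        exact ⟨h1, ih.2.tail ⟨h.1, h1⟩⟩
    exact huF (hall u hwalk).1
  have hbQp : ∀ q ∈ Qp, ¬ G.Adj b q := fun q hq =>
    anti q hq b Relation.ReflTransGen.refl
  refine ⟨N, Qp, hNbd, hQ₁Qp, hQpQ, hQpconn, hbdQp, hbQp, ?_⟩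
  intro x hx
  obtain ⟨hxbd, y, hy, hyx⟩ := Finset.mem_filter.mp hx
  set F₀ : Finset V := F.filter (fun z => Reach G F b z) with hF₀def
  have hyF₀ : Reach G F₀ b y := by
    have hgen : ∀ w, Reach G F b w → Reach G F₀ b w := by
      intro w hw
      induction hw with
      | refl => exact Relation.ReflTransGen.refl
      | tail h0 h ih =>
        exact ih.tail ⟨h.1, Finset.mem_filter.mpr ⟨h.2, h0.tail h⟩⟩
    exact hgen y hy
  refine tail_walk G hT hbQ (F := F₀) (Qp := Qp) ?_ ?_ hQpQ ?_ ?_ hbQp ?_ hyF₀ hyx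
  · intro f hf
    exact (hF f (Finset.mem_filter.mp hf).1).1
  · exact bd_subset G Q Q₁ hxbd
  · intro hf
    exact (hF x (Finset.mem_filter.mp hf).1).2.2 hxbd
  · intro hxQ
    exact (Finset.mem_sdiff.mp (hQpQN hxQ)).2 hx
  · intro f hf
    obtain ⟨hfF, hfr⟩ := Finset.mem_filter.mp hf
    refine ⟨?_, fun q hq => anti q hq f hfr⟩
    intro hfQ
    have hw : Reach G Qp f u := hQpconn f hfQ u (hQ₁Qp hu)
    rcases Relation.ReflTransGen.cases_head hw with h1 | ⟨c, h1, _⟩
    · rw [h1] at hfF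
      exact huF hfF
    · exact anti c h1.2 f hfr h1.1

end Pool.Agent.QPB
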