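import Mathlib
import Pool.Agent.QPB.FrA
import Pool.Agent.QPB.FrB
import Pool.Agent.QPB.ReachB

/-! QPB-ClaimA: Claim*(i) for `i = t - 3, ..., 0`.

PLAN of `claim_step`. Suppose `b` is not `NC`. `Frame.chi_non` and `scale` (with `N = (Q ∩ T)
\ N(b)`) give `D₁` connected, `Xt ((j+1) s) D₁`, `om D₁ ≥ (1-al) w`, `D₁ ⊆ Q ∩ T`, `b`
anticomplete to `D₁`. `HReg` and `Frame.clean` give a clean frame `(D₁, Q₁, T₁, 0 + al)`
(`0 + al ≤ 3/4`); `Q₁ ⊆ D₁` connected nonempty. `reach_bd` gives `N`, `Qp`. For `x ∈ N`: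
`Tail (i+1) x Q₁` (`tail_mono`), `x ∈ bd Q Q₁`, so by the induction hypothesis `NC W D₁ T₁ x`;
hence `om N ≤ 2 al w` (`nc_om'`, `N ⊆ Q ⊆ D`). `Frame.sub` with `l = 2 al` for `Qp` (meets `T`
as `Q₁ ⊆ D₁ ⊆ T`), `Frame.clean` gives `Q₂ ⊆ Qp`, frame constant `(k + 2 al) + al`, `Clean`, and
`bd Qp Q₂` in `NC W D T`. For `x ∈ bd Q Q₂`: if `x ∈ Qp` then `x ∈ bd Qp Q₂`; otherwise
`x ∈ bd Q Qp ⊆ N`, `Tail (i+1) x Q₂`, and the induction hypothesis for `(D, Q₂, T)` (`xt_mono`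
from `(j+2) s` to `(j+1) s`) gives `NC W D T x`. `Q₂ ≠ Q` because `b` has a neighbour in `Q` but
none in `Qp`. This contradicts `Clean Q`. -/

open Finset
open scoped Classical
open Pool.Agent.Helper20.Dense

namespace Pool.Agent.QPB

variable {V : Type*} [Fintype V] [DecidableEq V] (G : SimpleGraph V)

/-- the statement of the claim at depth `i`, with exponent `g` and frame constant at most `K` -/
def ClaimAt (W g i : ℕ) (K : ℝ) : Prop :=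
  ∀ (D Q T : Finset V) (k : ℝ) (b : V), Xt G g D → Frame G W D Q T k → k ≤ K →
    Clean G W D Q T → b ∉ Q → (∃ q ∈ Q, G.Adj b q) → Tail G i b Q → NC G W D T b

lemma claim_step {t W s : ℕ} {al : ℝ} (hP : Par t W s al) (hom : om G Finset.univ ≤ W)
    (hreg : HReg G W s) {i g : ℕ} {K : ℝ} (hg : s ≤ g) (hK : al ≤ K) (hK3 : K ≤ 3 / 4)
    (ih : ClaimAt G W g (i + 1) K) : ClaimAt G W (g + s) i (K - 3 * al) := by
  have hal := hP.al_pos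
  have hs1 := hP.hs
  intro D Q T k b hD hF hk hCl hbQ hba hT
  by_contra hnc
  have hgs : s ≤ g + s := by omega
  have hk34 : k ≤ 3 / 4 := by linarith
  have h1 := Frame.chi_non G hP hgs hD hF hk34 hnc
  set N0 : Finset V := (Q ∩ T).filter (fun x => ¬ G.Adj b x) with hN0
  have hN0QT : ∀ x ∈ N0, x ∈ Q ∧ x ∈ T ∧ ¬ G.Adj b x := by
    intro x hx
    obtain ⟨h2, h3⟩ := Finset.mem_filter.mp hx
    exact ⟨(Finset.mem_inter.mp h2).1, (Finset.mem_inter.mp h2).2, h3⟩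
  have hN0D : N0 ⊆ D := fun x hx => hF.QD (hN0QT x hx).1
  obtain ⟨D₁, hD₁N, hD₁c, hD₁X, hsc⟩ := scale G hP (g := g) (by omega) hD hN0D h1
  obtain ⟨Q0, T₁, hF0⟩ := hreg g D₁ hg hD₁X hD₁c
  obtain ⟨Q₁, _, hF1, hCl1, _⟩ := Frame.clean G hP hom hg hD₁X hF0 (by linarith)
  have hQ₁D₁ : Q₁ ⊆ D₁ := hF1.QD
  have hQ₁Q : Q₁ ⊆ Q := fun x hx => (hN0QT x (hD₁N (hQ₁D₁ hx))).1
  have hne : Q₁.Nonempty := by
    obtain ⟨x, hx⟩ := hF1.meet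
    exact ⟨x, (Finset.mem_inter.mp hx).1⟩
  have hb : ∀ q ∈ Q₁, ¬ G.Adj b q := fun q hq => (hN0QT q (hD₁N (hQ₁D₁ hq))).2.2
  obtain ⟨N, Qp, hNbd, hQ₁Qp, hQpQ, hQpc, hbdN, hbQp, hTN⟩ :=
    reach_bd G hQ₁Q hF1.conn hne hbQ hb hT
  have hNnc : ∀ x ∈ N, NC G W D₁ T₁ x := by
    intro x hx
    obtain ⟨⟨_, h3⟩, h4⟩ := (mem_bd G).mp (hNbd hx)
    exact ih D₁ Q₁ T₁ (0 + al) x hD₁X hF1 (by linarith) hCl1 h3 h4
      (tail_mono G (hTN x hx) hQ₁Qp)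
  have hND : N ⊆ D := fun x hx => hF.QD (bd_subset G Q Q₁ (hNbd hx))
  have hNom : (om G N : ℝ) ≤ 2 * al * (om G D : ℝ) :=
    nc_om' G hP hom hg hD₁X (hD₁N.trans hN0D) hsc hF1 hND hNnc
  have hQpT : (Qp ∩ T).Nonempty := by
    obtain ⟨x, hx⟩ := hne
    exact ⟨x, Finset.mem_inter.mpr ⟨hQ₁Qp hx, (hN0QT x (hD₁N (hQ₁D₁ hx))).2.1⟩⟩
  have hbdom : (om G (bd G Q Qp) : ℝ) ≤ 2 * al * (om G D : ℝ) := by
    have h2 : (om G (bd G Q Qp) : ℝ) ≤ (om G N : ℝ) := by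
      exact_mod_cast om_mono G hbdN
    exact h2.trans hNom
  have hFp := Frame.sub G hF hQpQ hQpc hQpT hbdom (by linarith)
  obtain ⟨Q₂, hQ₂Qp, hF2, hCl2, hbd2⟩ := Frame.clean G hP hom hgs hD hFp (by linarith)
  have hQ₂Q : Q₂ ⊆ Q := hQ₂Qp.trans hQpQ
  refine hCl Q₂ hQ₂Q ?_ hF2.conn hF2.meet ?_
  · intro heq
    obtain ⟨q, hq, hbq⟩ := hba
    rw [← heq] at hq
    exact hbQp q (hQ₂Qp hq) hbq
  · intro x hx
    obtain ⟨⟨hxQ, hxQ₂⟩, y, hy, hxy⟩ := (mem_bd G).mp hx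
    by_cases hxp : x ∈ Qp
    · exact hbd2 x ((mem_bd G).mpr ⟨⟨hxp, hxQ₂⟩, y, hy, hxy⟩)
    · have hxN : x ∈ N := hbdN ((mem_bd G).mpr ⟨⟨hxQ, hxp⟩, y, hQ₂Qp hy, hxy⟩)
      exact ih D Q₂ T (k + 2 * al + al) x (xt_mono G (by omega) hD) hF2 (by linarith) hCl2
        hxQ₂ ⟨y, hy, hxy⟩ (tail_mono G (hTN x hxN) hQ₂Qp)

end Pool.Agent.QPB
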