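import Mathlib
import Pool.Agent.QPB.ClaimA

open Finset
open scoped Classical
open Pool.Agent.Helper20.Dense

namespace Pool.Agent.QPB

variable {V : Type*} [Fintype V] [DecidableEq V] (G : SimpleGraph V)

theorem claim_all {t W s : ℕ} {al : ℝ} (hP : Par t W s al)
    (hfree : IsEmpty (SimpleGraph.pathGraph t ↪g G)) (hom : om G Finset.univ ≤ W)
    (hreg : HReg G W s) : ∀ j i : ℕ, i + j = t - 3 →
    ClaimAt G W ((j + 1) * s) i (3 / 4 - 3 * (j : ℝ) * al) := by
  have hal : al ≤ 1 / 48 := by
    have h1 := hP.al_le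
    have h2 := hP.al_pos
    have h3 : (4 : ℝ) ≤ (t : ℝ) := by exact_mod_cast hP.ht
    nlinarith
  intro j
  induction j with
  | zero =>
    intro i hi D Q T k b hD hF hk _ hbQ hba hT
    have hi' : i = t - 3 := by omega
    rw [hi'] at hT
    refine claim_base G hP hfree (g := (0 + 1) * s) (by omega) hD hF ?_ hbQ hba hT
    simpa using hk
  | succ j ih =>
    intro i hi
    have hj : ((j : ℝ) + 3 + 1) ≤ (t : ℝ) := by
      have : j + 3 + 1 ≤ t := by have := hP.ht; omega
      exact_mod_cast this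
    have h2 := hP.al_pos
    have h1 := hP.al_le
    have h3 := ih (i + 1) (by omega)
    have h4 := claim_step G hP hom hreg (by nlinarith [hP.hs] : s ≤ (j + 1) * s)
      (K := 3 / 4 - 3 * (j : ℝ) * al) (by nlinarith) (by
        have : 0 ≤ 3 * (j : ℝ) * al := by positivity
        linarith) h3
    have h5 : (j + 1) * s + s = (j + 1 + 1) * s := by ring
    have h6 : 3 / 4 - 3 * (j : ℝ) * al - 3 * al = 3 / 4 - 3 * ((j + 1 : ℕ) : ℝ) * al := by
      push_cast
      ring
    rw [h5, h6] at h4
    exact h4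

end Pool.Agent.QPB
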