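import Mathlib
import Pool.Agent.QPB.ClaimB

open Finset
open scoped Classical
open Pool.Agent.Helper20.Dense

namespace Pool.Agent.QPB

variable {V : Type*} [Fintype V] [DecidableEq V] (G : SimpleGraph V)

/-- **Final contradiction.** PLAN: with `w = om D ≥ 2`: `HReg` and `Frame.clean` give a clean
frame `(D, Q, T, al)`. The vertices of `Q ∩ T` which are `NC` have `om ≤ al w` (`nc_om`), so
`chi ≤ chi D/(32 t W^2)` (`chi_small`), and `chi (Q ∩ T) ≥ chi T - chi (T \ Q) ≥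
chi D (1/(4W) - 1/(32 t W^2))`, so some `b ∈ Q ∩ T` is not `NC`. Moreover `(Q ∩ T).erase b` is
nonempty: otherwise `chi (Q ∩ T) ≤ 1`, but `chi D ≥ w^g ≥ 2^s` (`pow_le_chi`) and
`2^s ≥ 32 t W^2` (from `Par.eps`, since `1 - al ≥ 1/2`), so `chi (Q ∩ T) ≥ 2^s/(8W) > 1`.
Let `u ∈ (Q ∩ T).erase b`, `Qm = cmp G (Q \ {b}) u`: connected, meets `T`, `bd Q Qm ⊆ {b}`
(`bd_cmp`), so `om (bd Q Qm) ≤ 1 ≤ (1/2) w`. `Frame.sub` with `l = 1/2`, `Frame.clean`: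
`Q₃ ⊆ Qm`, frame constant `(al + 1/2) + al ≤ 3/4 - 3 (t-3) al` (because `12 t al ≤ 1`:
`(2 + 3(t-3)) al ≤ 3 t al ≤ 1/4`), `Clean`, `bd Qm Q₃` in `NC`. If `b` had a neighbour in `Q₃`,
`claim_all` with `i = 0` (`j = t - 3`, exponent `(t-3+1) s = (t-2) s`) and `Tail.zero` would give
`NC b`. So `b` is anticomplete to `Q₃`, hence `bd Q Q₃ ⊆ bd Qm Q₃` (`x ∈ bd Q Q₃` not in `Qm`
would be in `bd Q Qm ⊆ {b}`), all `NC`, and `Q₃ ≠ Q` (`b ∈ Q`): contradiction to `Clean Q`. -/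
theorem om_le_one {t W s : ℕ} {al : ℝ} (hP : Par t W s al)
    (hfree : IsEmpty (SimpleGraph.pathGraph t ↪g G)) (hom : om G Finset.univ ≤ W)
    (hreg : HReg G W s) {D : Finset V} (hD : Xt G ((t - 2) * s) D) (hDc : Conn G D) :
    om G D ≤ 1 := by
  by_contra hcon
  push Not at hcon
  have hal := hP.al_pos
  have hal12 := hP.al_le
  have hs1 := hP.hs
  have ht4 := hP.ht
  have hW2 := hP.hW
  have htR : (4 : ℝ) ≤ (t : ℝ) := by exact_mod_cast ht4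
  have hWR : (2 : ℝ) ≤ (W : ℝ) := by exact_mod_cast hW2
  have hal48 : al ≤ 1 / 48 := by nlinarith
  have hg : s ≤ (t - 2) * s := by
    have : 1 * s ≤ (t - 2) * s := Nat.mul_le_mul_right s (by omega)
    omega
  have hwR : (2 : ℝ) ≤ (om G D : ℝ) := by exact_mod_cast hcon
  have hpow := pow_le_chi G hD
  -- `chi D` is large
  have h2s : 32 * (t : ℝ) * (W : ℝ) ^ 2 ≤ (2 : ℝ) ^ s := by
    have h1 := hP.eps
    have h2 : (1 / 2 : ℝ) ^ s ≤ (1 - al) ^ s := pow_le_pow_left₀ (by norm_num) (by linarith) s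
    have h3 : 0 ≤ 32 * (t : ℝ) * (W : ℝ) ^ 2 := by positivity
    have h4 : (1 / 2 : ℝ) ^ s * (32 * (t : ℝ) * (W : ℝ) ^ 2) ≤ 1 :=
      (mul_le_mul_of_nonneg_right h2 h3).trans h1
    have h5 : (2 : ℝ) ^ s * (1 / 2 : ℝ) ^ s = 1 := by
      rw [← mul_pow]
      norm_num
    have h6 : (0 : ℝ) < 2 ^ s := by positivity
    have h7 : (2 : ℝ) ^ s * ((1 / 2 : ℝ) ^ s * (32 * (t : ℝ) * (W : ℝ) ^ 2)) ≤ 2 ^ s * 1 :=
      mul_le_mul_of_nonneg_left h4 h6.le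
    rw [← mul_assoc, h5, one_mul, mul_one] at h7
    exact h7
  have hchi : 32 * (t : ℝ) * (W : ℝ) ^ 2 ≤ (chi G D : ℝ) := by
    refine h2s.trans (le_trans ?_ hpow)
    calc (2 : ℝ) ^ s ≤ 2 ^ ((t - 2) * s) := pow_le_pow_right₀ (by norm_num) hg
      _ ≤ (om G D : ℝ) ^ ((t - 2) * s) := pow_le_pow_left₀ (by norm_num) hwR _
  have hM : (0 : ℝ) < 32 * (t : ℝ) * (W : ℝ) ^ 2 := by positivity
  have hchipos : (0 : ℝ) < (chi G D : ℝ) := lt_of_lt_of_le hM hchi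
  obtain ⟨Q0, T, hF0⟩ := hreg _ D hg hD hDc
  obtain ⟨Q, _, hF, hCl, _⟩ := Frame.clean G hP hom hg hD hF0 (by linarith)
  have hout := Frame.chi_out G hP hg hD hF (by linarith)
  have hbig := hF.big
  have hTsplit : (chi G T : ℝ) ≤ (chi G (Q ∩ T) : ℝ) + (chi G (T \ Q) : ℝ) := by
    have h1 : T ⊆ (Q ∩ T) ∪ (T \ Q) := by
      intro x hx
      rw [Finset.mem_union, Finset.mem_inter, Finset.mem_sdiff]
      by_cases hxQ : x ∈ Q
      · exact Or.inl ⟨hxQ, hx⟩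
      · exact Or.inr ⟨hx, hxQ⟩
    have h2 := (chi_mono G h1).trans (chi_union G _ _)
    exact_mod_cast h2
  -- lower bound for `chi (Q ∩ T)`
  have hQT8 : (chi G D : ℝ) ≤ 8 * (W : ℝ) * (chi G (Q ∩ T) : ℝ) := by
    have h1 : (chi G D : ℝ) ≤ 4 * (W : ℝ) * (chi G (Q ∩ T) : ℝ) +
        4 * (W : ℝ) * (chi G (T \ Q) : ℝ) := by
      have h2 : 4 * (W : ℝ) * (chi G T : ℝ) ≤
          4 * (W : ℝ) * ((chi G (Q ∩ T) : ℝ) + (chi G (T \ Q) : ℝ)) :=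
        mul_le_mul_of_nonneg_left hTsplit (by positivity)
      linarith
    have h3 : 8 * (W : ℝ) * (chi G (T \ Q) : ℝ) ≤ (chi G D : ℝ) := by
      have h4 : (0 : ℝ) ≤ (chi G (T \ Q) : ℝ) := Nat.cast_nonneg _
      have h5 : 8 * (W : ℝ) ≤ 32 * (t : ℝ) * (W : ℝ) ^ 2 := by nlinarith
      calc 8 * (W : ℝ) * (chi G (T \ Q) : ℝ)
          ≤ (32 * (t : ℝ) * (W : ℝ) ^ 2) * (chi G (T \ Q) : ℝ) :=
            mul_le_mul_of_nonneg_right h5 h4
        _ = (chi G (T \ Q) : ℝ) * (32 * (t : ℝ) * (W : ℝ) ^ 2) := by ring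
        _ ≤ _ := hout
    linarith
  have hW8 : 8 * (W : ℝ) < 32 * (t : ℝ) * (W : ℝ) ^ 2 := by nlinarith
  -- a vertex which is not nearly complete
  obtain ⟨b, hbQT, hbnc⟩ : ∃ b ∈ Q ∩ T, ¬ NC G W D T b := by
    by_contra hall
    push Not at hall
    have h1 : Q ∩ T ⊆ D := fun x hx => hF.QD (Finset.mem_inter.mp hx).1
    have h2 := nc_om G hP hom hg hD hF h1 hall
    have h3 := chi_small G hP hg hD h1
      (h2.trans (mul_le_mul_of_nonneg_right (by linarith) (by linarith)))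
    have h4 : (chi G (Q ∩ T) : ℝ) * (8 * (W : ℝ)) < (chi G D : ℝ) := by
      rcases (Nat.cast_nonneg (chi G (Q ∩ T)) : (0 : ℝ) ≤ _).eq_or_lt with h5 | h5
      · rw [← h5, zero_mul]
        exact hchipos
      · exact lt_of_lt_of_le (mul_lt_mul_of_pos_left hW8 h5) h3
    linarith
  have hbQ : b ∈ Q := (Finset.mem_inter.mp hbQT).1
  obtain ⟨u, hu⟩ : ((Q ∩ T).erase b).Nonempty := by
    rw [Finset.nonempty_iff_ne_empty]
    intro hemp
    have h1 : Q ∩ T ⊆ {b} := by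
      intro x hx
      rw [Finset.mem_singleton]
      by_contra hne
      have : x ∈ (Q ∩ T).erase b := Finset.mem_erase.mpr ⟨hne, hx⟩
      rw [hemp] at this
      exact absurd this (Finset.notMem_empty x)
    have h2 : chi G (Q ∩ T) ≤ 1 := (chi_mono G h1).trans (chi_singleton_le G b)
    have h3 : (chi G (Q ∩ T) : ℝ) ≤ 1 := by exact_mod_cast h2
    have h4 : 8 * (W : ℝ) * (chi G (Q ∩ T) : ℝ) ≤ 8 * (W : ℝ) * 1 :=
      mul_le_mul_of_nonneg_left h3 (by positivity)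
    linarith
  obtain ⟨hub, huQT⟩ := Finset.mem_erase.mp hu
  have huQ : u ∈ Q := (Finset.mem_inter.mp huQT).1
  have huT : u ∈ T := (Finset.mem_inter.mp huQT).2
  have huQb : u ∈ Q \ {b} := by
    rw [Finset.mem_sdiff, Finset.mem_singleton]
    exact ⟨huQ, hub⟩
  set Qm : Finset V := cmp G (Q \ {b}) u with hQm
  have hQmQb : Qm ⊆ Q \ {b} := cmp_subset G _ _
  have hQmQ : Qm ⊆ Q := fun x hx => (Finset.mem_sdiff.mp (hQmQb hx)).1
  have hbQm : b ∉ Qm := fun h => (Finset.mem_sdiff.mp (hQmQb h)).2 (Finset.mem_singleton_self b)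
  have hQmc : Conn G Qm := conn_cmp G huQb
  have huQm : u ∈ Qm := mem_cmp_self G huQb
  have hbdQm : bd G Q Qm ⊆ {b} := bd_cmp G Q {b} u
  have hbdom : (om G (bd G Q Qm) : ℝ) ≤ 1 / 2 * (om G D : ℝ) := by
    have h1 : om G (bd G Q Qm) ≤ 1 := by
      have := om_mono G hbdQm
      rw [om_singleton] at this
      exact this
    have h2 : (om G (bd G Q Qm) : ℝ) ≤ 1 := by exact_mod_cast h1
    linarith
  have hFm := Frame.sub G hF hQmQ hQmc ⟨u, Finset.mem_inter.mpr ⟨huQm, huT⟩⟩ hbdom (by linarith)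
  obtain ⟨Q₃, hQ₃Qm, hF3, hCl3, hbd3⟩ := Frame.clean G hP hom hg hD hFm (by linarith)
  have hbQ₃ : b ∉ Q₃ := fun h => hbQm (hQ₃Qm h)
  have hk3 : 0 + al + 1 / 2 + al ≤ 3 / 4 - 3 * ((t - 3 : ℕ) : ℝ) * al := by
    have h1 : ((t - 3 : ℕ) : ℝ) = (t : ℝ) - 3 := by
      rw [Nat.cast_sub (by omega)]
      norm_num
    rw [h1]
    nlinarith
  have hcl := claim_all G hP hfree hom hreg (t - 3) 0 (by omega)
  have hexp : t - 3 + 1 = t - 2 := by omega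
  rw [hexp] at hcl
  have hanti : ∀ q ∈ Q₃, ¬ G.Adj b q := by
    intro q hq hbq
    exact hbnc (hcl D Q₃ T _ b hD hF3 hk3 hCl3 hbQ₃ ⟨q, hq, hbq⟩ (Tail.zero G b Q₃))
  refine hCl Q₃ (hQ₃Qm.trans hQmQ) ?_ hF3.conn hF3.meet ?_
  · intro heq
    rw [heq] at hbQ₃
    exact hbQ₃ hbQ
  · intro x hx
    obtain ⟨⟨hxQ, hxQ₃⟩, y, hy, hxy⟩ := (mem_bd G).mp hx
    by_cases hxm : x ∈ Qm
    · exact hbd3 x ((mem_bd G).mpr ⟨⟨hxm, hxQ₃⟩, y, hy, hxy⟩)
    · have hxb : x ∈ ({b} : Finset V) := hbdQm ((mem_bd G).mpr ⟨⟨hxQ, hxm⟩, y, hQ₃Qm hy, hxy⟩)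
      rw [Finset.mem_singleton] at hxb
      rw [hxb] at hxy
      exact absurd hxy (hanti y hy)

end Pool.Agent.QPB
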