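import Mathlib
import Pool.Agent.QPB.ClaimC

open Finset
open scoped Classical
open Pool.Agent.Helper20.Dense

namespace Pool.Agent.QPB

variable {V : Type*} [Fintype V] [DecidableEq V] (G : SimpleGraph V)

/-- the conclusion for graphs all of whose extremal sets have frames -/
theorem chi_bound {t W s : ℕ} {al : ℝ} (hP : Par t W s al)
    (hfree : IsEmpty (SimpleGraph.pathGraph t ↪g G)) (hom : om G Finset.univ ≤ W)
    (hreg : HReg G W s) : chi G Finset.univ ≤ W ^ ((t - 2) * s) := by
  rcases (Finset.univ : Finset V).eq_empty_or_nonempty with he | hne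
  · rw [he]
    have : chi G ∅ = 0 := chi_empty G
    rw [this]
    exact Nat.zero_le _
  · have hg : 1 ≤ (t - 2) * s := by
      have h1 := hP.ht
      have h2 := hP.hs
      exact Nat.one_le_iff_ne_zero.mpr (Nat.mul_ne_zero (by omega) (by omega))
    obtain ⟨D, hDc, hD, hcmp⟩ := start G hg hne
    have h1 := om_le_one G hP hfree hom hreg hD hDc
    have h2 : 1 ≤ om G D := om_pos G hD.1
    have h3 : om G D = 1 := by omega
    have h4 : chi G D ≤ 1 := chi_le_one_of_om G h1
    rw [h3] at hcmp
    have h5 : (chi G Finset.univ : ℝ) ≤ (W : ℝ) ^ ((t - 2) * s) := by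
      calc (chi G Finset.univ : ℝ) = (chi G Finset.univ : ℝ) * ((1 : ℕ) : ℝ) ^ ((t - 2) * s) := by
            simp
        _ ≤ (chi G D : ℝ) * (om G Finset.univ : ℝ) ^ ((t - 2) * s) := hcmp
        _ ≤ 1 * (W : ℝ) ^ ((t - 2) * s) := by
            apply mul_le_mul _ _ (by positivity) (by norm_num)
            · exact_mod_cast h4
            · exact pow_le_pow_left₀ (by positivity) (by exact_mod_cast hom) _
        _ = _ := one_mul _
    exact_mod_cast h5

end Pool.Agent.QPB
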