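import Mathlib
import Pool.Agent.QPB.Comp

/-! QPB-PBd: the path-building lemma.

PLAN. Suppose `β + t ν < chi X`. State at time `i`: `Tail G i v Z`, `v ∈ X`, `Z ⊆ X`, `Y ⊆ Z`,
all `y ∈ Y` reachable from `v` in `Z` (`Reach G Z v y`), `chi Y ≥ chi X - i ν` (reals).
Start: `X` nonempty, `exists_conn` gives `Y0 ⊆ X` connected, `chi Y0 = chi X`, `v ∈ Y0`, `Z = X`,
`Tail.zero`. Step (for `i < t`): `chi (Y \ S v) ≥ chi Y - ν > β ≥ 0`, so by `exists_conn`
there is `Y' ⊆ Y \ S v` connected nonempty with `chi Y' = chi (Y \ S v)`; `v ∉ Y'` and `v` has no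
neighbour in `Y'`: otherwise `Y' ⊆ cmp G (R \ S v) v` (`subset_cmp`, `Y' ⊆ R \ S v`), so
`chi Y' ≤ chi (X ∩ cmp ..) ≤ β`. So `Y' ⊆ non G v Y`, and with `reach_step` (Helper20 Chi) and
`Tail.step` exactly as in the proof of `walk_step` there one gets `u ∈ Z`, `Z' = non G v Z`,
`Tail G (i+1) u Z'`, all of `Y'` reachable from `u` in `Z'` (use `Conn G Y'`). Note `u ∈ Z ⊆ X`.
At time `t - 1` (or any `i ≥ t - 1`, shorten with `tail_shorten`) `Tail.embedding` contradicts
`hfree`. -/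

open Finset
open scoped Classical
open Pool.Agent.Helper20.Dense

namespace Pool.Agent.QPB

variable {V : Type*} [Fintype V] [DecidableEq V] (G : SimpleGraph V)

theorem pb {t : ℕ} (ht : 1 ≤ t) (hfree : IsEmpty (SimpleGraph.pathGraph t ↪g G))
    {X R : Finset V} (hXR : X ⊆ R) (S : V → Finset V) (hu : ∀ u ∈ X, u ∉ S u) {ν β : ℝ}
    (hν : 0 ≤ ν) (hβ0 : 0 ≤ β) (hS : ∀ u ∈ X, (chi G (S u) : ℝ) ≤ ν)
    (hβ : ∀ u ∈ X, (chi G (X ∩ cmp G (R \ S u) u) : ℝ) ≤ β) :
    (chi G X : ℝ) ≤ β + t * ν := by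
  by_contra hcon
  push Not at hcon
  have key : ∀ i : ℕ, i + 1 ≤ t → ∃ (v : V) (Z Y : Finset V), Tail G i v Z ∧ v ∈ X ∧ Z ⊆ X ∧ Y ⊆ Z ∧
      (∀ y ∈ Y, Reach G Z v y) ∧ (chi G X : ℝ) - i * ν ≤ (chi G Y : ℝ) := by
    intro i
    induction i with
    | zero =>
      intro _
      have hpos : 0 < chi G X := by
        have h1 : (0 : ℝ) < (chi G X : ℝ) := by
          have h2 : (0 : ℝ) ≤ (t : ℝ) * ν := by positivity
          linarith
        exact_mod_cast h1
      obtain ⟨Y, hYX, hYne, hYc, hYchi⟩ := exists_conn G (nonempty_of_chi_pos G hpos)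
      obtain ⟨v, hv⟩ := hYne
      refine ⟨v, X, Y, Tail.zero G v X, hYX hv, Finset.Subset.refl _, hYX, ?_, ?_⟩
      · intro y hy
        exact (hYc v hv y hy).mono G hYX
      · rw [hYchi]
        push_cast
        linarith
    | succ i ih =>
      intro hi
      obtain ⟨v, Z, Y, htail, hvX, hZX, hYZ, hlink, hchi⟩ := ih (by omega)
      have h1 : chi G Y ≤ chi G (Y \ S v) + chi G (S v) := by
        refine le_trans (chi_mono G ?_) (chi_union G (Y \ S v) (S v))
        intro y hy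
        rw [Finset.mem_union, Finset.mem_sdiff]
        by_cases h : y ∈ S v
        · exact Or.inr h
        · exact Or.inl ⟨hy, h⟩
      have h2 : (chi G X : ℝ) - ((i + 1 : ℕ) : ℝ) * ν ≤ (chi G (Y \ S v) : ℝ) := by
        have h3 : (chi G Y : ℝ) ≤ (chi G (Y \ S v) : ℝ) + (chi G (S v) : ℝ) := by
          exact_mod_cast h1
        have h4 := hS v hvX
        push_cast
        linarith
      have h3 : β < (chi G (Y \ S v) : ℝ) := by
        have h4 : ((i + 1 : ℕ) : ℝ) * ν ≤ (t : ℝ) * ν :=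
          mul_le_mul_of_nonneg_right (by exact_mod_cast (by omega : i + 1 ≤ t)) hν
        linarith
      have h4 : 0 < chi G (Y \ S v) := by
        have h5 : (0 : ℝ) < (chi G (Y \ S v) : ℝ) := by linarith
        exact_mod_cast h5
      obtain ⟨Y', hY', hYne, hYc, hYchi⟩ := exists_conn G (nonempty_of_chi_pos G h4)
      have hY'Y : Y' ⊆ Y := hY'.trans Finset.sdiff_subset
      have hY'R : Y' ⊆ R \ S v := by
        intro y hy
        have h5 := Finset.mem_sdiff.mp (hY' hy)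
        exact Finset.mem_sdiff.mpr ⟨hXR (hZX (hYZ h5.1)), h5.2⟩
      have h5 : ∀ y ∈ Y', ¬ (v = y ∨ G.Adj v y) := by
        intro y hy hvy
        have h6 := subset_cmp G hYc hY'R hy hvy
        have h7 : Y' ⊆ X ∩ cmp G (R \ S v) v := by
          intro z hz
          exact Finset.mem_inter.mpr ⟨hZX (hYZ (hY'Y hz)), h6 hz⟩
        have h8 : (chi G Y' : ℝ) ≤ (chi G (X ∩ cmp G (R \ S v) v) : ℝ) := by
          exact_mod_cast chi_mono G h7
        have h9 := hβ v hvX
        rw [hYchi] at h8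
        linarith
      have hsub : Y' ⊆ non G v Z := by
        intro y hy
        have h6 := h5 y hy
        push Not at h6
        exact (mem_non G).mpr ⟨hYZ (hY'Y hy), Ne.symm h6.1, h6.2⟩
      obtain ⟨y0, hy0⟩ := hYne
      rcases reach_step G (hlink y0 (hY'Y hy0)) with h6 | ⟨u, hvu, huZ, hr⟩
      · exact absurd (Or.inl h6.symm) (h5 y0 hy0)
      · refine ⟨u, non G v Z, Y', ?_, hZX huZ, (non_subset G v Z).trans hZX, hsub, ?_, ?_⟩
        · refine htail.step G huZ hvu (non_subset G v Z) (fun d hd => ?_)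
          have h7 := (mem_non G).mp hd
          exact ⟨h7.2.1.symm, h7.2.2⟩
        · intro y hy
          exact hr.trans ((hYc y0 hy0 y hy).mono G hsub)
        · rw [hYchi]
          exact h2
  obtain ⟨v, Z, Y, htail, _⟩ := key (t - 1) (by omega)
  obtain ⟨φ⟩ := htail.embedding
  rw [show t - 1 + 1 = t by omega] at φ
  exact hfree.false φ

end Pool.Agent.QPB
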