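import Mathlib
import Pool.Agent.QPB.Num
import Pool.Agent.QPB.PBd

/-! QPB-RegA (only `exists_T`, the second part of the plan): every connected extremal set has a frame.

PLAN. `D` is a node (`Full` of `D` itself is trivial, `out` is vacuous). `rec_nodes` gives `Z ⊆ D`
with `om Z ≤ 2 al w` (`om_mono`), so `chi Z ≤ chi D/(32 t W^2)` (`chi_small`, `2 al ≤ 1 - al`), and
`chi (D \ Z) ≥ chi D - chi Z`; `exists_conn` gives a connected `L ⊆ D \ Z` with
`chi L = chi (D \ Z) ≥ (1 - 1/(32 t W^2)) chi D`, which is full; get `Q := R'` with `NB`,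
`chi Q ≥ chi L`. `T := Q.filter (fun u => ∀ S ⊆ Q, u ∉ S → om S ≤ (3/4) w →
Full (cmp G (Q \ S) u))`. For `u ∈ X := Q \ T` choose `S u`; `pb` with `R = Q`,
`ν = chi D/(32 t W^2)` (`chi_small`, `3/4 ≤ 1 - al` since `al ≤ 1/48`),
`β = (1 - 1/(2W)) chi D` (not full) : `chi X ≤ (1 - 1/(2W)) chi D + chi D/(32 W^2)`.
`chi T ≥ chi Q - chi X ≥ chi D (1/(2W) - 1/(32W^2) - 1/(32 t W^2)) ≥ chi D/(4W)`.
In particular `T` is nonempty. `out`: `T \ Q = ∅`, `om ∅ = 0`.
`uns`: `Q' ⊆ Q` connected, `u ∈ Q' ∩ T`, `S = bd Q Q'`: `cmp (Q \ S) u = Q'` is full (`cmp_eq`,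
`u ∉ S`). If `v ∈ T` is not in `Q' ∪ S`, then `C = cmp (Q \ S) v` is full, connected, disjoint from
and anticomplete to `Q'`, contradiction to `NB Q`. -/

open Finset
open scoped Classical
open Pool.Agent.Helper20.Dense

namespace Pool.Agent.QPB

variable {V : Type*} [Fintype V] [DecidableEq V] (G : SimpleGraph V)

/-- the set `T` for a node without anticomplete pairs -/
lemma exists_T {t W s : ℕ} {al : ℝ} (hP : Par t W s al)
    (hfree : IsEmpty (SimpleGraph.pathGraph t ↪g G)) (hom : om G Finset.univ ≤ W)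
    {g : ℕ} (hg : s ≤ g) {D : Finset V} (hD : Xt G g D) {Q : Finset V} (hQD : Q ⊆ D)
    (hQ : Conn G Q) (hNB : NB G W D Q)
    (hbig : (1 - 1 / (32 * (t : ℝ) * (W : ℝ) ^ 2)) * (chi G D : ℝ) ≤ (chi G Q : ℝ)) :
    ∃ T ⊆ Q, (chi G D : ℝ) ≤ 4 * (W : ℝ) * (chi G T : ℝ) ∧
      ∀ Q' ⊆ Q, Conn G Q' → (Q' ∩ T).Nonempty →
        (om G (bd G Q Q') : ℝ) ≤ 3 / 4 * (om G D : ℝ) → T ⊆ Q' ∪ bd G Q Q' := by
  classical
  have hW := hP.hW
  have ht := hP.ht
  have hWr : (2 : ℝ) ≤ (W : ℝ) := by exact_mod_cast hW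
  have htr : (4 : ℝ) ≤ (t : ℝ) := by exact_mod_cast ht
  have hal : al ≤ 1 / 4 := by
    have h1 := hP.al_le
    have h2 := hP.al_pos
    nlinarith
  have hchi0 : (0 : ℝ) ≤ (chi G D : ℝ) := Nat.cast_nonneg _
  have hw0 : (0 : ℝ) ≤ (om G D : ℝ) := Nat.cast_nonneg _
  set T : Finset V := Q.filter (fun u => ∀ S : Finset V, S ⊆ Q → u ∉ S →
    (om G S : ℝ) ≤ 3 / 4 * (om G D : ℝ) → Full G W D (cmp G (Q \ S) u)) with hTdef
  have hTQ : T ⊆ Q := Finset.filter_subset _ _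
  have hTmem : ∀ u ∈ T, ∀ S : Finset V, S ⊆ Q → u ∉ S →
      (om G S : ℝ) ≤ 3 / 4 * (om G D : ℝ) → Full G W D (cmp G (Q \ S) u) := by
    intro u hu
    exact (Finset.mem_filter.mp hu).2
  have hS0 : ∀ u : V, ∃ S : Finset V, u ∈ Q \ T → (S ⊆ Q ∧ u ∉ S ∧
      (om G S : ℝ) ≤ 3 / 4 * (om G D : ℝ) ∧ ¬ Full G W D (cmp G (Q \ S) u)) := by
    intro u
    by_cases hu : u ∈ Q \ T
    · rw [Finset.mem_sdiff] at hu
      have h1 : ¬ ∀ S : Finset V, S ⊆ Q → u ∉ S →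
          (om G S : ℝ) ≤ 3 / 4 * (om G D : ℝ) → Full G W D (cmp G (Q \ S) u) := by
        intro h2
        exact hu.2 (Finset.mem_filter.mpr ⟨hu.1, h2⟩)
      push Not at h1
      obtain ⟨S, h2, h3, h4, h5⟩ := h1
      exact ⟨S, fun _ => ⟨h2, h3, h4, h5⟩⟩
    · exact ⟨∅, fun h => absurd h hu⟩
  choose S hS using hS0
  have hden : (0 : ℝ) < 32 * (t : ℝ) * (W : ℝ) ^ 2 := by positivity
  have hpb := pb G (t := t) (by omega) hfree (X := Q \ T) (R := Q) Finset.sdiff_subset S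
    (fun u hu => (hS u hu).2.1)
    (ν := (chi G D : ℝ) / (32 * (t : ℝ) * (W : ℝ) ^ 2))
    (β := (1 - 1 / (2 * (W : ℝ))) * (chi G D : ℝ)) (by positivity)
    (by
      apply mul_nonneg _ hchi0
      have : 1 / (2 * (W : ℝ)) ≤ 1 := by
        rw [div_le_one (by positivity)]
        linarith
      linarith)
    (by
      intro u hu
      obtain ⟨h1, h2, h3, h4⟩ := hS u hu
      rw [le_div_iff₀ hden]
      refine chi_small G hP hg hD (h1.trans hQD) (h3.trans ?_)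
      apply mul_le_mul_of_nonneg_right _ hw0
      linarith)
    (by
      intro u hu
      obtain ⟨h1, h2, h3, h4⟩ := hS u hu
      unfold Full at h4
      push Not at h4
      refine le_trans ?_ h4.le
      exact_mod_cast chi_mono G Finset.inter_subset_right)
  have hunion : (chi G Q : ℝ) ≤ (chi G T : ℝ) + (chi G (Q \ T) : ℝ) := by
    have h1 : T ∪ Q \ T = Q := Finset.union_sdiff_of_subset hTQ
    have h2 := chi_union G T (Q \ T)
    rw [h1] at h2
    exact_mod_cast h2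
  refine ⟨T, hTQ, ?_, ?_⟩
  · have h1 : (t : ℝ) * ((chi G D : ℝ) / (32 * (t : ℝ) * (W : ℝ) ^ 2)) =
        (chi G D : ℝ) / (32 * (W : ℝ) ^ 2) := by
      field_simp
    rw [h1] at hpb
    have h2 : (1 / (2 * (W : ℝ)) - 1 / (32 * (W : ℝ) ^ 2) - 1 / (32 * (t : ℝ) * (W : ℝ) ^ 2)) *
        (chi G D : ℝ) ≤ (chi G T : ℝ) := by
      have h3 : (chi G D : ℝ) / (32 * (W : ℝ) ^ 2) = 1 / (32 * (W : ℝ) ^ 2) * (chi G D : ℝ) := by
        ring
      rw [h3] at hpb
      nlinarith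
    have h4 : 1 / (4 * (W : ℝ)) ≤
        1 / (2 * (W : ℝ)) - 1 / (32 * (W : ℝ) ^ 2) - 1 / (32 * (t : ℝ) * (W : ℝ) ^ 2) := by
      have h5 : 1 / (32 * (t : ℝ) * (W : ℝ) ^ 2) ≤ 1 / (32 * (W : ℝ) ^ 2) := by
        apply one_div_le_one_div_of_le (by positivity)
        nlinarith [sq_nonneg (W : ℝ)]
      have h6 : 1 / (32 * (W : ℝ) ^ 2) ≤ 1 / (8 * (W : ℝ)) := by
        apply one_div_le_one_div_of_le (by positivity)
        nlinarith
      have h7 : 1 / (2 * (W : ℝ)) = 4 * (1 / (8 * (W : ℝ))) := by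
        field_simp
        norm_num
      have h8 : 1 / (4 * (W : ℝ)) = 2 * (1 / (8 * (W : ℝ))) := by
        field_simp
        norm_num
      rw [h7, h8]
      linarith
    have h9 : 1 / (4 * (W : ℝ)) * (chi G D : ℝ) ≤ (chi G T : ℝ) :=
      (mul_le_mul_of_nonneg_right h4 hchi0).trans h2
    have h10 : (chi G D : ℝ) = 4 * (W : ℝ) * (1 / (4 * (W : ℝ)) * (chi G D : ℝ)) := by
      field_simp
    rw [h10]
    exact mul_le_mul_of_nonneg_left h9 (by positivity)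
  · intro Q' hQ' hconn hmeet hom' v hv
    obtain ⟨u, hu⟩ := hmeet
    rw [Finset.mem_inter] at hu
    obtain ⟨huQ', huT⟩ := hu
    by_contra hvn
    rw [Finset.mem_union, not_or] at hvn
    set S' := bd G Q Q' with hS'
    have hS'Q : S' ⊆ Q := bd_subset G Q Q'
    have hdis : Disjoint S' Q' := bd_disjoint G Q Q'
    have huS : u ∉ S' := fun h => (Finset.disjoint_left.mp hdis h) huQ'
    have hcmp : cmp G (Q \ S') u = Q' := cmp_eq G hconn hQ' huQ'
    have hfull1 : Full G W D Q' := by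
      have h1 := hTmem u huT S' hS'Q huS hom'
      rwa [hcmp] at h1
    have hvQS : v ∈ Q \ S' := Finset.mem_sdiff.mpr ⟨hTQ hv, hvn.2⟩
    have hfull2 : Full G W D (cmp G (Q \ S') v) := hTmem v hv S' hS'Q hvn.2 hom'
    have hconn2 : Conn G (cmp G (Q \ S') v) := conn_cmp G hvQS
    have huQS : u ∈ Q \ S' := Finset.mem_sdiff.mpr ⟨hQ' huQ', huS⟩
    have hQ'QS : Q' ⊆ Q \ S' := by
      intro z hz
      exact Finset.mem_sdiff.mpr ⟨hQ' hz, fun h => (Finset.disjoint_left.mp hdis h) hz⟩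
    have hdisj : Disjoint Q' (cmp G (Q \ S') v) := by
      rw [Finset.disjoint_left]
      intro z hz hz2
      have h1 : Reach G (Q \ S') v z := (Finset.mem_filter.mp hz2).2
      have h2 : Reach G (Q \ S') z v := reach_symm G hvQS h1
      have h3 : Reach G (Q \ S') u z := Reach.mono G hQ'QS (hconn u huQ' z hz)
      have h4 : v ∈ cmp G (Q \ S') u := Finset.mem_filter.mpr ⟨hvQS, h3.trans h2⟩
      rw [hcmp] at h4
      exact hvn.1 h4
    refine hNB Q' (cmp G (Q \ S') v) hQ' ((cmp_subset G _ _).trans Finset.sdiff_subset) hconn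
      hconn2 hfull1 hfull2 hdisj ?_
    intro x hx y hy hxy
    have hyQS : y ∈ Q \ S' := cmp_subset G _ _ hy
    rw [Finset.mem_sdiff] at hyQS
    apply hyQS.2
    rw [hS', mem_bd]
    exact ⟨⟨hyQS.1, fun h => (Finset.disjoint_left.mp hdisj h) hy⟩, x, hx, hxy.symm⟩

end Pool.Agent.QPB
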