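import Mathlib
import Pool.Agent.QPB.Claim
import Pool.Agent.QPB.RegA

/-! Frames by halving: every connected extremal set of a graph without induced `P_t` and without
a deep nested family of anticomplete pairs has a frame. -/

open Finset
open scoped Classical
open Pool.Agent.Helper20.Dense

namespace Pool.Agent.QPB

variable {V : Type*} [Fintype V] [DecidableEq V] (G : SimpleGraph V)

/-- nested anticomplete pairs of depth `d` inside `X` -/
def DeepF : ℕ → Finset V → Prop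
  | 0, X => X.Nonempty
  | d + 1, X => ∃ A ⊆ X, ∃ B ⊆ X, Conn G A ∧ Conn G B ∧ Disjoint A B ∧ Anti G A B ∧
      DeepF d A ∧ DeepF d B

lemma DeepF.nonempty {d : ℕ} {X : Finset V} (h : DeepF G d X) : X.Nonempty := by
  induction d generalizing X with
  | zero => exact h
  | succ d ih =>
    obtain ⟨A, hA, B, hB, h1, h2, h3, h4, h5, h6⟩ := h
    exact (ih h5).mono hA

lemma DeepF.card {d : ℕ} {X : Finset V} (h : DeepF G d X) : 2 ^ d ≤ X.card := by
  induction d generalizing X with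
  | zero =>
    rw [pow_zero]
    exact Finset.card_pos.mpr h
  | succ d ih =>
    obtain ⟨A, hA, B, hB, h1, h2, h3, h4, h5, h6⟩ := h
    have h7 := ih h5
    have h8 := ih h6
    have h9 : (A ∪ B).card ≤ X.card := Finset.card_le_card (Finset.union_subset hA hB)
    rw [Finset.card_union_of_disjoint h3] at h9
    rw [pow_succ]
    omega

/-- the frame for a region in which small sets leave only one large component -/
lemma frame_of_unique {t W s : ℕ} {al : ℝ} (hP : Par t W s al)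
    (hfree : IsEmpty (SimpleGraph.pathGraph t ↪g G))
    {g : ℕ} (hg : s ≤ g) {D : Finset V} (hD : Xt G g D) {Q : Finset V} (hQD : Q ⊆ D)
    (hQ : Conn G Q) {x y : ℝ} (hx : 0 ≤ x) (hxy : x + 1 / (2 * (W : ℝ)) ≤ y)
    (hbig : y * (chi G D : ℝ) ≤ (chi G Q : ℝ))
    (huniq : ∀ S ⊆ Q, (om G S : ℝ) ≤ 3 / 4 * (om G D : ℝ) → ∀ u ∈ Q \ S, ∀ v ∈ Q \ S,
      x * (chi G D : ℝ) ≤ (chi G (cmp G (Q \ S) u) : ℝ) →
      x * (chi G D : ℝ) ≤ (chi G (cmp G (Q \ S) v) : ℝ) → v ∈ cmp G (Q \ S) u) :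
    ∃ Q T, Frame G W D Q T 0 := by
  have hW := hP.hW
  have ht := hP.ht
  have hWr : (2 : ℝ) ≤ (W : ℝ) := by exact_mod_cast hW
  have htr : (4 : ℝ) ≤ (t : ℝ) := by exact_mod_cast ht
  have hal : al ≤ 1 / 4 := by
    have h1 := hP.al_le
    have h2 := hP.al_pos
    nlinarith
  have hchi0 : (0 : ℝ) < (chi G D : ℝ) := by
    have := chi_pos G hD.1
    exact_mod_cast this
  have hw0 : (0 : ℝ) ≤ (om G D : ℝ) := Nat.cast_nonneg _
  set T : Finset V := Q.filter (fun u => ∀ S : Finset V, S ⊆ Q → u ∉ S →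
    (om G S : ℝ) ≤ 3 / 4 * (om G D : ℝ) →
      x * (chi G D : ℝ) ≤ (chi G (cmp G (Q \ S) u) : ℝ)) with hTdef
  have hTQ : T ⊆ Q := Finset.filter_subset _ _
  have hTmem : ∀ u ∈ T, ∀ S : Finset V, S ⊆ Q → u ∉ S →
      (om G S : ℝ) ≤ 3 / 4 * (om G D : ℝ) →
        x * (chi G D : ℝ) ≤ (chi G (cmp G (Q \ S) u) : ℝ) := by
    intro u hu
    exact (Finset.mem_filter.mp hu).2
  have hS0 : ∀ u : V, ∃ S : Finset V, u ∈ Q \ T → (S ⊆ Q ∧ u ∉ S ∧
      (om G S : ℝ) ≤ 3 / 4 * (om G D : ℝ) ∧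
        (chi G (cmp G (Q \ S) u) : ℝ) < x * (chi G D : ℝ)) := by
    intro u
    by_cases hu : u ∈ Q \ T
    · rw [Finset.mem_sdiff] at hu
      have h1 : ¬ ∀ S : Finset V, S ⊆ Q → u ∉ S →
          (om G S : ℝ) ≤ 3 / 4 * (om G D : ℝ) →
            x * (chi G D : ℝ) ≤ (chi G (cmp G (Q \ S) u) : ℝ) := by
        intro h2
        exact hu.2 (Finset.mem_filter.mpr ⟨hu.1, h2⟩)
      push Not at h1
      obtain ⟨S, h2, h3, h4, h5⟩ := h1
      exact ⟨S, fun _ => ⟨h2, h3, h4, h5⟩⟩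
    · exact ⟨∅, fun h => absurd h hu⟩
  choose S hS using hS0
  have hden : (0 : ℝ) < 32 * (t : ℝ) * (W : ℝ) ^ 2 := by positivity
  have hpb := pb G (t := t) (by omega) hfree (X := Q \ T) (R := Q) Finset.sdiff_subset S
    (fun u hu => (hS u hu).2.1)
    (ν := (chi G D : ℝ) / (32 * (t : ℝ) * (W : ℝ) ^ 2))
    (β := x * (chi G D : ℝ)) (by positivity) (mul_nonneg hx hchi0.le)
    (by
      intro u hu
      obtain ⟨h1, h2, h3, h4⟩ := hS u hu
      rw [le_div_iff₀ hden]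
      refine chi_small G hP hg hD (h1.trans hQD) (h3.trans ?_)
      apply mul_le_mul_of_nonneg_right _ hw0
      linarith)
    (by
      intro u hu
      obtain ⟨h1, h2, h3, h4⟩ := hS u hu
      refine le_trans ?_ h4.le
      exact_mod_cast chi_mono G Finset.inter_subset_right)
  have hunion : (chi G Q : ℝ) ≤ (chi G T : ℝ) + (chi G (Q \ T) : ℝ) := by
    have h1 : T ∪ Q \ T = Q := Finset.union_sdiff_of_subset hTQ
    have h2 := chi_union G T (Q \ T)
    rw [h1] at h2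
    exact_mod_cast h2
  have hTbig : (chi G D : ℝ) ≤ 4 * (W : ℝ) * (chi G T : ℝ) := by
    have h1 : (t : ℝ) * ((chi G D : ℝ) / (32 * (t : ℝ) * (W : ℝ) ^ 2)) =
        1 / (32 * (W : ℝ) ^ 2) * (chi G D : ℝ) := by
      field_simp
    rw [h1] at hpb
    have h2 : (1 / (2 * (W : ℝ)) - 1 / (32 * (W : ℝ) ^ 2)) * (chi G D : ℝ) ≤ (chi G T : ℝ) := by
      have h3 : (x + 1 / (2 * (W : ℝ))) * (chi G D : ℝ) ≤ y * (chi G D : ℝ) :=
        mul_le_mul_of_nonneg_right hxy hchi0.le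
      have h4 : (x + 1 / (2 * (W : ℝ))) * (chi G D : ℝ) =
        x * (chi G D : ℝ) + 1 / (2 * (W : ℝ)) * (chi G D : ℝ) := by ring
      have h5 : (1 / (2 * (W : ℝ)) - 1 / (32 * (W : ℝ) ^ 2)) * (chi G D : ℝ) =
        1 / (2 * (W : ℝ)) * (chi G D : ℝ) - 1 / (32 * (W : ℝ) ^ 2) * (chi G D : ℝ) := by ring
      linarith
    have h4 : 1 / (4 * (W : ℝ)) ≤ 1 / (2 * (W : ℝ)) - 1 / (32 * (W : ℝ) ^ 2) := by
      have h6 : 1 / (32 * (W : ℝ) ^ 2) ≤ 1 / (8 * (W : ℝ)) := by
        apply one_div_le_one_div_of_le (by positivity)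
        nlinarith
      have h7 : 1 / (2 * (W : ℝ)) = 4 * (1 / (8 * (W : ℝ))) := by
        field_simp
        norm_num
      have h8 : 1 / (4 * (W : ℝ)) = 2 * (1 / (8 * (W : ℝ))) := by
        field_simp
        norm_num
      have h9 : (0 : ℝ) ≤ 1 / (8 * (W : ℝ)) := by positivity
      rw [h7, h8]
      linarith
    have h9 : 1 / (4 * (W : ℝ)) * (chi G D : ℝ) ≤ (chi G T : ℝ) :=
      (mul_le_mul_of_nonneg_right h4 hchi0.le).trans h2
    have h10 : (chi G D : ℝ) = 4 * (W : ℝ) * (1 / (4 * (W : ℝ)) * (chi G D : ℝ)) := by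
      field_simp
    rw [h10]
    exact mul_le_mul_of_nonneg_left h9 (by positivity)
  have hTpos : (0 : ℝ) < (chi G T : ℝ) := by
    by_contra hcon
    push Not at hcon
    have h1 : 4 * (W : ℝ) * (chi G T : ℝ) ≤ 0 :=
      mul_nonpos_of_nonneg_of_nonpos (by positivity) hcon
    linarith
  have hTne : T.Nonempty := nonempty_of_chi_pos G (by exact_mod_cast hTpos)
  have hQT : Q ∩ T = T := Finset.inter_eq_right.mpr hTQ
  have hom_empty : om G (∅ : Finset V) = 0 := by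
    obtain ⟨S, hS, _, hcard⟩ := exists_clique G (∅ : Finset V)
    rw [← hcard, Finset.subset_empty.mp hS, Finset.card_empty]
  refine ⟨Q, T, ⟨hQD, hTQ.trans hQD, hQ, ?_, hTbig, ?_, ?_⟩⟩
  · rw [hQT]
    exact hTne
  · rw [Finset.sdiff_eq_empty_iff_subset.mpr hTQ, hom_empty]
    simp
  · intro Q' hQ' hconn hmeet hom'
    rw [hQT]
    intro v hv
    rw [sub_zero] at hom'
    obtain ⟨u, hu⟩ := hmeet
    rw [Finset.mem_inter] at hu
    obtain ⟨huQ', huT⟩ := hu
    by_contra hvn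
    rw [Finset.mem_union, not_or] at hvn
    set S' := bd G Q Q' with hS'
    have hS'Q : S' ⊆ Q := bd_subset G Q Q'
    have hdis : Disjoint S' Q' := bd_disjoint G Q Q'
    have huS : u ∉ S' := fun h => (Finset.disjoint_left.mp hdis h) huQ'
    have hcmp : cmp G (Q \ S') u = Q' := cmp_eq G hconn hQ' huQ'
    have h1 := hTmem u huT S' hS'Q huS hom'
    have h2 := hTmem v hv S' hS'Q hvn.2 hom'
    have h3 := huniq S' hS'Q hom' u (Finset.mem_sdiff.mpr ⟨hQ' huQ', huS⟩) v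
      (Finset.mem_sdiff.mpr ⟨hTQ hv, hvn.2⟩) h1 h2
    rw [hcmp] at h3
    exact hvn.1 h3

/-- components are disjoint and anticomplete -/
lemma cmp_anti {X : Finset V} {u v : V} (hu : u ∈ X) (hv : v ∈ X) (huv : v ∉ cmp G X u) :
    Disjoint (cmp G X u) (cmp G X v) ∧ Anti G (cmp G X u) (cmp G X v) := by
  have key : ∀ z, z ∈ cmp G X u → z ∈ cmp G X v → False := by
    intro z hz hz'
    have h1 : Reach G X u z := (Finset.mem_filter.mp hz).2
    have h2 : Reach G X v z := (Finset.mem_filter.mp hz').2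
    exact huv (Finset.mem_filter.mpr ⟨hv, h1.trans (reach_symm G hv h2)⟩)
  refine ⟨Finset.disjoint_left.mpr key, ?_⟩
  intro x hx y hy hxy
  have h1 : Reach G X u x := (Finset.mem_filter.mp hx).2
  have hyX : y ∈ X := cmp_subset G X v hy
  exact key y (Finset.mem_filter.mpr ⟨hyX, h1.tail ⟨hxy, hyX⟩⟩) hy

/-- frames by halving -/
theorem region_deep {t W s : ℕ} {al : ℝ} (hP : Par t W s al)
    (hfree : IsEmpty (SimpleGraph.pathGraph t ↪g G))
    {m : ℕ} (hm1 : 1 ≤ m) (hm : m ≤ W) (hdeep : ¬ DeepF G m Finset.univ)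
    {g : ℕ} (hg : s ≤ g) {D : Finset V} (hD : Xt G g D) (hDc : Conn G D) :
    ∃ Q T, Frame G W D Q T 0 := by
  by_contra hno
  have hmr : (1 : ℝ) ≤ (m : ℝ) := by exact_mod_cast hm1
  have hmW : (m : ℝ) ≤ (W : ℝ) := by exact_mod_cast hm
  have hchi0 : (0 : ℝ) < (chi G D : ℝ) := by
    have := chi_pos G hD.1
    exact_mod_cast this
  have hstep : ∀ i : ℕ, i + 1 ≤ m → ∀ Q : Finset V, Q ⊆ D → Conn G Q →
      (1 - i / (2 * (m : ℝ))) * (chi G D : ℝ) ≤ (chi G Q : ℝ) →
      ∃ S ⊆ Q, ∃ u ∈ Q \ S, ∃ v ∈ Q \ S,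
        (1 - (i + 1) / (2 * (m : ℝ))) * (chi G D : ℝ) ≤ (chi G (cmp G (Q \ S) u) : ℝ) ∧
        (1 - (i + 1) / (2 * (m : ℝ))) * (chi G D : ℝ) ≤ (chi G (cmp G (Q \ S) v) : ℝ) ∧
        v ∉ cmp G (Q \ S) u := by
    intro i hi Q hQD hQc hQ
    by_contra hcon
    push Not at hcon
    apply hno
    have hi' : (i : ℝ) + 1 ≤ m := by exact_mod_cast hi
    refine frame_of_unique G hP hfree hg hD hQD hQc (x := 1 - (i + 1) / (2 * (m : ℝ)))
      (y := 1 - i / (2 * (m : ℝ))) ?_ ?_ hQ ?_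
    · have h1 : ((i : ℝ) + 1) / (2 * m) ≤ 1 := by
        rw [div_le_one (by linarith)]
        linarith
      linarith
    · have h1 : 1 / (2 * (W : ℝ)) ≤ 1 / (2 * (m : ℝ)) := by
        apply one_div_le_one_div_of_le (by linarith)
        linarith
      have h2 : ((i : ℝ) + 1) / (2 * m) = i / (2 * (m : ℝ)) + 1 / (2 * (m : ℝ)) := by
        rw [add_div]
      rw [h2]
      linarith
    · intro S hSQ _ u hu v hv h1 h2
      exact hcon S hSQ u hu v hv h1 h2
  have key : ∀ i : ℕ, i ≤ m → ∃ Q : Finset V, Q ⊆ D ∧ Conn G Q ∧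
      (1 - i / (2 * (m : ℝ))) * (chi G D : ℝ) ≤ (chi G Q : ℝ) ∧ ¬ DeepF G (m - i) Q := by
    intro i
    induction i with
    | zero =>
      intro _
      refine ⟨D, Finset.Subset.refl _, hDc, ?_, ?_⟩
      · simp
      · intro hd
        apply hdeep
        rw [Nat.sub_zero] at hd
        obtain ⟨m', rfl⟩ : ∃ m', m = m' + 1 := ⟨m - 1, by omega⟩
        obtain ⟨A, hA, B, hB, h1⟩ := hd
        exact ⟨A, Finset.subset_univ _, B, Finset.subset_univ _, h1⟩
    | succ i ih =>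
      intro hi
      obtain ⟨Q, hQD, hQc, hQ, hQd⟩ := ih (by omega)
      obtain ⟨S, hSQ, u, hu, v, hv, h1, h2, h3⟩ := hstep i hi Q hQD hQc hQ
      obtain ⟨h4, h5⟩ := cmp_anti G hu hv h3
      have hsub : ∀ z, cmp G (Q \ S) z ⊆ Q := fun z => (cmp_subset G _ z).trans Finset.sdiff_subset
      have hmi : m - i = (m - (i + 1)) + 1 := by omega
      rw [hmi] at hQd
      by_cases hdu : DeepF G (m - (i + 1)) (cmp G (Q \ S) u)
      · have hdv : ¬ DeepF G (m - (i + 1)) (cmp G (Q \ S) v) := fun hdv => hQd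
          ⟨_, hsub u, _, hsub v, conn_cmp G hu, conn_cmp G hv, h4, h5, hdu, hdv⟩
        refine ⟨_, (hsub v).trans hQD, conn_cmp G hv, ?_, hdv⟩
        push_cast
        exact h2
      · refine ⟨_, (hsub u).trans hQD, conn_cmp G hu, ?_, hdu⟩
        push_cast
        exact h1
  obtain ⟨Q, hQD, hQc, hQ, hQd⟩ := key m le_rfl
  rw [Nat.sub_self] at hQd
  apply hQd
  apply nonempty_of_chi_pos G
  have h1 : (1 - (m : ℝ) / (2 * m)) = 1 / 2 := by
    have : (m : ℝ) / (2 * m) = 1 / 2 := by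
      field_simp
    rw [this]
    norm_num
  rw [h1] at hQ
  have h2 : (0 : ℝ) < (chi G Q : ℝ) := by linarith
  exact_mod_cast h2

/-- the conclusion for graphs all of whose extremal sets have frames, refined form -/
theorem chi_bound' {t W s : ℕ} {al : ℝ} (hP : Par t W s al)
    (hfree : IsEmpty (SimpleGraph.pathGraph t ↪g G)) (hom : om G Finset.univ ≤ W)
    (hreg : HReg G W s) : chi G Finset.univ ≤ (om G Finset.univ) ^ ((t - 2) * s) := by
  rcases (Finset.univ : Finset V).eq_empty_or_nonempty with he | hne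
  · rw [he]
    have : chi G ∅ = 0 := chi_empty G
    rw [this]
    exact Nat.zero_le _
  · have hg : 1 ≤ (t - 2) * s := by
      have h1 := hP.ht
      have h2 := hP.hs
      exact Nat.one_le_iff_ne_zero.mpr (Nat.mul_ne_zero (by omega) (by omega))
    obtain ⟨D, hDc, hD, hcmp⟩ := start G hg hne
    have h1 := om_le_one G hP hfree hom hreg hD hDc
    have h2 : 1 ≤ om G D := om_pos G hD.1
    have h3 : om G D = 1 := by omega
    have h4 : chi G D ≤ 1 := chi_le_one_of_om G h1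
    rw [h3] at hcmp
    have h5 : (chi G Finset.univ : ℝ) ≤ (om G Finset.univ : ℝ) ^ ((t - 2) * s) := by
      calc (chi G Finset.univ : ℝ) = (chi G Finset.univ : ℝ) * ((1 : ℕ) : ℝ) ^ ((t - 2) * s) := by
            simp
        _ ≤ (chi G D : ℝ) * (om G Finset.univ : ℝ) ^ ((t - 2) * s) := hcmp
        _ ≤ 1 * (om G Finset.univ : ℝ) ^ ((t - 2) * s) := by
            apply mul_le_mul_of_nonneg_right _ (by positivity)
            exact_mod_cast h4
        _ = _ := one_mul _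
    exact_mod_cast h5

end Pool.Agent.QPB
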