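import Mathlib
import Pool.Agent.Helper20.Dense.Poly
import Pool.Agent.QPB.Num

/-! Definitions for the general version of project QPB: quasi-polynomial bounds for
`{P_t, F}`-free graphs. -/

open Finset
open scoped Classical
open Pool.Agent.Helper20.Dense

namespace Pool.Agent.QPB

/-- `{P_t, F}`-free graphs are quasi-polynomially chi-bounded -/
def QuasiBounded (t : ℕ) {U : Type} (F : SimpleGraph U) : Prop :=
  ∃ C : ℕ, ∀ (V : Type) [Fintype V] (G : SimpleGraph V),
    IsEmpty (SimpleGraph.pathGraph t ↪g G) → IsEmpty (F ↪g G) →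
      G.Colorable (G.cliqueNum ^ (C * (Nat.log 2 G.cliqueNum + 1)))

/-- The graph obtained from `F` by adding an induced path `c 0 - c 1 - c 2 - c 3 - c 4`
(`c i = inl i`), where `c 0` is adjacent to all vertices of `F` and the other `c i` to none. -/
def lam5 {U : Type} (F : SimpleGraph U) : SimpleGraph (Fin 5 ⊕ U) where
  Adj x y := match x, y with
    | Sum.inl i, Sum.inl j => i.val + 1 = j.val ∨ j.val + 1 = i.val
    | Sum.inl i, Sum.inr _ => i = 0
    | Sum.inr _, Sum.inl i => i = 0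
    | Sum.inr a, Sum.inr b => F.Adj a b
  symm := ⟨by
    rintro (a | a) (b | b) h
    · exact h.symm
    · exact h
    · exact h
    · exact F.adj_symm h⟩
  loopless := ⟨by
    rintro (a | a) h
    · simp only at h
      omega
    · exact F.loopless.irrefl a h⟩

section

variable {V : Type*} [Fintype V] [DecidableEq V] (G : SimpleGraph V)

/-- `s` is the end of an induced path `v 0, ..., v j = s` with `j ≥ 1`, there is a copy of `F`
complete to `v 0` and anticomplete to the rest of the path, and everything except `s` is outside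
`R` and anticomplete to `R`. -/
def HookF {U : Type} (F : SimpleGraph U) (s : V) (R : Finset V) : Prop :=
  ∃ (j : ℕ) (v : ℕ → V) (φ : F ↪g G), 1 ≤ j ∧ v j = s ∧
    (∀ k l, k < l → l ≤ j → v k ≠ v l ∧ (G.Adj (v k) (v l) ↔ k + 1 = l)) ∧
    (∀ k < j, ∀ d ∈ R, v k ≠ d ∧ ¬ G.Adj (v k) d) ∧
    (∀ w, G.Adj (v 0) (φ w)) ∧
    (∀ k, 1 ≤ k → k ≤ j → ∀ w, v k ≠ φ w ∧ ¬ G.Adj (v k) (φ w)) ∧
    (∀ w, ∀ d ∈ R, φ w ≠ d ∧ ¬ G.Adj (φ w) d)

/-- an induced path `s = v 0, v 1, ..., v i` with `v 1, ..., v i ∈ A`, and a region `X ⊆ A` outside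
of and anticomplete to `v 0, ..., v (i-1)` -/
def PathIn (s : V) (A : Finset V) (i : ℕ) (v : ℕ → V) (X : Finset V) : Prop :=
  v 0 = s ∧ (∀ k, 1 ≤ k → k ≤ i → v k ∈ A) ∧
    (∀ j k, j < k → k ≤ i → v j ≠ v k ∧ (G.Adj (v j) (v k) ↔ j + 1 = k)) ∧
    X ⊆ A ∧ ∀ j < i, ∀ d ∈ X, v j ≠ d ∧ ¬ G.Adj (v j) d

end

end Pool.Agent.QPB
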