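import Mathlib
import Pool.Agent.QPB.LamDefs

/-! QPB-LamA: a hook together with an induced path `s, a, b, c` (`a, b, c ∈ R`) contains `lam5 F`.

PLAN. Extend `v` by `v (j+1) = a`, `v (j+2) = b`, `v (j+3) = c`: this is an induced path on `j + 4 ≥ 5`
vertices; all `v k` with `k ≥ 1` are outside of and anticomplete to the copy of `F` (for `a, b, c ∈ R`
by the last condition of `HookF`), and `v 0` is complete to it. The map `inl i ↦ v i` (`i < 5`),
`inr w ↦ φ w` is an embedding of `lam5 F` (compare `lolli_embedding` in Helper20/Dense/Poly.lean). -/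

open Finset
open scoped Classical
open Pool.Agent.Helper20.Dense

namespace Pool.Agent.QPB

lemma lam5_embedding {V U : Type} (F : SimpleGraph U) (G : SimpleGraph V) (v : ℕ → V)
    (φ : F ↪g G) (h1 : ∀ k l, k < l → l ≤ 4 → v k ≠ v l ∧ (G.Adj (v k) (v l) ↔ k + 1 = l))
    (h2 : ∀ w, G.Adj (v 0) (φ w))
    (h3 : ∀ k, 1 ≤ k → k ≤ 4 → ∀ w, v k ≠ φ w ∧ ¬ G.Adj (v k) (φ w)) :
    Nonempty (lam5 F ↪g G) := by
  set f : Fin 5 ⊕ U → V := Sum.elim (fun j : Fin 5 => v j.val) φ with hf
  have hlast : ∀ j : Fin 5, ∀ w, v j.val ≠ φ w ∧ (G.Adj (v j.val) (φ w) ↔ j = 0) := by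
    intro j w
    by_cases hj : j = 0
    · subst hj
      have h0 : v (0 : Fin 5).val = v 0 := rfl
      rw [h0]
      exact ⟨(h2 w).ne, by simp [h2 w]⟩
    · have hj' : 1 ≤ j.val := by
        by_contra hcon
        exact hj (Fin.ext (by simp; omega))
      have h4 := h3 j.val hj' (by omega) w
      exact ⟨h4.1, by simp [h4.2, hj]⟩
  refine ⟨⟨⟨f, ?_⟩, ?_⟩⟩
  · rintro (a | a) (b | b) hab
    · simp only [hf, Sum.elim_inl] at hab
      by_contra hne
      have hne' : a.val ≠ b.val := fun h => hne (congrArg Sum.inl (Fin.ext h))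
      have ha := a.isLt
      have hb := b.isLt
      rcases lt_or_gt_of_ne hne' with hlt | hlt
      · exact (h1 _ _ hlt (by omega)).1 hab
      · exact (h1 _ _ hlt (by omega)).1 hab.symm
    · simp only [hf, Sum.elim_inl, Sum.elim_inr] at hab
      exact absurd hab (hlast a b).1
    · simp only [hf, Sum.elim_inl, Sum.elim_inr] at hab
      exact absurd hab.symm (hlast b a).1
    · simp only [hf, Sum.elim_inr] at hab
      exact congrArg Sum.inr (φ.injective hab)
  · rintro (a | a) (b | b)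
    · simp only [Function.Embedding.coeFn_mk, hf, Sum.elim_inl, lam5]
      have ha := a.isLt
      have hb := b.isLt
      rcases lt_trichotomy a.val b.val with hlt | heq | hlt
      · rw [(h1 _ _ hlt (by omega)).2]
        omega
      · rw [heq]
        constructor
        · intro h5
          exact absurd rfl h5.ne
        · intro h5
          omega
      · rw [G.adj_comm, (h1 _ _ hlt (by omega)).2]
        omega
    · simp only [Function.Embedding.coeFn_mk, hf, Sum.elim_inl, Sum.elim_inr, lam5]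
      exact (hlast a b).2
    · simp only [Function.Embedding.coeFn_mk, hf, Sum.elim_inl, Sum.elim_inr, lam5]
      rw [G.adj_comm]
      exact (hlast b a).2
    · simp only [Function.Embedding.coeFn_mk, hf, Sum.elim_inr, lam5]
      exact φ.map_adj_iff

variable {V : Type} [Fintype V] [DecidableEq V] (G : SimpleGraph V)

lemma hookF_mono {U : Type} (F : SimpleGraph U) {s : V} {R R' : Finset V} (hR : R' ⊆ R)
    (h : HookF G F s R) : HookF G F s R' := by
  obtain ⟨j, v, φ, h1, h2, h3, h4, h5, h6, h7⟩ := h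
  exact ⟨j, v, φ, h1, h2, h3, fun k hk d hd => h4 k hk d (hR hd), h5, h6,
    fun w d hd => h7 w d (hR hd)⟩

theorem hookF_nopath {U : Type} (F : SimpleGraph U) (hlam : IsEmpty (lam5 F ↪g G)) {s : V}
    {R : Finset V} {a b c : V} (h : HookF G F s R) (hs : s ∉ R) (ha : a ∈ R) (hb : b ∈ R)
    (hc : c ∈ R) (hsa : G.Adj s a) (hsb : ¬ G.Adj s b) (hsc : ¬ G.Adj s c) (hab : G.Adj a b)
    (hac : ¬ G.Adj a c) (hbc : G.Adj b c) : False := by
  obtain ⟨j, v, φ, h1, h2, h3, h4, h5, h6, h7⟩ := h
  have hsa' : s ≠ a := hsa.ne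
  have hsb' : s ≠ b := fun h => hs (h ▸ hb)
  have hsc' : s ≠ c := fun h => hs (h ▸ hc)
  have hac' : a ≠ c := fun h => hsc (h ▸ hsa)
  set v' : ℕ → V := fun k => if k ≤ j then v k else if k = j + 1 then a else
    if k = j + 2 then b else c with hv'
  have e0 : ∀ k, k ≤ j → v' k = v k := fun k hk => by simp only [hv', if_pos hk]
  have e1 : v' (j + 1) = a := by
    simp only [hv']
    rw [if_neg (by omega), if_pos trivial]
  have e2 : v' (j + 2) = b := by
    simp only [hv']
    rw [if_neg (by omega), if_neg (by omega), if_pos trivial]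
  have e3 : v' (j + 3) = c := by
    simp only [hv']
    rw [if_neg (by omega), if_neg (by omega), if_neg (by omega)]
  have hkey : ∀ k l, k < l → l ≤ j + 3 → v' k ≠ v' l ∧ (G.Adj (v' k) (v' l) ↔ k + 1 = l) := by
    intro k l hkl hl
    have hl4 : l ≤ j ∨ l = j + 1 ∨ l = j + 2 ∨ l = j + 3 := by omega
    rcases hl4 with hl1 | hl1 | hl1 | hl1
    · rw [e0 k (by omega), e0 l hl1]
      exact h3 k l hkl hl1
    · subst hl1
      rw [e1, e0 k (by omega)]
      rcases Nat.lt_or_ge k j with hk | hk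
      · have h8 := h4 k hk a ha
        exact ⟨h8.1, ⟨fun h => absurd h h8.2, fun h => by omega⟩⟩
      · have hkj : k = j := by omega
        rw [hkj, h2]
        exact ⟨hsa', ⟨fun _ => rfl, fun _ => hsa⟩⟩
    · subst hl1
      have hk3 : k < j ∨ k = j ∨ k = j + 1 := by omega
      rcases hk3 with hk | hk | hk
      · rw [e2, e0 k (by omega)]
        have h8 := h4 k hk b hb
        exact ⟨h8.1, ⟨fun h => absurd h h8.2, fun h => by omega⟩⟩
      · rw [e2, e0 k (by omega), hk, h2]
        exact ⟨hsb', ⟨fun h => absurd h hsb, fun h => by omega⟩⟩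
      · rw [e2, hk, e1]
        exact ⟨hab.ne, ⟨fun _ => rfl, fun _ => hab⟩⟩
    · subst hl1
      have hk4 : k < j ∨ k = j ∨ k = j + 1 ∨ k = j + 2 := by omega
      rcases hk4 with hk | hk | hk | hk
      · rw [e3, e0 k (by omega)]
        have h8 := h4 k hk c hc
        exact ⟨h8.1, ⟨fun h => absurd h h8.2, fun h => by omega⟩⟩
      · rw [e3, e0 k (by omega), hk, h2]
        exact ⟨hsc', ⟨fun h => absurd h hsc, fun h => by omega⟩⟩
      · rw [e3, hk, e1]
        exact ⟨hac', ⟨fun h => absurd h hac, fun h => by omega⟩⟩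
      · rw [e3, hk, e2]
        exact ⟨hbc.ne, ⟨fun _ => rfl, fun _ => hbc⟩⟩
  have hanti : ∀ k, 1 ≤ k → k ≤ j + 3 → ∀ w, v' k ≠ φ w ∧ ¬ G.Adj (v' k) (φ w) := by
    intro k hk1 hk w
    have hk4 : k ≤ j ∨ k = j + 1 ∨ k = j + 2 ∨ k = j + 3 := by omega
    have hR : ∀ d ∈ R, d ≠ φ w ∧ ¬ G.Adj d (φ w) := fun d hd =>
      ⟨(h7 w d hd).1.symm, fun h => (h7 w d hd).2 h.symm⟩
    rcases hk4 with hk2 | hk2 | hk2 | hk2
    · rw [e0 k hk2]
      exact h6 k hk1 hk2 w
    · rw [hk2, e1]
      exact hR a ha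
    · rw [hk2, e2]
      exact hR b hb
    · rw [hk2, e3]
      exact hR c hc
  obtain ⟨ψ⟩ := lam5_embedding F G v' φ (fun k l hkl hl => hkey k l hkl (by omega))
    (fun w => by rw [e0 0 (by omega)]; exact h5 w)
    (fun k hk1 hk w => hanti k hk1 (by omega) w)
  exact hlam.false ψ

end Pool.Agent.QPB
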