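import Mathlib
import Pool.Agent.QPB.LamDefs

/-! QPB-LamB: the path argument inside `A` starting at `s`. -/

open Finset
open scoped Classical
open Pool.Agent.Helper20.Dense

namespace Pool.Agent.QPB

variable {V : Type} [Fintype V] [DecidableEq V] (G : SimpleGraph V)

omit [Fintype V] [DecidableEq V] in
private lemma lamB_embedding {s : V} {A : Finset V} {i : ℕ} {v : ℕ → V} {X : Finset V}
    (h : PathIn G s A i v X) : Nonempty (SimpleGraph.pathGraph (i + 1) ↪g G) := by
  obtain ⟨_, _, h3, _, _⟩ := h
  have hne : ∀ a b : Fin (i + 1), v a = v b → a = b := by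
    intro a b hab
    rcases lt_trichotomy a b with hlt | heq | hgt
    · exact absurd hab (h3 a b hlt (by omega)).1
    · exact heq
    · exact absurd hab.symm (h3 b a hgt (by omega)).1
  refine ⟨⟨⟨fun a => v a, fun a b hab => hne a b hab⟩, ?_⟩⟩
  intro a b
  show G.Adj (v a) (v b) ↔ _
  rw [SimpleGraph.pathGraph_adj]
  rcases lt_trichotomy a b with hlt | heq | hgt
  · have := (h3 a b hlt (by omega)).2
    have hlt' : (a : ℕ) < b := hlt
    rw [this]
    omega
  · subst heq
    constructor
    · intro h
      exact absurd rfl h.ne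
    · intro h
      omega
  · have := (h3 b a hgt (by omega)).2
    have hlt' : (b : ℕ) < a := hgt
    rw [SimpleGraph.adj_comm, this]
    omega

private lemma lamB_step {s : V} {A : Finset V} {i : ℕ} {v : ℕ → V} {X : Finset V} {u : V}
    (h : PathIn G s A i v X) (huX : u ∈ X) (hvu : G.Adj (v i) u) :
    PathIn G s A (i + 1) (Function.update v (i + 1) u) (non G (v i) X) := by
  obtain ⟨h1, h2, h3, h4, h5⟩ := h
  have hup : ∀ j, j ≤ i → Function.update v (i + 1) u j = v j := by
    intro j hj
    exact Function.update_of_ne (by omega) _ _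
  have hup' : Function.update v (i + 1) u (i + 1) = u := Function.update_self _ _ _
  refine ⟨?_, ?_, ?_, ?_, ?_⟩
  · rw [hup 0 (Nat.zero_le _), h1]
  · intro k hk1 hk2
    rcases Nat.lt_or_ge i k with hk | hk
    · have : k = i + 1 := by omega
      rw [this, hup']
      exact h4 huX
    · rw [hup k hk]
      exact h2 k hk1 hk
  · intro j k hjk hk
    rcases Nat.lt_or_ge i k with hk' | hk'
    · have hki : k = i + 1 := by omega
      subst hki
      rw [hup', hup j (by omega)]
      rcases Nat.lt_or_ge j i with hj | hj
      · have h6 := h5 j hj u huX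
        refine ⟨h6.1, ?_⟩
        constructor
        · intro h
          exact absurd h h6.2
        · intro h
          omega
      · have hji : j = i := by omega
        subst hji
        exact ⟨hvu.ne, by simp [hvu]⟩
    · rw [hup j (by omega), hup k hk']
      exact h3 j k hjk hk'
  · exact (non_subset G (v i) X).trans h4
  · intro j hj d hd
    have hd' := (mem_non G).mp hd
    rw [hup j (by omega)]
    rcases Nat.lt_or_ge j i with hj' | hj'
    · exact h5 j hj' d hd'.1
    · have hji : j = i := by omega
      subst hji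
      exact ⟨hd'.2.1.symm, hd'.2.2⟩

theorem gyF {t : ℕ} (ht : 1 ≤ t) (hfree : IsEmpty (SimpleGraph.pathGraph t ↪g G)) {s : V}
    {A : Finset V} {q : ℕ}
    (H : ∀ i v X, 1 ≤ i → PathIn G s A i v X → chi G (X.filter (fun x => G.Adj (v i) x)) ≤ q) :
    ∀ (r i : ℕ), i + r = t - 1 → 1 ≤ i → ∀ v X Y, PathIn G s A i v X → Y ⊆ X →
      (∀ y ∈ Y, Reach G X (v i) y) → chi G Y ≤ r * (q + 1) := by
  intro r
  induction r with
  | zero =>
    intro i hi _ v X Y hpath _ _
    exfalso
    obtain ⟨φ⟩ := lamB_embedding G hpath
    rw [show i + 1 = t by omega] at φ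
    exact hfree.false φ
  | succ r ih =>
    intro i hi hi0 v X Y hpath hYX hlink
    by_contra hcon
    push Not at hcon
    have h1 := chi_non_ge G hYX (H i v X hi0 hpath)
    have h2 : r * (q + 1) + 1 ≤ chi G (non G (v i) Y) := by
      have : (r + 1) * (q + 1) = r * (q + 1) + (q + 1) := by ring
      omega
    obtain ⟨Y', hY'Y, hKY', hmin⟩ := exists_minimal G h2
    have hconn := conn_of_minimal G hKY' hmin
    obtain ⟨y0, hy0⟩ := nonempty_of_chi_pos G (show 0 < chi G Y' by omega)
    have hy0' := (mem_non G).mp (hY'Y hy0)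
    have hsub : Y' ⊆ non G (v i) X := by
      intro y hy
      have := (mem_non G).mp (hY'Y hy)
      exact (mem_non G).mpr ⟨hYX this.1, this.2⟩
    rcases reach_step G (hlink y0 hy0'.1) with h3 | ⟨u, hvu, huX, hr⟩
    · exact absurd h3 hy0'.2.1
    · have hp' := lamB_step G hpath huX hvu
      have h4 := ih (i + 1) (by omega) (by omega) _ (non G (v i) X) Y' hp' hsub (by
        intro y hy
        rw [Function.update_self]
        exact hr.trans ((hconn y0 hy0 y hy).mono G hsub))
      omega

end Pool.Agent.QPB
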