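import Mathlib
import Pool.Agent.QPB.LamB

/-! QPB-LamC: a vertex `s ∈ D` attached to a full connected set `A` has a hook in `A`.

PLAN. `om A = om D` (`om_full`). `S = A.filter (G.Adj s)` satisfies `om S + 1 ≤ om D` (`om_add_le`
with `{s}`, `om_singleton`), so `chi S ≤ (1 - 1/W) chi D` (`chi_drop`) and `chi (A \ S) ≥ chi D/(2W)`
(as `A` is full). `om D ≥ 2` (`s` and its neighbour in `A`), so `chi (A \ S) > t (q+1)` by `hbig`.
`exists_conn` gives a connected nonempty `Y ⊆ A \ S` with the same chi, `y ∈ Y`,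
`C = cmp G (A \ S) y ⊇ Y` (`subset_cmp`), `chi C > t (q+1)`. `C ≠ A`, so `bd A C` is nonempty
(`bd_nonempty`) and `bd A C ⊆ S` (`bd_cmp`): pick `x₁` in it, `x₁ ~ s`, `x₁ ~ c ∈ C`.
`v = fun k => if k = 0 then s else x₁` satisfies `PathIn G s A 1 v C`, and all of `C` is reachable
from `x₁` in `C`. By `gyF` (`r = t - 2`, `i = 1`) its hypothesis `H` must fail: there are `i ≥ 1`,
`v`, `X` with `PathIn G s A i v X` and `chi Z > q`, `Z = X.filter (G.Adj (v i))`. `Z ⊆ A ⊆ D` is
complete to `v i ∈ A ⊆ D`, so `om Z < om D`, and by `hq` there is a copy `φ` of `F` in `Z`.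
`HookF` with `j = i` and the reversed path `fun k => v (i - k)`; all of `v 1, ..., v i` and the copy
are in `A`, which is disjoint from and anticomplete to `R`; the copy is in `X`, anticomplete to
`v 0, ..., v (i-1)`. -/

open Finset
open scoped Classical
open Pool.Agent.Helper20.Dense

namespace Pool.Agent.QPB

variable {V : Type} [Fintype V] [DecidableEq V] (G : SimpleGraph V)

theorem hookF_full {U : Type} (F : SimpleGraph U) {t W : ℕ} (ht : 2 ≤ t) (hW : 2 ≤ W)
    (hom : om G Finset.univ ≤ W) (hfree : IsEmpty (SimpleGraph.pathGraph t ↪g G))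
    {g : ℕ} (hg : 1 ≤ g) {D : Finset V} (hD : Xt G g D) {q : ℕ}
    (hq : ∀ Y ⊆ D, om G Y < om G D → (¬ ∃ φ : F ↪g G, ∀ w, φ w ∈ Y) → chi G Y ≤ q)
    (hbig : 2 ≤ om G D → ((2 * W * (t * (q + 1)) : ℕ) : ℝ) < (chi G D : ℝ))
    {s : V} {A R : Finset V} (hsD : s ∈ D) (hsA : s ∉ A) (hA : A ⊆ D) (hAc : Conn G A)
    (hAf : Full G W D A) (hsa : ∃ a ∈ A, G.Adj s a) (hAR : Disjoint A R) (hAR' : Anti G A R) :
    HookF G F s R := by
  have hDW : om G D ≤ W := (om_mono G (subset_univ D)).trans hom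
  obtain ⟨a₀, ha₀, hsa₀⟩ := hsa
  have hs1 := om_singleton G s
  -- a set complete to a vertex of `D` has a smaller clique number
  have hdrop : ∀ x ∈ D, ∀ Z ⊆ D, (∀ z ∈ Z, G.Adj x z) → om G Z < om G D := by
    intro x hx Z hZ hxZ
    have h1 := om_add_le G (A := {x}) (B := Z) (D := D) (by simpa using hx) hZ (by
      intro a ha b hb
      rw [Finset.mem_singleton] at ha
      rw [ha]
      exact hxZ b hb)
    rw [om_singleton G x] at h1
    omega
  have hD2 : 2 ≤ om G D := by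
    have h1 := hdrop s hsD {a₀} (by simpa using hA ha₀) (by
      intro z hz
      rw [Finset.mem_singleton] at hz
      rw [hz]
      exact hsa₀)
    rw [om_singleton G a₀] at h1
    omega
  have hbig' := hbig hD2
  obtain ⟨S, hS⟩ : ∃ S : Finset V, S = A.filter (fun x => G.Adj s x) := ⟨_, rfl⟩
  have hSA : S ⊆ A := by
    rw [hS]
    exact Finset.filter_subset _ _
  have hSm : ∀ x, x ∈ S ↔ x ∈ A ∧ G.Adj s x := by
    intro x
    rw [hS, Finset.mem_filter]
  have hSom : om G S < om G D := hdrop s hsD S (hSA.trans hA) (fun z hz => ((hSm z).1 hz).2)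
  have hSchi := chi_drop G hg hD (hSA.trans hA) hDW hSom
  have hAS : chi G A ≤ chi G S + chi G (A \ S) := by
    have h1 := chi_union G S (A \ S)
    rwa [Finset.union_sdiff_of_subset hSA] at h1
  have hAf' : (1 - 1 / (2 * (W : ℝ))) * (chi G D : ℝ) ≤ (chi G A : ℝ) := hAf
  have hW' : (2 : ℝ) ≤ W := by exact_mod_cast hW
  have hbigC : t * (q + 1) < chi G (A \ S) := by
    have h1 : (chi G A : ℝ) ≤ (chi G S : ℝ) + (chi G (A \ S) : ℝ) := by exact_mod_cast hAS
    have h2 : (chi G D : ℝ) / (2 * W) ≤ (chi G (A \ S) : ℝ) := by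
      have h3 : (chi G D : ℝ) / (2 * W) = (1 - 1 / (2 * (W : ℝ))) * (chi G D : ℝ) -
          (1 - 1 / (W : ℝ)) * (chi G D : ℝ) := by
        field_simp
        ring
      rw [h3]
      linarith
    have h4 : ((t * (q + 1) : ℕ) : ℝ) < (chi G D : ℝ) / (2 * W) := by
      rw [lt_div_iff₀ (by linarith)]
      push_cast at hbig' ⊢
      linarith
    exact_mod_cast h4.trans_le h2
  obtain ⟨Y, hYA, hYne, hYc, hYchi⟩ := exists_conn G (nonempty_of_chi_pos G
    (show 0 < chi G (A \ S) by omega))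
  obtain ⟨y, hy⟩ := hYne
  obtain ⟨C, hC⟩ : ∃ C : Finset V, C = cmp G (A \ S) y := ⟨_, rfl⟩
  have hYC : Y ⊆ C := by
    rw [hC]
    exact subset_cmp G hYc hYA hy (Or.inl rfl)
  have hCAS : C ⊆ A \ S := by
    rw [hC]
    exact cmp_subset G _ _
  have hCA : C ⊆ A := hCAS.trans Finset.sdiff_subset
  have hCc : Conn G C := by
    rw [hC]
    exact conn_cmp G (hYA hy)
  have hCchi : t * (q + 1) < chi G C := by
    have := chi_mono G hYC
    omega
  have hCne : C ≠ A := by
    intro h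
    have h1 : a₀ ∈ A \ S := hCAS (h ▸ ha₀)
    exact (Finset.mem_sdiff.1 h1).2 ((hSm a₀).2 ⟨ha₀, hsa₀⟩)
  obtain ⟨x₁, hx₁⟩ := bd_nonempty G hAc hCA ⟨y, hYC hy⟩ hCne
  have hx₁S : x₁ ∈ S := by
    rw [hC] at hx₁
    exact bd_cmp G A S y hx₁
  obtain ⟨hx₁A, hsx₁⟩ := (hSm x₁).1 hx₁S
  obtain ⟨-, c, hcC, hx₁c⟩ := (mem_bd G).1 hx₁
  -- the first path
  have hP : PathIn G s A 1 (fun k => if k = 0 then s else x₁) C := by
    refine ⟨if_pos rfl, ?_, ?_, hCA, ?_⟩
    · intro k hk1 hk2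
      beta_reduce
      rw [if_neg (by omega)]
      exact hx₁A
    · intro j k hjk hk
      obtain rfl : j = 0 := by omega
      obtain rfl : k = 1 := by omega
      beta_reduce
      rw [if_pos rfl, if_neg (by omega)]
      exact ⟨hsx₁.ne, ⟨fun _ => rfl, fun _ => hsx₁⟩⟩
    · intro j hj d hd
      obtain rfl : j = 0 := by omega
      beta_reduce
      rw [if_pos rfl]
      refine ⟨?_, fun h => ?_⟩
      · rintro rfl
        exact hsA (hCA hd)
      · exact (Finset.mem_sdiff.1 (hCAS hd)).2 ((hSm d).2 ⟨hCA hd, h⟩)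
  -- the path argument
  obtain ⟨i, v, X, hi, hPX, hX⟩ : ∃ i v X, 1 ≤ i ∧ PathIn G s A i v X ∧
      q < chi G (X.filter (fun x => G.Adj (v i) x)) := by
    by_contra hcon
    push Not at hcon
    have h1 := gyF G (by omega) hfree (s := s) (A := A) (q := q)
      (fun i v X hi hPX => hcon i v X hi hPX) (t - 2) 1 (by omega) le_rfl _ C C hP
      (Finset.Subset.refl C) (by
        intro z hz
        have h2 : Reach G C c z := hCc c hcC z hz
        exact Relation.ReflTransGen.head ⟨hx₁c, hcC⟩ h2)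
    have h3 : (t - 2) * (q + 1) ≤ t * (q + 1) := Nat.mul_le_mul_right _ (Nat.sub_le t 2)
    omega
  obtain ⟨hv0, hvA, hvp, hXA, hvX⟩ := hPX
  obtain ⟨φ, hφ⟩ : ∃ φ : F ↪g G, ∀ w, φ w ∈ X.filter (fun x => G.Adj (v i) x) := by
    by_contra hcon
    have hZD : X.filter (fun x => G.Adj (v i) x) ⊆ D :=
      ((Finset.filter_subset _ _).trans hXA).trans hA
    have h1 := hq _ hZD (hdrop (v i) (hA (hvA i hi le_rfl)) _ hZD
      (fun z hz => (Finset.mem_filter.1 hz).2)) hcon
    omega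
  have hφX : ∀ w, φ w ∈ X := fun w => (Finset.mem_filter.1 (hφ w)).1
  refine ⟨i, fun k => v (i - k), φ, hi, ?_, ?_, ?_, ?_, ?_, ?_⟩
  · beta_reduce
    rw [Nat.sub_self]
    exact hv0
  · intro k l hkl hl
    obtain ⟨h1, h2⟩ := hvp (i - l) (i - k) (by omega) (by omega)
    refine ⟨Ne.symm h1, ?_⟩
    beta_reduce
    rw [G.adj_comm, h2]
    omega
  · intro k hk d hd
    have h1 := hvA (i - k) (by omega) (by omega)
    refine ⟨?_, hAR' _ h1 d hd⟩
    intro h2
    rw [← h2] at hd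
    exact Finset.disjoint_left.1 hAR h1 hd
  · intro w
    beta_reduce
    rw [Nat.sub_zero]
    exact (Finset.mem_filter.1 (hφ w)).2
  · intro k hk1 hk2 w
    exact hvX (i - k) (by omega) (φ w) (hφX w)
  · intro w d hd
    have h1 := hXA (hφX w)
    refine ⟨?_, hAR' _ h1 d hd⟩
    intro h2
    exact Finset.disjoint_left.1 hAR h1 (h2 ▸ hd)

end Pool.Agent.QPB
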