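import Mathlib
import Pool.Agent.QPB.LamDefs

/-! QPB-LamD: the function `x ^ (C (log x + 1))` and numerics.

PLAN. `qf_mono`: for `1 ≤ x` two monotonicity steps; for `x = 0`: `0 ^ (C * 1)` is `0` or `1` (`C = 0`).
`quasi_apply`: as `poly_apply` in Helper20/Dense/Poly.lean (`isCol_iff`, `free_induce`,
`cliqueNum_induce_le`, `qf_mono`).
`num_big`: with `L = Nat.log 2 W + 1`, `W < 2 ^ L` and `Nat.log 2 w ≤ Nat.log 2 W`:
`w ^ s ≥ w ^ (C L) * w ^ ((t+3) L) ≥ q * 2 ^ ((t+3) L)`, `q = w ^ (C (log w + 1)) ≥ 1`, and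
`2 ^ ((t+3) L) ≥ 2 ^ L * 2 ^ (t+2) > W * 4 t`, while `2 W (t (q+1)) ≤ 4 W t q`. -/

open Finset
open scoped Classical
open Pool.Agent.Helper20.Dense

namespace Pool.Agent.QPB

/-- the quasi-polynomial bound -/
def qf (C x : ℕ) : ℕ := x ^ (C * (Nat.log 2 x + 1))

lemma qf_mono (C : ℕ) {x y : ℕ} (h : x ≤ y) : qf C x ≤ qf C y := by
  unfold qf
  rcases Nat.eq_zero_or_pos x with hx | hx
  · subst hx
    rcases Nat.eq_zero_or_pos C with hC | hC
    · rw [hC, zero_mul, zero_mul, pow_zero, pow_zero]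
    · rw [Nat.zero_pow (Nat.mul_pos hC (Nat.succ_pos _))]
      exact Nat.zero_le _
  · calc x ^ (C * (Nat.log 2 x + 1)) ≤ y ^ (C * (Nat.log 2 x + 1)) := Nat.pow_le_pow_left h _
      _ ≤ y ^ (C * (Nat.log 2 y + 1)) :=
        Nat.pow_le_pow_right (by omega)
          (Nat.mul_le_mul_left _ (Nat.succ_le_succ (Nat.log_mono_right h)))

lemma quasi_apply {V : Type} [Fintype V] (G : SimpleGraph V) {t C : ℕ} {U : Type}
    {F : SimpleGraph U}
    (hF : ∀ (V : Type) [Fintype V] (G : SimpleGraph V),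
      IsEmpty (SimpleGraph.pathGraph t ↪g G) → IsEmpty (F ↪g G) →
        G.Colorable (G.cliqueNum ^ (C * (Nat.log 2 G.cliqueNum + 1))))
    (hfree : IsEmpty (SimpleGraph.pathGraph t ↪g G)) (X : Finset V)
    (hX : ¬ ∃ φ : F ↪g G, ∀ w, φ w ∈ X) : chi G X ≤ qf C (om G X) := by
  rw [chi_le_iff, isCol_iff]
  refine (hF _ (G.induce (X : Set V)) (free_induce G hfree X) ⟨fun φ => hX ?_⟩).mono
    (qf_mono C (cliqueNum_induce_le G X))
  refine ⟨(SimpleGraph.Embedding.induce (X : Set V)).comp φ, fun w => ?_⟩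
  exact (φ w).2

lemma num_big {t W C s w : ℕ} (hw : 2 ≤ w) (hwW : w ≤ W)
    (hs : (C + t + 3) * (Nat.log 2 W + 1) ≤ s) : 2 * W * (t * (qf C w + 1)) < w ^ s := by
  set L := Nat.log 2 W + 1 with hL
  have hL1 : 1 ≤ L := by omega
  have hWL : W < 2 ^ L := Nat.lt_pow_succ_log_self (by norm_num) W
  have hq1 : 1 ≤ qf C w := Nat.one_le_pow _ _ (by omega)
  have hq : qf C w ≤ w ^ (C * L) := by
    unfold qf
    exact Nat.pow_le_pow_right (by omega)
      (Nat.mul_le_mul_left _ (Nat.succ_le_succ (Nat.log_mono_right hwW)))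
  have h1 : qf C w * 2 ^ ((t + 3) * L) ≤ w ^ s := by
    calc qf C w * 2 ^ ((t + 3) * L) ≤ w ^ (C * L) * w ^ ((t + 3) * L) :=
          Nat.mul_le_mul hq (Nat.pow_le_pow_left hw _)
      _ = w ^ ((C + t + 3) * L) := by rw [← pow_add]; congr 1; ring
      _ ≤ w ^ s := Nat.pow_le_pow_right (by omega) hs
  have h2 : 2 ^ (t + 2) * 2 ^ L ≤ 2 ^ ((t + 3) * L) := by
    rw [← pow_add]
    refine Nat.pow_le_pow_right (by norm_num) ?_
    nlinarith
  have h3 : 4 * t < 2 ^ (t + 2) := by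
    have := Nat.lt_two_pow_self (n := t)
    rw [pow_add]
    omega
  have h4 : 4 * t * W < 2 ^ (t + 2) * 2 ^ L := by
    calc 4 * t * W ≤ 2 ^ (t + 2) * W := Nat.mul_le_mul_right _ h3.le
      _ < 2 ^ (t + 2) * 2 ^ L := Nat.mul_lt_mul_of_pos_left hWL (by positivity)
  calc 2 * W * (t * (qf C w + 1)) ≤ 2 * W * (t * (2 * qf C w)) :=
        Nat.mul_le_mul_left _ (Nat.mul_le_mul_left _ (by omega))
    _ = qf C w * (4 * t * W) := by ring
    _ < qf C w * (2 ^ (t + 2) * 2 ^ L) := Nat.mul_lt_mul_of_pos_left h4 hq1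
    _ ≤ qf C w * 2 ^ ((t + 3) * L) := Nat.mul_le_mul_left _ h2
    _ ≤ w ^ s := h1

end Pool.Agent.QPB
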