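import Mathlib
import Pool.Agent.QPB.LamD

/-! QPB-LamE: closure of quasi-polynomial boundedness under disjoint unions.

PLAN. Exactly as `poly_union_aux` / `poly_sum` in Helper20/Dense/Poly.lean: `main_chi` with
`q = qf C₁ ω + qf C₂ ω + 1`, `ω = om G univ`, `sum_embedding`. For `x = cliqueNum ≥ 2` :
`K q ω^e ≤ K * (3 * x ^ ((C₁+C₂) (log x + 1))) * x ^ e ≤ x ^ ((K + 2 + C₁ + C₂ + e) (log x + 1))`
(`K ≤ 2 ^ K ≤ x ^ K`, `3 ≤ x ^ 2`). For `x ≤ 1`: `chi ≤ 1` (`chi_le_one_of_om`), and `chi = 0` if `V` is empty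
(`x = 0` iff `V` is empty). -/

open Finset
open scoped Classical
open Pool.Agent.Helper20.Dense

namespace Pool.Agent.QPB

/-- small clique numbers -/
private lemma lamE_small {V : Type} [Fintype V] (G : SimpleGraph V) (C : ℕ)
    (h : G.cliqueNum < 2) :
    G.Colorable (G.cliqueNum ^ (C * (Nat.log 2 G.cliqueNum + 1))) := by
  have hom : om G Finset.univ ≤ G.cliqueNum := om_univ_le G
  have h3 : chi G Finset.univ ≤ 1 := chi_le_one_of_om G (by omega)
  rw [← isCol_univ_iff, ← chi_le_iff]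
  rcases Nat.eq_zero_or_pos (om G Finset.univ) with h4 | h4
  · have h5 : (Finset.univ : Finset V) = ∅ := by
      by_contra hne
      have := om_pos G (Finset.nonempty_iff_ne_empty.mpr hne)
      omega
    rw [h5, chi_empty]
    exact Nat.zero_le _
  · have h5 : G.cliqueNum = 1 := by omega
    rw [h5, one_pow]
    exact h3

private lemma lamE_const {x : ℕ} (hx : 2 ≤ x) (K : ℕ) : K ≤ x ^ K :=
  (Nat.lt_two_pow_self).le.trans (Nat.pow_le_pow_left hx K)

private lemma lamE_le {x a C : ℕ} (hx : 2 ≤ x) (h : a ≤ C) :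
    x ^ a ≤ x ^ (C * (Nat.log 2 x + 1)) := by
  apply Nat.pow_le_pow_right (by omega)
  calc a ≤ C := h
    _ = C * 1 := (mul_one C).symm
    _ ≤ C * (Nat.log 2 x + 1) := Nat.mul_le_mul_left _ (by omega)

theorem quasi_sum {t : ℕ} {W₁ W₂ : Type} {F₁ : SimpleGraph W₁} {F₂ : SimpleGraph W₂}
    (h₁ : QuasiBounded t F₁) (h₂ : QuasiBounded t F₂) : QuasiBounded t (F₁ ⊕g F₂) := by
  obtain ⟨C₁, h₁⟩ := h₁
  obtain ⟨C₂, h₂⟩ := h₂
  refine ⟨8 * (2 ^ (t + 1)) ^ t + 2 + (C₁ + C₂) + (2 * t + 2) * (t + 1), ?_⟩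
  intro V _ G hfree hF
  rcases Nat.eq_zero_or_pos t with ht0 | ht
  · subst ht0
    exact absurd hfree (embedding_of_zero G)
  rcases Nat.lt_or_ge G.cliqueNum 2 with hc2 | hc2
  · exact lamE_small G _ hc2
  rw [← isCol_univ_iff, ← chi_le_iff]
  set ω := om G Finset.univ with hωdef
  have hmain := main_chi G ht (q := qf C₁ ω + qf C₂ ω + 1) (by omega) hfree (by
    intro A B hAB hab
    by_contra hcon
    push Not at hcon
    have hA : ∃ φ : F₁ ↪g G, ∀ w, φ w ∈ A := by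
      by_contra h
      have h3 := quasi_apply G h₁ hfree A h
      have h4 : qf C₁ (om G A) ≤ qf C₁ ω := qf_mono C₁ (om_mono G (Finset.subset_univ A))
      omega
    have hB : ∃ φ : F₂ ↪g G, ∀ w, φ w ∈ B := by
      by_contra h
      have h3 := quasi_apply G h₂ hfree B h
      have h4 : qf C₂ (om G B) ≤ qf C₂ ω := qf_mono C₂ (om_mono G (Finset.subset_univ B))
      omega
    obtain ⟨φ₁, hφ₁⟩ := hA
    obtain ⟨φ₂, hφ₂⟩ := hB
    obtain ⟨ψ⟩ := sum_embedding G φ₁ φ₂ (fun a b => ⟨fun heq =>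
      (Finset.disjoint_left.mp hAB) (hφ₁ a) (by rw [heq]; exact hφ₂ b),
      hab _ (hφ₁ a) _ (hφ₂ b)⟩)
    exact hF.false ψ)
  have hωle : ω ≤ G.cliqueNum := om_univ_le G
  set K := 8 * (2 ^ (t + 1)) ^ t with hK
  set x := G.cliqueNum with hx
  set e := (2 * t + 2) * (t + 1) with he
  have hx1 : 1 ≤ x := by omega
  have h3 : qf C₁ ω + qf C₂ ω + 1 ≤ 3 * x ^ ((C₁ + C₂) * (Nat.log 2 x + 1)) := by
    have h4 : qf C₁ ω ≤ x ^ ((C₁ + C₂) * (Nat.log 2 x + 1)) :=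
      (qf_mono C₁ hωle).trans (Nat.pow_le_pow_right hx1 (Nat.mul_le_mul_right _ (by omega)))
    have h5 : qf C₂ ω ≤ x ^ ((C₁ + C₂) * (Nat.log 2 x + 1)) :=
      (qf_mono C₂ hωle).trans (Nat.pow_le_pow_right hx1 (Nat.mul_le_mul_right _ (by omega)))
    have h6 : 1 ≤ x ^ ((C₁ + C₂) * (Nat.log 2 x + 1)) := Nat.one_le_pow _ _ hx1
    omega
  have h7 : K ≤ x ^ (K * (Nat.log 2 x + 1)) := (lamE_const hc2 K).trans (lamE_le hc2 le_rfl)
  have h8 : 3 ≤ x ^ (2 * (Nat.log 2 x + 1)) := by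
    refine le_trans ?_ (lamE_le hc2 (le_refl 2))
    nlinarith
  have h9 : ω ^ e ≤ x ^ (e * (Nat.log 2 x + 1)) :=
    (Nat.pow_le_pow_left hωle e).trans (lamE_le hc2 le_rfl)
  calc chi G Finset.univ ≤ K * (qf C₁ ω + qf C₂ ω + 1) * ω ^ e := hmain
    _ ≤ x ^ (K * (Nat.log 2 x + 1)) *
          (x ^ (2 * (Nat.log 2 x + 1)) * x ^ ((C₁ + C₂) * (Nat.log 2 x + 1))) *
          x ^ (e * (Nat.log 2 x + 1)) := by
        apply Nat.mul_le_mul
        · exact Nat.mul_le_mul h7 (h3.trans (Nat.mul_le_mul_right _ h8))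
        · exact h9
    _ = _ := by rw [← pow_add, ← pow_add, ← pow_add]; ring

/-- polynomially bounded implies quasi-polynomially bounded. PLAN: `C * x ^ g ≤ x ^ ((C + g) (log x + 1))`
for `x ≥ 2`; for `x ≤ 1` use `chi_le_one_of_om` as above. -/
theorem quasi_of_poly {t : ℕ} {U : Type} {F : SimpleGraph U} (h : Poly t F) :
    QuasiBounded t F := by
  obtain ⟨C, g, h⟩ := h
  refine ⟨C + g, ?_⟩
  intro V _ G hfree hF
  rcases Nat.lt_or_ge G.cliqueNum 2 with hc2 | hc2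
  · exact lamE_small G _ hc2
  refine (h V G hfree hF).mono ?_
  set x := G.cliqueNum with hx
  calc C * x ^ g ≤ x ^ C * x ^ g := Nat.mul_le_mul_right _ (lamE_const hc2 C)
    _ = x ^ (C + g) := by rw [pow_add]
    _ ≤ _ := lamE_le hc2 le_rfl

end Pool.Agent.QPB
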