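import Mathlib
import Pool.Agent.QPB.Num
import Pool.Agent.QPB.PBd

/-! QPB-LemA: the vertices hooked onto a full connected region have small clique number.

PLAN. Let `w = om D`, `θ = chi D / (8 W^2)`. For `b ∈ B` and a component `C = cmp (R \ N(b)) u`
(`u ∈ R`, not adjacent to `b`): `bd R C ⊆ N(b)` (`bd_cmp` with `S = R.filter (G.Adj b)`), it is
nonempty (`bd_nonempty`, since `b` has a neighbour in `R`, so `C ≠ R`) and complete to `C`
(`exists_edge` + `Hook.nopath` with `s = b`, `a = c ∈ bd R C`, the edge `b c` in `C`).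
Let `MM M := M ⊆ R ∧ Conn M ∧ (bd R M).Nonempty ∧ bd R M complete to M ∧ chi D ≤ 8 W^2 chi M`
and `X = R.filter (fun u => ∃ M, MM M ∧ u ∈ M)`. For `u ∈ X` choose `M u`, `S u = bd R (M u)`.
(1) `om (M u) ≥ (1-al) w` by `om_large` (8 W^2 < 32 t W^2), `om (S u) + om (M u) ≤ w`
(`om_add_le`), so `om (S u) ≤ al w ≤ (1-al) w` and `chi (S u) ≤ chi D / (32 t W^2) =: ν` by
`chi_small`; also `om (M u) ≤ w - 1` as `om (S u) ≥ 1`, so `chi (M u) ≤ (1-1/W) chi D =: β` by
`chi_drop`; `cmp (R \ S u) u = M u` by `cmp_eq`. (2) `pb` : `chi X ≤ (1-1/W) chi D + t ν =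
(1-1/W) chi D + chi D/(32 W^2)`. (3) `Y = R \ X`: `chi Y ≥ chi R - chi X ≥ chi D (1/(2W) -
1/(32 W^2)) ≥ chi D / (4W)`. (4) For `b ∈ B`: `8 W^2 chi (Y \ N(b)) ≤ chi D`: otherwise take
`Y' ⊆ Y \ N(b)` connected nonempty with the same chi (`exists_conn`), `y ∈ Y'`,
`C = cmp (R \ N(b)) y ⊇ Y'` satisfies `MM C`, so `y ∈ X`, contradiction. (5) `nc_thin` with
`D' = D`: `om B + (1-al) w ≤ w`. -/

open Finset
open scoped Classical
open Pool.Agent.Helper20.Dense

namespace Pool.Agent.QPB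

variable {V : Type*} [Fintype V] [DecidableEq V] (G : SimpleGraph V)

theorem lemA {t W s : ℕ} {al : ℝ} (hP : Par t W s al)
    (hfree : IsEmpty (SimpleGraph.pathGraph t ↪g G)) (hom : om G Finset.univ ≤ W)
    {g : ℕ} (hg : s ≤ g) {D : Finset V} (hD : Xt G g D) {P : V → Finset V → Prop}
    (hk : Hook G W D P) {R : Finset V} (hR : R ⊆ D) (hRc : Conn G R) (hRf : Full G W D R)
    {B : Finset V} (hB : B ⊆ D) (hBR : ∀ b ∈ B, b ∉ R) (hBa : ∀ b ∈ B, ∃ r ∈ R, G.Adj b r)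
    (hBP : ∀ b ∈ B, P b R) : (om G B : ℝ) ≤ al * (om G D : ℝ) := by
  have ht4 := hP.ht
  have hW2 := hP.hW
  have hs1 := hP.hs
  have halp := hP.al_pos
  have halle := hP.al_le
  have hg1 : 1 ≤ g := hs1.trans hg
  have homD : om G D ≤ W := (om_mono G (Finset.subset_univ D)).trans hom
  have htR : (4 : ℝ) ≤ (t : ℝ) := by exact_mod_cast ht4
  have hWR : (2 : ℝ) ≤ (W : ℝ) := by exact_mod_cast hW2
  have hW0 : (0 : ℝ) < (W : ℝ) := by linarith
  have hal2 : al ≤ 1 / 2 := by nlinarith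
  have hcD : (0 : ℝ) ≤ (chi G D : ℝ) := Nat.cast_nonneg _
  -- the family of complete modules
  set MM : Finset V → Prop := fun M => M ⊆ R ∧ Conn G M ∧ (bd G R M).Nonempty ∧
    (∀ a ∈ bd G R M, ∀ m ∈ M, G.Adj a m) ∧
    (chi G D : ℝ) ≤ 8 * (W : ℝ) ^ 2 * (chi G M : ℝ) with hMM
  set X : Finset V := R.filter (fun u => ∃ M, MM M ∧ u ∈ M) with hX
  have hXR : X ⊆ R := Finset.filter_subset _ _
  have hXM : ∀ u ∈ X, ∃ M, MM M ∧ u ∈ M := fun u hu => (Finset.mem_filter.mp hu).2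
  choose! Mf hMf using hXM
  set ν : ℝ := (chi G D : ℝ) / (32 * (t : ℝ) * (W : ℝ) ^ 2) with hν
  set β : ℝ := (1 - 1 / (W : ℝ)) * (chi G D : ℝ) with hβ
  have hden : (0 : ℝ) < 32 * (t : ℝ) * (W : ℝ) ^ 2 := by positivity
  have hν0 : 0 ≤ ν := div_nonneg hcD hden.le
  have hW1 : 1 / (W : ℝ) ≤ 1 := by
    rw [div_le_one hW0]; linarith
  have hβ0 : 0 ≤ β := mul_nonneg (by linarith) hcD
  have hadd : ∀ u ∈ X, om G (bd G R (Mf u)) + om G (Mf u) ≤ om G D := by
    intro u hu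
    obtain ⟨⟨h1, h2, h3, h4, h5⟩, h6⟩ := hMf u hu
    exact om_add_le G ((bd_subset G R (Mf u)).trans hR) (h1.trans hR) h4
  have hchiX : (chi G X : ℝ) ≤ β + t * ν := by
    refine pb G (by omega) hfree hXR (fun u => bd G R (Mf u)) ?_ hν0 hβ0 ?_ ?_
    · intro u hu hcon
      exact ((mem_bd G).mp hcon).1.2 (hMf u hu).2
    · intro u hu
      obtain ⟨⟨h1, h2, h3, h4, h5⟩, h6⟩ := hMf u hu
      have hMne : (Mf u).Nonempty := ⟨u, h6⟩
      have hcM : (1 : ℝ) ≤ (chi G (Mf u) : ℝ) := by exact_mod_cast chi_pos G hMne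
      have hlarge := om_large G hP hg hD (h1.trans hR) (X := Mf u) (by
        refine lt_of_le_of_lt h5 ?_
        have h7 : 8 * (W : ℝ) ^ 2 < 32 * (t : ℝ) * (W : ℝ) ^ 2 := by
          have : (0 : ℝ) < (W : ℝ) ^ 2 := by positivity
          nlinarith
        have h8 := mul_lt_mul_of_pos_right h7 (lt_of_lt_of_le one_pos hcM)
        linarith [mul_comm (chi G (Mf u) : ℝ) (32 * (t : ℝ) * (W : ℝ) ^ 2)])
      have ha : (om G (bd G R (Mf u)) : ℝ) + (om G (Mf u) : ℝ) ≤ (om G D : ℝ) := by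
        exact_mod_cast hadd u hu
      have hw0 : (0 : ℝ) ≤ (om G D : ℝ) := Nat.cast_nonneg _
      have hsm := chi_small G hP hg hD ((bd_subset G R (Mf u)).trans hR)
        (X := bd G R (Mf u)) (by nlinarith)
      show (chi G (bd G R (Mf u)) : ℝ) ≤ ν
      rw [hν, le_div_iff₀ hden]
      exact hsm
    · intro u hu
      obtain ⟨⟨h1, h2, h3, h4, h5⟩, h6⟩ := hMf u hu
      have hc : cmp G (R \ bd G R (Mf u)) u = Mf u := cmp_eq G h2 h1 h6
      have hlt : om G (Mf u) < om G D := by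
        have h7 := om_pos G h3
        have h8 := hadd u hu
        omega
      have hdrop := chi_drop G hg1 hD (h1.trans hR) homD hlt
      show (chi G (X ∩ cmp G (R \ bd G R (Mf u)) u) : ℝ) ≤ β
      rw [hc]
      refine le_trans ?_ hdrop
      exact_mod_cast chi_mono G Finset.inter_subset_right
  -- the rest
  set Y : Finset V := R \ X with hY
  have hYR : Y ⊆ R := Finset.sdiff_subset
  have hbig : (chi G D : ℝ) ≤ 4 * (W : ℝ) * (chi G Y : ℝ) := by
    have h1 : (chi G R : ℝ) ≤ (chi G X : ℝ) + (chi G Y : ℝ) := by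
      have h2 : chi G R ≤ chi G (X ∪ Y) := chi_mono G (by
        rw [hY, Finset.union_sdiff_of_subset hXR])
      have h3 := chi_union G X Y
      exact_mod_cast h2.trans h3
    have h4 : (1 - 1 / (2 * (W : ℝ))) * (chi G D : ℝ) ≤ (chi G R : ℝ) := hRf
    have h5 : (t : ℝ) * ν = (chi G D : ℝ) / (32 * (W : ℝ) ^ 2) := by
      rw [hν]
      have : (t : ℝ) ≠ 0 := by linarith
      field_simp
    have h6 : (1 / (2 * (W : ℝ)) - 1 / (32 * (W : ℝ) ^ 2)) * (chi G D : ℝ) ≤ (chi G Y : ℝ) := by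
      have h7 : (1 / (2 * (W : ℝ)) - 1 / (32 * (W : ℝ) ^ 2)) * (chi G D : ℝ) =
          (1 - 1 / (2 * (W : ℝ))) * (chi G D : ℝ) - (β + t * ν) := by
        rw [h5, hβ]
        field_simp
        ring
      rw [h7]
      linarith
    have h8 : 1 / (4 * (W : ℝ)) ≤ 1 / (2 * (W : ℝ)) - 1 / (32 * (W : ℝ) ^ 2) := by
      have h9 : 1 / (32 * (W : ℝ) ^ 2) ≤ 1 / (4 * (W : ℝ)) := by
        apply one_div_le_one_div_of_le (by positivity)
        nlinarith
      have h10 : 1 / (2 * (W : ℝ)) = 1 / (4 * (W : ℝ)) + 1 / (4 * (W : ℝ)) := by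
        field_simp
        ring
      linarith
    have h11 : 1 / (4 * (W : ℝ)) * (chi G D : ℝ) ≤ (chi G Y : ℝ) :=
      (mul_le_mul_of_nonneg_right h8 hcD).trans h6
    have h12 : (chi G D : ℝ) = 4 * (W : ℝ) * (1 / (4 * (W : ℝ)) * (chi G D : ℝ)) := by
      field_simp
    rw [h12]
    exact mul_le_mul_of_nonneg_left h11 (by positivity)
  have hnc : ∀ b ∈ B, 8 * (W : ℝ) ^ 2 * (chi G (Y.filter (fun x => ¬ G.Adj b x)) : ℝ) ≤
      (chi G D : ℝ) := by
    intro b hb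
    by_contra hcon
    push Not at hcon
    have hNne : (Y.filter (fun x => ¬ G.Adj b x)).Nonempty := by
      rw [Finset.nonempty_iff_ne_empty]
      intro h0
      rw [h0, chi_empty] at hcon
      simp only [Nat.cast_zero, mul_zero] at hcon
      linarith
    obtain ⟨Y', hY'N, ⟨y, hy⟩, hY'c, hY'chi⟩ := exists_conn G hNne
    have hyN := Finset.mem_filter.mp (hY'N hy)
    have hyY := Finset.mem_sdiff.mp hyN.1
    set Sb : Finset V := R.filter (fun x => G.Adj b x) with hSb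
    have hY'R : Y' ⊆ R \ Sb := by
      intro z hz
      have h1 := Finset.mem_filter.mp (hY'N hz)
      refine Finset.mem_sdiff.mpr ⟨hYR h1.1, fun h2 => h1.2 (Finset.mem_filter.mp h2).2⟩
    set C : Finset V := cmp G (R \ Sb) y with hC
    have hY'C : Y' ⊆ C := subset_cmp G hY'c hY'R hy (Or.inl rfl)
    have hCs : C ⊆ R \ Sb := cmp_subset G (R \ Sb) y
    have hCR : C ⊆ R := hCs.trans Finset.sdiff_subset
    have hCb : ∀ c ∈ C, ¬ G.Adj b c := by
      intro c hc hbc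
      have h1 := Finset.mem_sdiff.mp (hCs hc)
      exact h1.2 (Finset.mem_filter.mpr ⟨h1.1, hbc⟩)
    have hMC : MM C := by
      refine ⟨hCR, conn_cmp G (hY'R hy), ?_, ?_, ?_⟩
      · refine bd_nonempty G hRc hCR ⟨y, hY'C hy⟩ ?_
        intro hCeq
        obtain ⟨r, hr, hbr⟩ := hBa b hb
        exact hCb r (by rw [hCeq]; exact hr) hbr
      · intro a ha m hm
        by_contra ham
        have ha1 := (mem_bd G).mp ha
        obtain ⟨z, hz, haz⟩ := ha1.2
        have haS : a ∈ Sb := bd_cmp G R Sb y ha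
        have hba : G.Adj b a := (Finset.mem_filter.mp haS).2
        obtain ⟨x, hx, x', hx', h1, h2, h3⟩ :=
          exists_edge G (conn_cmp G (hY'R hy)) hz hm haz ham
        exact hk.nopath b R a x x' (hBP b hb) (hBR b hb) ha1.1.1 (hCR hx) (hCR hx') hba
          (hCb x hx) (hCb x' hx') h1 h2 h3
      · have h1 : (chi G (Y.filter (fun x => ¬ G.Adj b x)) : ℝ) ≤ (chi G C : ℝ) := by
          rw [← hY'chi]
          exact_mod_cast chi_mono G hY'C
        refine hcon.le.trans ?_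
        exact mul_le_mul_of_nonneg_left h1 (by positivity)
    exact hyY.2 (Finset.mem_filter.mpr ⟨hyY.1, C, hMC, hY'C hy⟩)
  have hfin := nc_thin G hP hg (D' := D) hD (Finset.Subset.refl D) homD (hYR.trans hR) hB hbig hnc
  linarith


end Pool.Agent.QPB
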