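import Mathlib
import Pool.Agent.QPB.LemA

/-! QPB-RecA (only `split_nodes`, the first half of the plan): the recursion into nodes without anticomplete pairs of full connected sets.

PLAN. Strong induction on `R.card`. By `lemA`, `om (bd D R) ≤ al w` for every node `R`
(`B = bd G D R`, `mem_bd`, `Node.out`). If `NB R`: take `Z = ∅`.
Otherwise there are `A B ⊆ R` connected, full, disjoint, anticomplete. `B` is nonempty (full:
`chi B > 0`), `b ∈ B`. Let `B' = cmp G (R \ (A ∪ bd G R A)) b ⊇ B` (`subset_cmp`; `B` is disjoint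
from `A ∪ bd R A`), `S = bd G R B'`. `S ⊆ bd R A`: an element of `S` lies in `A ∪ bd R A` by
`bd_cmp`, and it is not in `A` since its neighbour in `B'` would then be in `A ∪ bd R A`.
So every `x ∈ S` has a neighbour in `A` and a neighbour in `B'`, `x ∉ A`, `x ∉ B'`;
`A`, `B'` are disjoint and anticomplete; `B'` is full (contains `B`), connected (`conn_cmp`).
For `u ∈ R \ S` let `C = cmp G (R \ S) u`. CLAIM: if `C` is full it is a node: let `x ∈ D`,
`x ∉ C`, adjacent to `C`. If `x ∉ R`: `Node.out` of `R` and `Hook.mono`. If `x ∈ R` then `x ∈ S`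
(`bd_cmp`). If `C` meets `B'` then `C = B'` (`cmp_eq` / `subset_cmp`), and `A` is disjoint from and
anticomplete to `C`, so `Hook.full` with `A` gives `P x C`. If `C` is disjoint from `B'` then `B'`
is anticomplete to `C` (an edge would put the `B'`-end into `C`, as `B' ⊆ R \ S`), so `Hook.full`
with `B'` gives `P x C`. In particular `B'` is a node and `om S ≤ al w` by `lemA` (`S ⊆ bd D B'`).
`C ≠ R` for every such `C` (otherwise `C ∩ B'` nonempty, `C = B'`, but `A ⊆ R` is nonempty and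
disjoint from `B'`), so `C.card < R.card`; the induction gives `Z_C ⊆ C`.
`Z = S ∪ ⋃_{C full component} Z_C` (biUnion over `(R \ S)` of `u ↦ if Full (cmp (R\S) u) then
Z (cmp (R\S) u) else ∅`, with `Z` chosen as a function of the set `C`).
Bound: let `K` be a clique in `Z ∪ bd D R`. If `K` contains `z ∈ Z_C`, then each element of `K` is
in `C ∪ bd D C` (adjacent to `z ∈ C`, in `D`), and the ones in `C` are in `Z_C` (they are in `Z`,
not in `S`, and not in `Z_{C'}` for another component), so `K ⊆ Z_C ∪ bd D C`.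
Otherwise `K ⊆ S ∪ bd D R` and `om_union_le`.
Last part: a connected full `L ⊆ R \ Z` is disjoint from `S`, nonempty, so `L ⊆ C = cmp (R\S) u`
(`u ∈ L`), `C` is full by monotonicity, `L ⊆ C \ Z_C`; use the induction. -/

open Finset
open scoped Classical
open Pool.Agent.Helper20.Dense

namespace Pool.Agent.QPB

variable {V : Type*} [Fintype V] [DecidableEq V] (G : SimpleGraph V)

/-- full components of `R \ S` are nodes (the CLAIM of the plan), with the bound for `S` -/
lemma split_nodes {t W s : ℕ} {al : ℝ} (hP : Par t W s al)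
    (hfree : IsEmpty (SimpleGraph.pathGraph t ↪g G)) (hom : om G Finset.univ ≤ W)
    {g : ℕ} (hg : s ≤ g) {D : Finset V} (hD : Xt G g D) {P : V → Finset V → Prop}
    (hk : Hook G W D P) {R : Finset V} (hR : Node G W D P R) (hNB : ¬ NB G W D R) :
    ∃ S ⊆ R, (om G S : ℝ) ≤ al * (om G D : ℝ) ∧
      (∀ u ∈ R \ S, cmp G (R \ S) u ≠ R) ∧
      ∀ u ∈ R \ S, Full G W D (cmp G (R \ S) u) → Node G W D P (cmp G (R \ S) u) := by
  have hfne : ∀ X : Finset V, Full G W D X → X.Nonempty := by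
    intro X hX
    apply nonempty_of_chi_pos G
    have h1 : 1 ≤ chi G D := chi_pos G hD.1
    have h2 : (2 : ℝ) ≤ W := by exact_mod_cast hP.hW
    have h3 : (1 : ℝ) ≤ chi G D := by exact_mod_cast h1
    have h4 : 1 / (2 * (W : ℝ)) ≤ 1 / 2 := by
      apply one_div_le_one_div_of_le (by norm_num)
      linarith
    have h5 : (0 : ℝ) < chi G X := by
      refine lt_of_lt_of_le ?_ hX
      apply mul_pos
      · linarith
      · linarith
    exact_mod_cast h5
  unfold NB at hNB
  push Not at hNB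
  obtain ⟨A, B, hAR, hBR, hAc, hBc, hAf, hBf, hAB, hanti⟩ := hNB
  obtain ⟨b, hb⟩ := hfne B hBf
  obtain ⟨B', hB'⟩ : ∃ B', B' = cmp G (R \ (A ∪ bd G R A)) b := ⟨_, rfl⟩
  obtain ⟨S, hS⟩ : ∃ S, S = bd G R B' := ⟨_, rfl⟩
  have hBT : B ⊆ R \ (A ∪ bd G R A) := by
    intro x hx
    rw [mem_sdiff, mem_union, not_or]
    refine ⟨hBR hx, fun h => (Finset.disjoint_left.1 hAB h) hx, fun h => ?_⟩
    obtain ⟨_, y, hy, hxy⟩ := (mem_bd G).1 h
    exact hanti y hy x hx hxy.symm
  have hB'T : B' ⊆ R \ (A ∪ bd G R A) := by rw [hB']; exact cmp_subset G _ _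
  have hB'R : B' ⊆ R := fun x hx => (mem_sdiff.1 (hB'T hx)).1
  have hB'A : ∀ x ∈ B', x ∉ A := fun x hx h => (mem_sdiff.1 (hB'T hx)).2 (mem_union_left _ h)
  have hB'c : Conn G B' := by rw [hB']; exact conn_cmp G (hBT hb)
  have hBB' : B ⊆ B' := by rw [hB']; exact subset_cmp G hBc hBT hb (Or.inl rfl)
  have hB'f : Full G W D B' := by
    refine le_trans hBf ?_
    exact_mod_cast chi_mono G hBB'
  have hdis : Disjoint A B' := Finset.disjoint_left.2 (fun x hx h => hB'A x h hx)
  have hanti' : Anti G A B' := by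
    intro x hx y hy hxy
    refine (mem_sdiff.1 (hB'T hy)).2 (mem_union_right _ ((mem_bd G).2 ⟨⟨hB'R hy, hB'A y hy⟩, x, hx, hxy.symm⟩))
  have hSR : S ⊆ R := by rw [hS]; exact bd_subset G R B'
  have hSA : ∀ x ∈ S, x ∉ A ∧ ∃ a ∈ A, G.Adj x a := by
    intro x hx
    have h1 : x ∈ A ∪ bd G R A := by
      have h2 := bd_cmp G R (A ∪ bd G R A) b
      rw [← hB', ← hS] at h2
      exact h2 hx
    have h3 : x ∉ A := by
      intro hxA
      rw [hS] at hx
      obtain ⟨_, y, hy, hxy⟩ := (mem_bd G).1 hx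
      exact hanti' x hxA y hy hxy
    rcases mem_union.1 h1 with h | h
    · exact absurd h h3
    · exact ⟨h3, ((mem_bd G).1 h).2⟩
  have hSB : ∀ x ∈ S, x ∉ B' ∧ ∃ y ∈ B', G.Adj x y := by
    intro x hx
    rw [hS] at hx
    have h1 := (mem_bd G).1 hx
    exact ⟨h1.1.2, h1.2⟩
  have hB'S : B' ⊆ R \ S := fun x hx => mem_sdiff.2 ⟨hB'R hx, fun h => (hSB x h).1 hx⟩
  have hCB : ∀ u ∈ R \ S, ∀ w ∈ cmp G (R \ S) u, w ∈ B' → cmp G (R \ S) u ⊆ B' := by
    intro u hu w hw hwB
    have h1 : cmp G (R \ S) w = B' := by rw [hS]; exact cmp_eq G hB'c hB'R hwB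
    have h2 := subset_cmp G (conn_cmp G hu) (cmp_subset G (R \ S) u) hw (Or.inl rfl)
    rwa [h1] at h2
  have hAD : A ⊆ D := hAR.trans hR.sub
  have hB'D : B' ⊆ D := hB'R.trans hR.sub
  refine ⟨S, hSR, ?_, ?_, ?_⟩
  · refine lemA G hP hfree hom hg hD hk hB'D hB'c hB'f (hSR.trans hR.sub) (fun x hx => (hSB x hx).1)
      (fun x hx => (hSB x hx).2) (fun x hx => ?_)
    exact hk.full x A B' (hR.sub (hSR hx)) (hSA x hx).1 (hSB x hx).1 hAD hAc hAf (hSA x hx).2 hdis hanti'
  · intro u hu hCR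
    obtain ⟨a, ha⟩ := hfne A hAf
    have h1 := hCB u hu b (by rw [hCR]; exact hBR hb) (hBB' hb)
    rw [hCR] at h1
    exact hB'A a (h1 (hAR ha)) ha
  · intro u hu hCf
    have hCR : cmp G (R \ S) u ⊆ R := (cmp_subset G _ _).trans sdiff_subset
    refine ⟨hCR.trans hR.sub, conn_cmp G hu, hCf, ?_⟩
    intro x hxD hxC hxr
    by_cases hxR : x ∈ R
    · have hxS : x ∈ S := bd_cmp G R S u ((mem_bd G).2 ⟨⟨hxR, hxC⟩, hxr⟩)
      by_cases hint : ∃ w ∈ cmp G (R \ S) u, w ∈ B'
      · obtain ⟨w, hw, hwB⟩ := hint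
        have hsub := hCB u hu w hw hwB
        refine hk.full x A _ hxD (hSA x hxS).1 hxC hAD hAc hAf (hSA x hxS).2 ?_ ?_
        · exact Finset.disjoint_left.2 (fun y hy h => hB'A y (hsub h) hy)
        · intro y hy z hz hyz
          exact hanti' y hy z (hsub hz) hyz
      · push Not at hint
        refine hk.full x B' _ hxD (hSB x hxS).1 hxC hB'D hB'c hB'f (hSB x hxS).2 ?_ ?_
        · exact Finset.disjoint_left.2 (fun y hy h => hint y h hy)
        · intro y hy z hz hyz
          apply hint y _ hy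
          unfold cmp at hz ⊢
          rw [Finset.mem_filter] at hz ⊢
          exact ⟨hB'S hy, Relation.ReflTransGen.tail hz.2 ⟨hyz.symm, hB'S hy⟩⟩
    · obtain ⟨r, hr, hxr⟩ := hxr
      exact hk.mono x R _ hCR (hR.out x hxD hxR ⟨r, hCR hr, hxr⟩)

end Pool.Agent.QPB
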