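import Mathlib
import Pool.Agent.QPB.RecA

/-! QPB-RecB (`rec_nodes`, using `split_nodes` of RecA and `lemA`): the recursion into nodes without anticomplete pairs of full connected sets.

PLAN. Strong induction on `R.card`. By `lemA`, `om (bd D R) ≤ al w` for every node `R`
(`B = bd G D R`, `mem_bd`, `Node.out`). If `NB R`: take `Z = ∅`.
Otherwise there are `A B ⊆ R` connected, full, disjoint, anticomplete. `B` is nonempty (full:
`chi B > 0`), `b ∈ B`. Let `B' = cmp G (R \ (A ∪ bd G R A)) b ⊇ B` (`subset_cmp`; `B` is disjoint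
from `A ∪ bd R A`), `S = bd G R B'`. `S ⊆ bd R A`: an element of `S` lies in `A ∪ bd R A` by
`bd_cmp`, and it is not in `A` since its neighbour in `B'` would then be in `A ∪ bd R A`.
So every `x ∈ S` has a neighbour in `A` and a neighbour in `B'`, `x ∉ A`, `x ∉ B'`;
`A`, `B'` are disjoint and anticomplete; `B'` is full (contains `B`), connected (`conn_cmp`).
For `u ∈ R \ S` let `C = cmp G (R \ S) u`. CLAIM: if `C` is full it is a node: let `x ∈ D`,
`x ∉ C`, adjacent to `C`. If `x ∉ R`: `Node.out` of `R` and `Hook.mono`. If `x ∈ R` then `x ∈ S`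
(`bd_cmp`). If `C` meets `B'` then `C = B'` (`cmp_eq` / `subset_cmp`), and `A` is disjoint from and
anticomplete to `C`, so `Hook.full` with `A` gives `P x C`. If `C` is disjoint from `B'` then `B'`
is anticomplete to `C` (an edge would put the `B'`-end into `C`, as `B' ⊆ R \ S`), so `Hook.full`
with `B'` gives `P x C`. In particular `B'` is a node and `om S ≤ al w` by `lemA` (`S ⊆ bd D B'`).
`C ≠ R` for every such `C` (otherwise `C ∩ B'` nonempty, `C = B'`, but `A ⊆ R` is nonempty and
disjoint from `B'`), so `C.card < R.card`; the induction gives `Z_C ⊆ C`.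
`Z = S ∪ ⋃_{C full component} Z_C` (biUnion over `(R \ S)` of `u ↦ if Full (cmp (R\S) u) then
Z (cmp (R\S) u) else ∅`, with `Z` chosen as a function of the set `C`).
Bound: let `K` be a clique in `Z ∪ bd D R`. If `K` contains `z ∈ Z_C`, then each element of `K` is
in `C ∪ bd D C` (adjacent to `z ∈ C`, in `D`), and the ones in `C` are in `Z_C` (they are in `Z`,
not in `S`, and not in `Z_{C'}` for another component), so `K ⊆ Z_C ∪ bd D C`.
Otherwise `K ⊆ S ∪ bd D R` and `om_union_le`.
Last part: a connected full `L ⊆ R \ Z` is disjoint from `S`, nonempty, so `L ⊆ C = cmp (R\S) u`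
(`u ∈ L`), `C` is full by monotonicity, `L ⊆ C \ Z_C`; use the induction. -/

open Finset
open scoped Classical
open Pool.Agent.Helper20.Dense

namespace Pool.Agent.QPB

variable {V : Type*} [Fintype V] [DecidableEq V] (G : SimpleGraph V)

private lemma rb_cmp_eq {X : Finset V} {u u' k : V} (hu : u ∈ X) (hu' : u' ∈ X)
    (hk : k ∈ cmp G X u) (hk' : k ∈ cmp G X u') : cmp G X u = cmp G X u' := by
  have key : ∀ a b : V, a ∈ X → k ∈ cmp G X a → k ∈ cmp G X b → cmp G X a ⊆ cmp G X b := by
    intro a b ha hka hkb c hc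
    have h1 : Reach G X b k := (Finset.mem_filter.mp hkb).2
    have h2 : Reach G (cmp G X a) k c := conn_cmp G ha k hka c hc
    have h3 : Reach G X k c := h2.mono G (cmp_subset G X a)
    exact Finset.mem_filter.mpr ⟨cmp_subset G X a hc, h1.trans h3⟩
  exact Finset.Subset.antisymm (key u u' hu hk hk') (key u' u hu' hk' hk)

private lemma rb_full_nonempty {W : ℕ} (hW : 2 ≤ W) {D L : Finset V} (hD : D.Nonempty)
    (hL : Full G W D L) : L.Nonempty := by
  have h1 : (1 : ℝ) ≤ (chi G D : ℝ) := by exact_mod_cast chi_pos G hD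
  have h2 : (2 : ℝ) ≤ (W : ℝ) := by exact_mod_cast hW
  have h3 : 1 / (2 * (W : ℝ)) ≤ 1 / 4 := by
    apply one_div_le_one_div_of_le <;> linarith
  have h4 : 0 < (chi G L : ℝ) := by
    unfold Full at hL
    have : 0 < (1 - 1 / (2 * (W : ℝ))) * (chi G D : ℝ) := mul_pos (by linarith) (by linarith)
    linarith
  exact nonempty_of_chi_pos G (by exact_mod_cast h4)

private lemma rb_full_mono {W : ℕ} {D L C : Finset V} (hL : Full G W D L) (h : L ⊆ C) :
    Full G W D C := by
  unfold Full at hL ⊢
  have : (chi G L : ℝ) ≤ (chi G C : ℝ) := by exact_mod_cast chi_mono G h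
  exact hL.trans this

theorem rec_nodes {t W s : ℕ} {al : ℝ} (hP : Par t W s al)
    (hfree : IsEmpty (SimpleGraph.pathGraph t ↪g G)) (hom : om G Finset.univ ≤ W)
    {g : ℕ} (hg : s ≤ g) {D : Finset V} (hD : Xt G g D) {P : V → Finset V → Prop}
    (hk : Hook G W D P) : ∀ (n : ℕ) (R : Finset V), R.card = n → Node G W D P R →
    ∃ Z ⊆ R, (om G (Z ∪ bd G D R) : ℝ) ≤ 2 * al * (om G D : ℝ) ∧
      ∀ L ⊆ R \ Z, Conn G L → Full G W D L →
        ∃ R', L ⊆ R' ∧ R' ⊆ R ∧ Node G W D P R' ∧ NB G W D R' := by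
  intro n
  induction n using Nat.strong_induction_on with
  | _ n ih =>
  intro R hRn hR
  have hbd : ∀ R' : Finset V, Node G W D P R' →
      (om G (bd G D R') : ℝ) ≤ al * (om G D : ℝ) := by
    intro R' h
    exact lemA G hP hfree hom hg hD hk h.sub h.conn h.full (bd_subset G D R')
      (fun b hb => ((mem_bd G).mp hb).1.2) (fun b hb => ((mem_bd G).mp hb).2)
      (fun b hb => h.out b ((mem_bd G).mp hb).1.1 ((mem_bd G).mp hb).1.2 ((mem_bd G).mp hb).2)
  by_cases hNB : NB G W D R
  · refine ⟨∅, Finset.empty_subset _, ?_, ?_⟩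
    · rw [Finset.empty_union]
      have h1 := hbd R hR
      have h0 : 0 ≤ al * (om G D : ℝ) := mul_nonneg hP.al_pos.le (Nat.cast_nonneg _)
      linarith
    · intro L hL _ _
      exact ⟨R, hL.trans Finset.sdiff_subset, Finset.Subset.refl _, hR, hNB⟩
  obtain ⟨S, hSR, hSom, hne, hnode⟩ := split_nodes G hP hfree hom hg hD hk hR hNB
  have hch : ∀ C : Finset V, ∃ Z ⊆ C, C ⊂ R → Node G W D P C →
      ((om G (Z ∪ bd G D C) : ℝ) ≤ 2 * al * (om G D : ℝ) ∧
      ∀ L ⊆ C \ Z, Conn G L → Full G W D L →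
        ∃ R', L ⊆ R' ∧ R' ⊆ C ∧ Node G W D P R' ∧ NB G W D R') := by
    intro C
    by_cases h : C ⊂ R ∧ Node G W D P C
    · obtain ⟨Z, hZ, h1, h2⟩ := ih C.card (hRn ▸ Finset.card_lt_card h.1) C rfl h.2
      exact ⟨Z, hZ, fun _ _ => ⟨h1, h2⟩⟩
    · exact ⟨∅, Finset.empty_subset _, fun h1 h2 => absurd ⟨h1, h2⟩ h⟩
  choose Zf hZsub hZ using hch
  have hCR : ∀ u ∈ R \ S, cmp G (R \ S) u ⊂ R := fun u hu =>
    ((cmp_subset G _ u).trans Finset.sdiff_subset).ssubset_of_ne (hne u hu)
  set U : Finset V := (R \ S).biUnion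
    (fun u => if Full G W D (cmp G (R \ S) u) then Zf (cmp G (R \ S) u) else ∅) with hU
  have hmemU : ∀ z, z ∈ U ↔ ∃ u ∈ R \ S, Full G W D (cmp G (R \ S) u) ∧
      z ∈ Zf (cmp G (R \ S) u) := by
    intro z
    rw [hU, Finset.mem_biUnion]
    refine exists_congr fun u => and_congr_right fun _ => ?_
    by_cases h : Full G W D (cmp G (R \ S) u)
    · simp [h]
    · simp [h]
  have hUR : U ⊆ R := by
    intro z hz
    obtain ⟨u, hu, _, h2⟩ := (hmemU z).mp hz
    exact (hCR u hu).subset (hZsub _ h2)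
  refine ⟨S ∪ U, Finset.union_subset hSR hUR, ?_, ?_⟩
  · obtain ⟨K, hK, hKc, hKcard⟩ := exists_clique G ((S ∪ U) ∪ bd G D R)
    rw [← hKcard]
    by_cases hex : ∃ z ∈ K, z ∈ U
    · obtain ⟨z, hzK, hzU⟩ := hex
      obtain ⟨u, hu, hfull, hzC⟩ := (hmemU z).mp hzU
      have hsub : K ⊆ Zf (cmp G (R \ S) u) ∪ bd G D (cmp G (R \ S) u) := by
        intro k hk
        rw [Finset.mem_union]
        by_cases hkz : k = z
        · exact Or.inl (hkz ▸ hzC)
        have hadj : G.Adj k z := hKc hk hzK hkz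
        have hkK := hK hk
        have hkD : k ∈ D := by
          rw [Finset.mem_union] at hkK
          rcases hkK with h | h
          · exact hR.sub (Finset.union_subset hSR hUR h)
          · exact bd_subset G D R h
        by_cases hkC : k ∈ cmp G (R \ S) u
        · left
          have hkRS : k ∈ R \ S := cmp_subset G _ _ hkC
          rw [Finset.mem_sdiff] at hkRS
          have hkU : k ∈ U := by
            rw [Finset.mem_union, Finset.mem_union] at hkK
            rcases hkK with (h | h) | h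
            · exact absurd h hkRS.2
            · exact h
            · exact absurd hkRS.1 ((mem_bd G).mp h).1.2
          obtain ⟨u', hu', _, hk2⟩ := (hmemU k).mp hkU
          rw [rb_cmp_eq G hu hu' hkC (hZsub _ hk2)]
          exact hk2
        · right
          exact (mem_bd G).mpr ⟨⟨hkD, hkC⟩, z, hZsub _ hzC, hadj⟩
      have h1 := (hZ _ (hCR u hu) (hnode u hu hfull)).1
      have h2 : (K.card : ℝ) ≤
          (om G (Zf (cmp G (R \ S) u) ∪ bd G D (cmp G (R \ S) u)) : ℝ) := by
        exact_mod_cast card_le_om G hsub hKc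
      exact h2.trans h1
    · push Not at hex
      have hsub : K ⊆ S ∪ bd G D R := by
        intro k hk
        have hkK := hK hk
        rw [Finset.mem_union, Finset.mem_union] at hkK
        rw [Finset.mem_union]
        rcases hkK with (h | h) | h
        · exact Or.inl h
        · exact absurd h (hex k hk)
        · exact Or.inr h
      have h1 : (K.card : ℝ) ≤ (om G S : ℝ) + (om G (bd G D R) : ℝ) := by
        exact_mod_cast (card_le_om G hsub hKc).trans (om_union_le G S (bd G D R))
      have h2 := hbd R hR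
      linarith
  · intro L hL hLc hLf
    obtain ⟨u, hu⟩ := rb_full_nonempty G hP.hW hD.1 hLf
    have hLRS : L ⊆ R \ S := by
      intro x hx
      have := hL hx
      rw [Finset.mem_sdiff, Finset.mem_union] at this
      exact Finset.mem_sdiff.mpr ⟨this.1, fun h => this.2 (Or.inl h)⟩
    have huRS := hLRS hu
    have hLC : L ⊆ cmp G (R \ S) u := subset_cmp G hLc hLRS hu (Or.inl rfl)
    have hCf : Full G W D (cmp G (R \ S) u) := rb_full_mono G hLf hLC
    have hLZ : L ⊆ cmp G (R \ S) u \ Zf (cmp G (R \ S) u) := by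
      intro x hx
      rw [Finset.mem_sdiff]
      refine ⟨hLC hx, fun h => ?_⟩
      have h2 := hL hx
      rw [Finset.mem_sdiff, Finset.mem_union] at h2
      exact h2.2 (Or.inr ((hmemU x).mpr ⟨u, huRS, hCf, h⟩))
    obtain ⟨R', h1, h2, h3, h4⟩ := (hZ _ (hCR u huRS) (hnode u huRS hCf)).2 L hLZ hLc hLf
    exact ⟨R', h1, h2.trans (hCR u huRS).subset, h3, h4⟩

end Pool.Agent.QPB
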