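import Mathlib
import Pool.Agent.QPB.RecB
import Pool.Agent.QPB.RegA

/-! QPB-RegB (`region`, using `rec_nodes` and `exists_T`): every connected extremal set has a frame.

PLAN. `D` is a node (`Full` of `D` itself is trivial, `out` is vacuous). `rec_nodes` gives `Z ⊆ D`
with `om Z ≤ 2 al w` (`om_mono`), so `chi Z ≤ chi D/(32 t W^2)` (`chi_small`, `2 al ≤ 1 - al`), and
`chi (D \ Z) ≥ chi D - chi Z`; `exists_conn` gives a connected `L ⊆ D \ Z` with
`chi L = chi (D \ Z) ≥ (1 - 1/(32 t W^2)) chi D`, which is full; get `Q := R'` with `NB`,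
`chi Q ≥ chi L`. `T := Q.filter (fun u => ∀ S ⊆ Q, u ∉ S → om S ≤ (3/4) w →
Full (cmp G (Q \ S) u))`. For `u ∈ X := Q \ T` choose `S u`; `pb` with `R = Q`,
`ν = chi D/(32 t W^2)` (`chi_small`, `3/4 ≤ 1 - al` since `al ≤ 1/48`),
`β = (1 - 1/(2W)) chi D` (not full) : `chi X ≤ (1 - 1/(2W)) chi D + chi D/(32 W^2)`.
`chi T ≥ chi Q - chi X ≥ chi D (1/(2W) - 1/(32W^2) - 1/(32 t W^2)) ≥ chi D/(4W)`.
In particular `T` is nonempty. `out`: `T \ Q = ∅`, `om ∅ = 0`.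
`uns`: `Q' ⊆ Q` connected, `u ∈ Q' ∩ T`, `S = bd Q Q'`: `cmp (Q \ S) u = Q'` is full (`cmp_eq`,
`u ∉ S`). If `v ∈ T` is not in `Q' ∪ S`, then `C = cmp (Q \ S) v` is full, connected, disjoint from
and anticomplete to `Q'`, contradiction to `NB Q`. -/

open Finset
open scoped Classical
open Pool.Agent.Helper20.Dense

namespace Pool.Agent.QPB

variable {V : Type*} [Fintype V] [DecidableEq V] (G : SimpleGraph V)

theorem region {t W s : ℕ} {al : ℝ} (hP : Par t W s al)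
    (hfree : IsEmpty (SimpleGraph.pathGraph t ↪g G)) (hom : om G Finset.univ ≤ W)
    {g : ℕ} (hg : s ≤ g) {D : Finset V} (hD : Xt G g D) (hDc : Conn G D)
    {P : V → Finset V → Prop} (hk : Hook G W D P) : ∃ Q T, Frame G W D Q T 0 := by
  have hWr : (2 : ℝ) ≤ W := by exact_mod_cast hP.hW
  have htr : (4 : ℝ) ≤ t := by exact_mod_cast hP.ht
  have hal0 := hP.al_pos
  have hal48 : 48 * al ≤ 1 := by
    have h1 := hP.al_le
    have h2 : 4 * al ≤ (t : ℝ) * al := mul_le_mul_of_nonneg_right htr hal0.le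
    linarith
  have hDpos : (0 : ℝ) < (chi G D : ℝ) := by
    have := chi_pos G hD.1
    exact_mod_cast this
  have hom0 : (0 : ℝ) ≤ (om G D : ℝ) := Nat.cast_nonneg _
  have hNodeD : Node G W D P D := by
    refine ⟨Finset.Subset.refl _, hDc, ?_, fun x hx hx' => absurd hx hx'⟩
    show (1 - 1 / (2 * (W : ℝ))) * (chi G D : ℝ) ≤ (chi G D : ℝ)
    have h1 : (0 : ℝ) ≤ 1 / (2 * (W : ℝ)) := by positivity
    have h2 : 0 ≤ 1 / (2 * (W : ℝ)) * (chi G D : ℝ) := mul_nonneg h1 hDpos.le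
    linarith
  obtain ⟨Z, hZ, homZ, hrec⟩ := rec_nodes G hP hfree hom hg hD hk D.card D rfl hNodeD
  have homZ' : (om G Z : ℝ) ≤ (1 - al) * (om G D : ℝ) := by
    have h1 : (om G Z : ℝ) ≤ (om G (Z ∪ bd G D D) : ℝ) := by
      exact_mod_cast om_mono G Finset.subset_union_left
    have h2 : 2 * al * (om G D : ℝ) ≤ (1 - al) * (om G D : ℝ) :=
      mul_le_mul_of_nonneg_right (by linarith) hom0
    linarith
  have hsmall := chi_small G hP hg hD hZ homZ'
  have hKpos : (0 : ℝ) < 32 * (t : ℝ) * (W : ℝ) ^ 2 := by positivity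
  have hZle : (chi G Z : ℝ) ≤ 1 / (32 * (t : ℝ) * (W : ℝ) ^ 2) * (chi G D : ℝ) := by
    rw [div_mul_eq_mul_div, one_mul, le_div_iff₀ hKpos]
    exact hsmall
  have hunion : (chi G D : ℝ) ≤ (chi G Z : ℝ) + (chi G (D \ Z) : ℝ) := by
    have h1 : chi G D ≤ chi G Z + chi G (D \ Z) := by
      have h2 := chi_union G Z (D \ Z)
      rw [Finset.union_sdiff_of_subset hZ] at h2
      exact h2
    exact_mod_cast h1
  have hDZ : (1 - 1 / (32 * (t : ℝ) * (W : ℝ) ^ 2)) * (chi G D : ℝ) ≤ (chi G (D \ Z) : ℝ) := by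
    rw [sub_mul, one_mul]
    linarith
  have hK2 : 1 / (32 * (t : ℝ) * (W : ℝ) ^ 2) ≤ 1 / (2 * (W : ℝ)) := by
    apply one_div_le_one_div_of_le (by positivity)
    have h1 : (W : ℝ) ≤ (W : ℝ) ^ 2 := by nlinarith
    have h2 : 4 * (W : ℝ) ^ 2 ≤ (t : ℝ) * (W : ℝ) ^ 2 :=
      mul_le_mul_of_nonneg_right htr (by positivity)
    nlinarith
  have hK3 : 1 / (2 * (W : ℝ)) ≤ 1 / 4 := by
    apply one_div_le_one_div_of_le (by norm_num)
    linarith
  have hDZpos : (0 : ℝ) < (chi G (D \ Z) : ℝ) := by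
    refine lt_of_lt_of_le ?_ hDZ
    apply mul_pos _ hDpos
    linarith
  have hDZne : (D \ Z).Nonempty := nonempty_of_chi_pos G (by exact_mod_cast hDZpos)
  obtain ⟨L, hL, hLne, hLc, hLchi⟩ := exists_conn G hDZne
  have hLbig : (1 - 1 / (32 * (t : ℝ) * (W : ℝ) ^ 2)) * (chi G D : ℝ) ≤ (chi G L : ℝ) := by
    rw [hLchi]
    exact hDZ
  have hLfull : Full G W D L := by
    show (1 - 1 / (2 * (W : ℝ))) * (chi G D : ℝ) ≤ (chi G L : ℝ)
    refine le_trans (mul_le_mul_of_nonneg_right ?_ hDpos.le) hLbig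
    linarith
  obtain ⟨Q, hLQ, hQD, hQnode, hQNB⟩ := hrec L hL hLc hLfull
  have hQbig : (1 - 1 / (32 * (t : ℝ) * (W : ℝ) ^ 2)) * (chi G D : ℝ) ≤ (chi G Q : ℝ) := by
    refine hLbig.trans ?_
    exact_mod_cast chi_mono G hLQ
  obtain ⟨T, hTQ, hTbig, hTuns⟩ := exists_T G hP hfree hom hg hD hQD hQnode.conn hQNB hQbig
  have hTpos : (0 : ℝ) < (chi G T : ℝ) := by
    by_contra hcon
    push Not at hcon
    have h1 : 4 * (W : ℝ) * (chi G T : ℝ) ≤ 0 :=
      mul_nonpos_of_nonneg_of_nonpos (by positivity) hcon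
    linarith
  have hTne : T.Nonempty := nonempty_of_chi_pos G (by exact_mod_cast hTpos)
  have hQT : Q ∩ T = T := Finset.inter_eq_right.mpr hTQ
  have hom_empty : om G (∅ : Finset V) = 0 := by
    obtain ⟨S, hS, _, hcard⟩ := exists_clique G (∅ : Finset V)
    rw [← hcard, Finset.subset_empty.mp hS, Finset.card_empty]
  refine ⟨Q, T, ⟨hQD, hTQ.trans hQD, hQnode.conn, ?_, hTbig, ?_, ?_⟩⟩
  · rw [hQT]
    exact hTne
  · rw [Finset.sdiff_eq_empty_iff_subset.mpr hTQ, hom_empty]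
    simp
  · intro Q' hQ' hQ'c hQ'ne hb
    rw [hQT]
    rw [sub_zero] at hb
    exact hTuns Q' hQ' hQ'c hQ'ne hb

end Pool.Agent.QPB
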