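import Mathlib
import Pool.Agent.QPB.LamA
import Pool.Agent.QPB.LamC
import Pool.Agent.QPB.LamE
import Pool.Agent.QPB.RegB
import Pool.Agent.QPB.Claim

open Finset
open scoped Classical
open Pool.Agent.Helper20.Dense

namespace Pool.Agent.QPB

lemma free_of_le {V : Type} (G : SimpleGraph V) {t t' : ℕ} (h : t ≤ t')
    (hfree : IsEmpty (SimpleGraph.pathGraph t ↪g G)) :
    IsEmpty (SimpleGraph.pathGraph t' ↪g G) := by
  refine ⟨fun φ => hfree.false (φ.comp ⟨Fin.castLEEmb h, ?_⟩)⟩
  intro a b
  simp [SimpleGraph.pathGraph_adj]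

/-- small clique numbers -/
lemma colorable_small {V : Type} [Fintype V] (G : SimpleGraph V) (C : ℕ)
    (h : G.cliqueNum < 2) :
    G.Colorable (G.cliqueNum ^ (C * (Nat.log 2 G.cliqueNum + 1))) := by
  have hom : om G Finset.univ ≤ G.cliqueNum := om_univ_le G
  have h3 : chi G Finset.univ ≤ 1 := chi_le_one_of_om G (by omega)
  rw [← isCol_univ_iff, ← chi_le_iff]
  rcases Nat.eq_zero_or_pos (om G Finset.univ) with h4 | h4
  · have h5 : (Finset.univ : Finset V) = ∅ := by
      by_contra hne
      have := om_pos G (Finset.nonempty_iff_ne_empty.mpr hne)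
      omega
    rw [h5, chi_empty]
    exact Nat.zero_le _
  · have h5 : G.cliqueNum = 1 := by omega
    rw [h5, one_pow]
    exact h3

/-- closure under `lam5` -/
theorem quasi_lam {t : ℕ} {U : Type} {F : SimpleGraph U} (h : QuasiBounded t F) :
    QuasiBounded t (lam5 F) := by
  obtain ⟨C, hF⟩ := h
  set t' := max t 4 with ht'
  have htt : t ≤ t' := le_max_left _ _
  have h4t : 4 ≤ t' := le_max_right _ _
  obtain ⟨K, hK1, hK⟩ := exists_par t' h4t
  refine ⟨(t' - 2) * (K + (C + t' + 3)), ?_⟩
  intro V _ G hfree0 hlam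
  classical
  have hfree := free_of_le G htt hfree0
  have hom : om G Finset.univ ≤ G.cliqueNum := om_univ_le G
  rcases Nat.lt_or_ge G.cliqueNum 2 with h2 | h2
  · exact colorable_small G _ h2
  · set W := G.cliqueNum with hW
    set s := (K + (C + t' + 3)) * (Nat.log 2 W + 1) with hs
    have hP : Par t' W s (1 / (12 * (t' : ℝ))) :=
      (hK W h2).mono (Nat.mul_le_mul_right _ (Nat.le_add_right _ _))
    have hreg : HReg G W s := by
      intro g D hg hD hDc
      have hg1 : 1 ≤ g := le_trans hP.hs hg
      refine region G hP hfree hom hg hD hDc (P := fun s R => HookF G F s R) ?_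
      have hDW : om G D ≤ W := (om_mono G (Finset.subset_univ D)).trans hom
      refine ⟨fun s R R' hR h => hookF_mono G F hR h, ?_, ?_⟩
      · intro x A R hxD hxA _ hA hAc hAf hxa hAR hAR'
        refine hookF_full G F (t := t') (W := W) (by omega) h2 hom hfree hg1 hD
          (q := qf C (om G D)) ?_ ?_ hxD hxA hA hAc hAf hxa hAR hAR'
        · intro Y _ hY2 hY3
          exact (quasi_apply G hF hfree0 Y hY3).trans (qf_mono C hY2.le)
        · intro hD2
          have h5 := num_big (t := t') (C := C) (s := g) hD2 hDW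
            (le_trans (Nat.mul_le_mul_right _ (Nat.le_add_left _ _)) hg)
          have h6 := pow_le_chi G hD
          have h7 : ((2 * W * (t' * (qf C (om G D) + 1)) : ℕ) : ℝ) < ((om G D ^ g : ℕ) : ℝ) := by
            exact_mod_cast h5
          rw [Nat.cast_pow] at h7
          exact lt_of_lt_of_le h7 h6
      · intro x R a b c hx hxR ha hb hc h1 h2 h3 h4 h5 h6
        exact hookF_nopath G F hlam hx hxR ha hb hc h1 h2 h3 h4 h5 h6
    have h3 := chi_bound G hP hfree hom hreg
    rw [← isCol_univ_iff, ← chi_le_iff]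
    have h4 : (t' - 2) * s = (t' - 2) * (K + (C + t' + 3)) * (Nat.log 2 W + 1) := by
      rw [hs]
      ring
    rw [h4] at h3
    exact h3

end Pool.Agent.QPB
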