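import Mathlib
import Pool.Agent.QPB.DeepA
import Pool.Agent.QPB.Lam

/-! The bound with nested anticomplete pairs. -/

open Finset
open scoped Classical
open Pool.Agent.Helper20.Dense

namespace Pool.Agent.QPB

theorem deep_bound (t : ℕ) : ∃ C : ℕ, ∀ (V : Type) [Fintype V] (G : SimpleGraph V),
    IsEmpty (SimpleGraph.pathGraph t ↪g G) → 2 ≤ G.cliqueNum → ∀ d : ℕ, 1 ≤ d →
      ¬ DeepF G d Finset.univ →
      G.Colorable (G.cliqueNum ^ (C * (Nat.log 2 G.cliqueNum + Nat.log 2 d))) := by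
  set t' := max t 4 with ht'
  have htt : t ≤ t' := le_max_left _ _
  have h4t : 4 ≤ t' := le_max_right _ _
  obtain ⟨K, hK1, hK⟩ := exists_par t' h4t
  refine ⟨(t' - 2) * (K * 2), ?_⟩
  intro V _ G hfree0 h2 d hd hdeep
  have hfree := free_of_le G htt hfree0
  have hom : om G Finset.univ ≤ G.cliqueNum := om_univ_le G
  set W := max G.cliqueNum d with hW
  have hWc : G.cliqueNum ≤ W := le_max_left _ _
  have hWd : d ≤ W := le_max_right _ _
  have hP := hK W (h2.trans hWc)
  have hreg : HReg G W (K * (Nat.log 2 W + 1)) := by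
    intro g D hg hD hDc
    exact region_deep G hP hfree hd hWd hdeep hg hD hDc
  have h3 := chi_bound' G hP hfree (hom.trans hWc) hreg
  rw [← isCol_univ_iff, ← chi_le_iff]
  have h4 : Nat.log 2 W ≤ Nat.log 2 G.cliqueNum + Nat.log 2 d := by
    rcases max_choice G.cliqueNum d with h | h
    · rw [hW, h]
      omega
    · rw [hW, h]
      omega
  have h5 : 1 ≤ Nat.log 2 G.cliqueNum := Nat.log_pos (by norm_num) h2
  have h6 : K * (Nat.log 2 W + 1) ≤ K * 2 * (Nat.log 2 G.cliqueNum + Nat.log 2 d) := by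
    calc K * (Nat.log 2 W + 1) ≤ K * (2 * (Nat.log 2 G.cliqueNum + Nat.log 2 d)) :=
          Nat.mul_le_mul_left _ (by omega)
      _ = _ := by ring
  calc chi G Finset.univ ≤ (om G Finset.univ) ^ ((t' - 2) * (K * (Nat.log 2 W + 1))) := h3
    _ ≤ G.cliqueNum ^ ((t' - 2) * (K * (Nat.log 2 W + 1))) := Nat.pow_le_pow_left hom _
    _ ≤ G.cliqueNum ^ ((t' - 2) * (K * 2) * (Nat.log 2 G.cliqueNum + Nat.log 2 d)) := by
        apply Nat.pow_le_pow_right (by omega)
        rw [mul_assoc]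
        exact Nat.mul_le_mul_left _ h6

/-- reachability inside a set is reachability in the induced subgraph -/
lemma reach_induce {V : Type*} (G : SimpleGraph V) {X : Finset V} {a b : V} (ha : a ∈ X)
    (h : Reach G X a b) : ∃ hb : b ∈ X, (G.induce (X : Set V)).Reachable ⟨a, ha⟩ ⟨b, hb⟩ := by
  induction h with
  | refl => exact ⟨ha, SimpleGraph.Reachable.refl _⟩
  | tail _ hbc ih =>
    obtain ⟨hb, hr⟩ := ih
    refine ⟨hbc.2, hr.trans ?_⟩
    apply SimpleGraph.Adj.reachable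
    show G.Adj _ _
    exact hbc.1

lemma conn_induce {V : Type*} (G : SimpleGraph V) {X : Finset V} (hX : Conn G X)
    (hne : X.Nonempty) : (G.induce (X : Set V)).Connected := by
  haveI : Nonempty ((X : Set V) : Type _) := by
    obtain ⟨x, hx⟩ := hne
    exact ⟨⟨x, hx⟩⟩
  refine SimpleGraph.Connected.mk ?_
  rintro ⟨a, ha⟩ ⟨b, hb⟩
  obtain ⟨_, h⟩ := reach_induce G ha (hX a ha b hb)
  exact h

end Pool.Agent.QPB
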