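import Mathlib
import Pool.Agent.QPB.Num

/-! QPB-P6: for graphs without an induced path on six vertices, `P s R = Tail G 2 s R` is a hook.

PLAN. `mono`: `tail_mono`. `full`: `om A = om D` (`om_full`); `s` is not adjacent to all of `A`
(otherwise `om {s} + om A ≤ om D` by `om_add_le`, `om {s} = 1`), it has a neighbour in `A`, so
`exists_edge` gives `x, y ∈ A`, `s ~ x`, `s ≁ y`, `x ~ y`; `v 0 = y`, `v 1 = x`, `v 2 = s` is the
tail (`x, y ∉ R`, anticomplete to `R`). `nopath`: three times `Tail.step` (Helper20 Basic):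
`Tail 3 a {b, c}`, `Tail 4 b {c}`, `Tail 5 c ∅`, then `Tail.embedding`. -/

open Finset
open scoped Classical
open Pool.Agent.Helper20.Dense

namespace Pool.Agent.QPB

variable {V : Type*} [Fintype V] [DecidableEq V] (G : SimpleGraph V)

theorem hook_six {W : ℕ} (hW1 : 1 ≤ W) (hom : om G Finset.univ ≤ W)
    (hfree : IsEmpty (SimpleGraph.pathGraph 6 ↪g G)) {g : ℕ} (hg : 1 ≤ g) {D : Finset V}
    (hD : Xt G g D) : Hook G W D (fun s R => Tail G 2 s R) := by
  have hWD : om G D ≤ W := (om_mono G (Finset.subset_univ D)).trans hom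
  refine ⟨fun s R R' hR h => tail_mono G h hR, ?_, ?_⟩
  · intro s A R hsD hsA hsR hAD hAc hAf hadj hdis hanti
    obtain ⟨a, ha, hsa⟩ := hadj
    have hnot : ∃ b ∈ A, ¬ G.Adj s b := by
      by_contra hcon
      have hall : ∀ b ∈ A, G.Adj s b := fun b hb => by_contra fun h => hcon ⟨b, hb, h⟩
      have h1 : om G {s} + om G A ≤ om G D := by
        refine om_add_le G (Finset.singleton_subset_iff.2 hsD) hAD ?_
        intro x hx y hy
        rw [Finset.mem_singleton.1 hx]
        exact hall y hy
      have h2 : 1 ≤ om G {s} := om_pos G (Finset.singleton_nonempty s)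
      have h3 := om_full G hg hD hAD hWD hW1 hAf
      omega
    obtain ⟨b, hb, hsb⟩ := hnot
    obtain ⟨x, hx, y, hy, hsx, hsy, hxy⟩ := exists_edge G hAc ha hb hsa hsb
    have hR : ∀ z ∈ A, ∀ d ∈ R, z ≠ d ∧ ¬ G.Adj z d := by
      intro z hz d hd
      refine ⟨fun e => ?_, hanti z hz d hd⟩
      rw [← e] at hd
      exact Finset.disjoint_left.1 hdis hz hd
    have t0 : Tail G 0 y (insert x (insert s R)) := Tail.zero G y _
    have t1 : Tail G (0 + 1) x (insert s R) := by
      refine Tail.step G t0 (Finset.mem_insert_self _ _) hxy.symm (Finset.subset_insert _ _) ?_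
      intro d hd
      rcases Finset.mem_insert.1 hd with rfl | hd
      · exact ⟨fun e => hsA (e ▸ hy), fun h => hsy h.symm⟩
      · exact hR y hy d hd
    exact Tail.step G t1 (Finset.mem_insert_self _ _) hsx.symm (Finset.subset_insert _ _)
      (fun d hd => hR x hx d hd)
  · intro s R a b c hT hsR ha hb hc hsa hsb hsc hab hac hbc
    have t3 : Tail G (2 + 1) a {b, c} := by
      refine Tail.step G hT ha hsa ?_ ?_
      · intro d hd
        rcases Finset.mem_insert.1 hd with e | hd
        · rw [e]
          exact hb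
        · rw [Finset.mem_singleton.1 hd]
          exact hc
      · intro d hd
        rcases Finset.mem_insert.1 hd with e | hd
        · rw [e]
          exact ⟨fun h => hsR (h ▸ hb), hsb⟩
        · rw [Finset.mem_singleton.1 hd]
          exact ⟨fun h => hsR (h ▸ hc), hsc⟩
    have t4 : Tail G (2 + 1 + 1) b {c} := by
      refine Tail.step G t3 (Finset.mem_insert_self _ _) hab (Finset.subset_insert _ _) ?_
      intro d hd
      rw [Finset.mem_singleton.1 hd]
      exact ⟨fun h => hsc (h ▸ hsa), hac⟩
    have t5 : Tail G (2 + 1 + 1 + 1) c ∅ :=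
      Tail.step G t4 (Finset.mem_singleton_self c) hbc (Finset.empty_subset _)
        (fun d hd => absurd hd (Finset.notMem_empty d))
    obtain ⟨e⟩ := Tail.embedding G t5
    exact hfree.false e

end Pool.Agent.QPB
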