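import Mathlib
import Pool.Agent.Helper20.Dense.Poly
import Pool.Agent.QPB.P6
import Pool.Agent.QPB.RegB
import Pool.Agent.QPB.Claim

open Finset
open scoped Classical
open Pool.Agent.Helper20.Dense

namespace Pool.Agent.QPB

/-- graphs without an induced path on six vertices are quasi-polynomially chi-bounded -/
theorem six : ∃ C : ℕ, ∀ (V : Type) [Fintype V] (G : SimpleGraph V),
    IsEmpty (SimpleGraph.pathGraph 6 ↪g G) →
      G.Colorable (G.cliqueNum ^ (C * (Nat.log 2 G.cliqueNum + 1))) := by
  obtain ⟨K, hK1, hK⟩ := exists_par 6 (by norm_num)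
  refine ⟨4 * K, ?_⟩
  intro V _ G hfree
  classical
  have hom : om G Finset.univ ≤ G.cliqueNum := om_univ_le G
  rcases Nat.lt_or_ge G.cliqueNum 2 with h2 | h2
  · have h3 : chi G Finset.univ ≤ 1 := chi_le_one_of_om G (by omega)
    rw [← isCol_univ_iff, ← chi_le_iff]
    rcases Nat.eq_zero_or_pos (om G Finset.univ) with h4 | h4
    · have h5 : (Finset.univ : Finset V) = ∅ := by
        by_contra hne
        have := om_pos G (Finset.nonempty_iff_ne_empty.mpr hne)
        omega
      rw [h5, chi_empty]
      exact Nat.zero_le _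
    · have h5 : G.cliqueNum = 1 := by omega
      rw [h5, one_pow]
      exact h3
  · set W := G.cliqueNum with hW
    have hP := hK W h2
    have hreg : HReg G W (K * (Nat.log 2 W + 1)) := by
      intro g D hg hD hDc
      exact region G hP hfree hom hg hD hDc
        (hook_six G (by omega) hom hfree (le_trans hP.hs hg) hD)
    have h3 := chi_bound G hP hfree hom hreg
    rw [← isCol_univ_iff, ← chi_le_iff]
    have h4 : (6 - 2) * (K * (Nat.log 2 W + 1)) = 4 * K * (Nat.log 2 W + 1) := by ring
    rw [h4] at h3
    exact h3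

end Pool.Agent.QPB
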